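import Pool.Agent.T9h37.CT.FdLem

/-!
# Abelian varieties of prime dimension whose CM field contains no imaginary quadratic field
-/

set_option autoImplicit false
set_option linter.unusedSectionVars false
set_option linter.unusedVariables false

namespace Pool.Agent.T9h37.CT

open NumberField Pool.Agent.H204R3.CM Pool.Agent.W547.KB Pool.Agent.W547.LD Pool.Agent.W547.HR
  Pool.Agent.W495.TA Module Pool.Agent.TH117.PO Pool.Agent.W976.TA Pool.Agent.W417.TA
  Pool.Agent.TH117.BL Pool.Agent.W495.TC Pool.Agent.W495.TB Pool.Agent.TH117.F5 Pool.Agent.N202.QR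
open scoped TensorProduct

noncomputable section

variable {p : ℕ} [Fact p.Prime] {ν : PadicAlgCl p ≃+* ℂ}

/-- Symmetric relations are elementary. -/
theorem elementary_of_odd {Z : RedAV p ν} (h0 : ∀ e, IsRel Z e → ∀ w, oddE e w = 0) :
    HasElementaryRelations Z := by
  intro e he
  refine sym_mem _ (fun n h1 h2 => ?_) e fun w => ?_
  · exact ⟨n, h1, h2, fun w => rfl⟩
  · have h1 := h0 e he w
    unfold oddE at h1
    omega

/-- **Relations for one factor of odd prime dimension.** -/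
theorem elementary_of_prime {Z : RedAV p ν} (i0 : Z.X.I) (hone : ∀ i : Z.X.I, i = i0) {g : ℕ}
    (hg : g.Prime) (hg2 : g ≠ 2) (hdeg : finrank ℚ (Z.X.factor i0).E = 2 * g)
    (hNQ : NoQuadratic (Z.X.factor i0).E) : HasElementaryRelations Z := by
  classical
  rcases prime_relations i0 hone hg hg2 hdeg with h | hr
  · exact h
  refine elementary_of_odd ?_
  by_contra h0
  push Not at h0
  obtain ⟨e0, he0, w0, hw0⟩ := h0
  have hne : Nonempty (Z.X.prod (single (kp p))).I := ⟨Sum.inr ()⟩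
  obtain ⟨L, _, _, _, _, j, hj⟩ := exists_cm (Z.X.prod (single (kp p)))
  have hZ : Big Z.X j := fun i ψ => hj (Sum.inl i) ψ
  have hfin := Pool.Agent.W495.TB.finite_wt j hZ
  let _ : Fintype (Wt Z.X L) := Fintype.ofFinite _
  have hbij := toEmb_bijective (j := j) hZ
  let a : Wt Z.X L → ℤ := fun w => oddE e0 (toEmb j Z w)
  have ha : ∀ (σ : L ≃ₐ[ℚ] L) (w w' : Wt Z.X L), a (sw σ w) * a w' = a (sw σ w') * a w := by
    intro σ w w'
    have h1 := hr _ _ (isRel_actE hZ σ he0) he0 (toEmb j Z w) (toEmb j Z w')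
    rw [oddE_actE, oddE_actE] at h1
    exact h1
  have hcw : ∀ w, a (cw Z w) = -a w := by
    intro w
    change oddE e0 (toEmb j Z (cw Z w)) = -oddE e0 (toEmb j Z w)
    rw [toEmb_cw, oddE_conj]
  obtain ⟨v0, hv0⟩ := hbij.2 w0
  have hv0' : a v0 ≠ 0 := by
    change oddE e0 (toEmb j Z v0) ≠ 0
    rw [hv0]
    exact hw0
  have : Nonempty (Wt Z.X L) := ⟨v0⟩
  obtain ⟨w1, hw1⟩ := Finite.exists_max fun w => |a w|
  have hw1' : a w1 ≠ 0 := by
    intro h
    have h1 := hw1 v0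
    rw [h, abs_zero] at h1
    exact hv0' (abs_nonpos_iff.1 h1)
  have hpm : ∀ σ : L ≃ₐ[ℚ] L, (∀ w, a (sw σ w) = a w) ∨ ∀ w, a (sw σ w) = -a w := by
    intro σ
    have h1 := ha σ w1 (sw σ⁻¹ w1)
    have h2 : sw σ (sw σ⁻¹ w1) = w1 := by rw [← sw_mul, mul_inv_cancel, sw_one]
    rw [h2] at h1
    have h3 : |a (sw σ w1)| * |a (sw σ⁻¹ w1)| = |a w1| * |a w1| := by
      rw [← abs_mul, ← abs_mul, h1]
    have h4 := hw1 (sw σ w1)
    have h5 := hw1 (sw σ⁻¹ w1)
    have h6 : 0 < |a w1| := abs_pos.2 hw1'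
    have h7 : |a (sw σ w1)| = |a w1| := by
      by_contra hne
      have h8 : |a (sw σ w1)| < |a w1| := lt_of_le_of_ne h4 hne
      have h9 : 0 ≤ |a (sw σ w1)| := abs_nonneg _
      nlinarith
    rcases abs_eq_abs.1 h7 with h8 | h8
    · refine Or.inl fun w => ?_
      have h9 := ha σ w1 w
      rw [h8] at h9
      exact (mul_left_cancel₀ hw1' (by linarith)).symm
    · refine Or.inr fun w => ?_
      have h9 := ha σ w1 w
      rw [h8] at h9
      have h10 : a w1 * a (sw σ w) = a w1 * -a w := by linarith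
      exact mul_left_cancel₀ hw1' h10
  let b : ((Z.X.factor i0).E →+* L) → ℤ := fun φ => a ⟨i0, φ⟩
  obtain ⟨i1, φ1⟩ := w1
  obtain rfl := hone i1
  obtain ⟨K₂, _, _, _, h2, ⟨f⟩⟩ := exists_quad j b φ1 hw1' (fun w => hcw ⟨i1, w⟩)
    (fun σ => (hpm σ).imp (fun h w => h ⟨i1, w⟩) fun h w => h ⟨i1, w⟩)
  exact (hNQ K₂ h2).false f

end

end Pool.Agent.T9h37.CT
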