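import Pool.Agent.T9h37.CT.Defs

/-!
# Abelian varieties whose Frobenius numbers are not generated by their traces and the Frobenius eigenvalues
# of a variety: definitions
-/

set_option autoImplicit false

namespace Pool.Agent.T9h37.CT

open Module Pool.Agent.W495.TA
open Pool.Agent.Y137.TV (IsOddSupersingular)

noncomputable section

/-- The field `E` contains no imaginary quadratic field. -/
def NoQuadratic (E : Type) [Field E] : Prop :=
  ∀ (K : Type) [Field K] [NumberField K] [NumberField.IsCMField K], finrank ℚ K = 2 →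
    IsEmpty (K →+* E)

/-- Each complex conjugate `λ` of the number `μ` is real, or it is not in the field generated by `λ + λ̄` and
a complex conjugate of the number `x`. -/
def TraceApart {E K : Type} [Field E] [Field K] (μ : E) (x : K) : Prop :=
  ∀ (w : E →+* ℂ) (ψ : K →+* ℂ), star (w μ) = w μ ∨
    w μ ∉ Subfield.closure {w μ + star (w μ), ψ x}

/-- The number `μ` is in the image of a CM field `E₀` of degree `2 ℓ`, where `ℓ` is an odd prime
number; `E₀` contains no imaginary quadratic field, and `ℓ` does not divide the order of the Galois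
group of the minimal polynomial of `x` (for example, the degree of `x` is smaller than `ℓ`). -/
def PrimeApart {E K : Type} [Field E] [Field K] [NumberField K] (μ : E) (x : K) : Prop :=
  ∃ (E₀ : Type) (_ : Field E₀) (_ : NumberField E₀) (_ : NumberField.IsCMField E₀) (ι : E₀ →+* E)
    (z : E₀) (ℓ : ℕ), ι z = μ ∧ ℓ.Prime ∧ ℓ ≠ 2 ∧ finrank ℚ E₀ = 2 * ℓ ∧ NoQuadratic E₀ ∧
      ¬ ℓ ∣ Nat.card (minpoly ℚ x).Gal

/-- The eigenvalue `α` of the Frobenius endomorphism on `H^b(V)`, `V` a variety over the field with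
`p ^ a` elements, is the image of a number `x` in a number field, all conjugates of `x` have the absolute
value `p ^ (a b / 2)` (Deligne), `α` is not of supersingular type if `b` is odd, and for some `n > 0` and
each factor of `Y`, with the Frobenius number `π`, the numbers `π ^ n` and `x ^ n` are apart in one of
the two ways above. -/
def IsSepFd {p : ℕ} [Fact p.Prime] {ν : PadicAlgCl p ≃+* ℂ} {Ω : Type} [Field Ω] [CharZero Ω]
    (Y : RedAV p ν) (a b : ℕ) (α : Ω) : Prop :=
  ∃ (K : Type) (_ : Field K) (_ : NumberField K) (ι : K →+* Ω) (x : K), ι x = α ∧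
    (∀ ψ : K →+* ℂ, ‖ψ x‖ ^ 2 = (p : ℝ) ^ (a * b)) ∧
    (Odd b → ¬ IsOddSupersingular ((p : Ω) ^ a) α) ∧
    ∃ n : ℕ, 0 < n ∧ ∀ i, TraceApart (Y.π i ^ n) (x ^ n) ∨ PrimeApart (Y.π i ^ n) (x ^ n)

/-- All eigenvalues of Frobenius on the cohomology of `V` are apart from `Y`. -/
def AllSepFd {p : ℕ} [Fact p.Prime] {ν : PadicAlgCl p ≃+* ℂ} {K : Type} [Field K] (Ω : Type)
    [Field Ω] [CharZero Ω] [Algebra K Ω] (Y : RedAV p ν) (N : ℕ) {M : ℕ → Type}
    [∀ b, AddCommGroup (M b)] [∀ b, Module K (M b)] (φ : ∀ b, M b →ₗ[K] M b) : Prop :=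
  ∀ b α, End.HasEigenvalue ((φ b).baseChange Ω) α → IsSepFd Y N b α

/-- A power of `x ^ 2` is a power of `p ^ a`: the factor with the Frobenius number `x` is supersingular. -/
def IsSupersing (p a : ℕ) {E : Type} [Field E] (x : E) : Prop :=
  ∃ s : ℕ, 0 < s ∧ x ^ (2 * s) = ((p : E) ^ a) ^ s

/-- A power of `y` is the image of a power of `x` under an embedding of fields (the exponents correspond to
the same extension of the fields with `p ^ a` and `p ^ b` elements): the factor with the Frobenius number
`y` is, over an algebraic closure, isogenous to a power of the one with the Frobenius number `x`. -/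
def IsPowerOf {E F : Type} [Field E] [Field F] (a b : ℕ) (x : E) (y : F) : Prop :=
  ∃ (ι : E →+* F) (s t : ℕ), 0 < s ∧ 0 < t ∧ b * s = a * t ∧ y ^ s = ι (x ^ t)

/-- The abelian variety `Y` is, over an algebraic closure, isogenous to the product of a supersingular
abelian variety and of a power of one abelian variety `Z` (with one CM factor) whose dimension is an odd
prime number, and whose CM field contains no imaginary quadratic field. -/
def IsPrimeDim {p : ℕ} [Fact p.Prime] {ν : PadicAlgCl p ≃+* ℂ} (Y : RedAV p ν) : Prop :=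
  ∃ (Z : RedAV p ν) (k : Z.X.I) (ℓ : ℕ), (∀ i, i = k) ∧ ℓ.Prime ∧ ℓ ≠ 2 ∧
    finrank ℚ (Z.X.factor k).E = 2 * ℓ ∧ NoQuadratic (Z.X.factor k).E ∧
    ∀ i, IsSupersing p Y.a (Y.π i) ∨ IsPowerOf Z.a Y.a (Z.π k) (Y.π i)

/-- The crystalline Tate conjecture is known for `Y`, where `A k` is the set of the linear combinations of the
classes of algebraic cycles in `H^k(Y)` over finite extensions: all Tate classes are in `A k`; or `Y` is
isogenous to a power of an abelian variety of prime dimension times a supersingular one (`IsPrimeDim`), and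
`A k` contains the classes in the system `Alg` (algebraic by theorems of Tate and Markman). -/
def KnownZ {p : ℕ} [Fact p.Prime] {ν : PadicAlgCl p ≃+* ℂ} {Ω : Type} [Field Ω] [CharZero Ω]
    (Y : RedAV p ν) (A : ∀ k, Set ((TM Ω Y) [⋀^Fin k]→ₗ[Ω] Ω)) : Prop :=
  (∀ (s m : ℕ) (f : (TM Ω Y) [⋀^Fin (2 * m)]→ₗ[Ω] Ω), 0 < s → IsTateClass Ω Y s m f →
    f ∈ A (2 * m)) ∨
  (IsPrimeDim Y ∧ ∀ k f, Alg Ω Y (Fin k) f → f ∈ A k)

end

end Pool.Agent.T9h37.CT
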