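import Pool.Agent.N202.QR.PrimeRel
import Pool.Agent.T9h37.CT.FdDefs

/-!
# Imaginary quadratic subfields, and the orbits of normal subgroups on the embeddings of a CM field
-/

set_option autoImplicit false
set_option linter.unusedSectionVars false
set_option linter.unusedVariables false

namespace Pool.Agent.T9h37.CT

open NumberField Pool.Agent.H204R3.CM Pool.Agent.W547.KB Pool.Agent.W547.LD Pool.Agent.W495.TA Module
  Pool.Agent.N202.QR

noncomputable section

/-- A half system of a `G`-set defined by an orbit of a normal subgroup. -/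
theorem prime_orbits {G X : Type} [Group G] [Finite G] [Fintype X] [MulAction G X] {c : G}
    (hset : Setting G X c) {g : ℕ} (hg : g.Prime) (hg2 : g ≠ 2) (hcard : Fintype.card X = 2 * g)
    (N : Subgroup G) [hNn : N.Normal] (m : ℕ) (hm : ¬ g ∣ m) (hN : ∀ τ : G, τ ^ m ∈ N) (w : X)
    (hw : ∀ n ∈ N, n • w ≠ c • w) :
    ∃ a : X → ℤ, a w = 1 ∧ (∀ x, a (c • x) = -a x) ∧
      ∀ σ : G, (∀ x, a (σ • x) = a x) ∨ ∀ x, a (σ • x) = -a x := by
  classical
  let O : Set X := {x | ∃ n ∈ N, n • w = x}
  have hwO : w ∈ O := ⟨1, N.one_mem, one_smul _ _⟩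
  have hcc : ∀ x : X, c • c • x = x := fun x => by rw [← mul_smul, hset.sq, one_smul]
  have hcn : ∀ (n : G) (x : X), c • n • x = n • c • x := fun n x => by
    rw [← mul_smul, hset.comm, mul_smul]
  have hOc : ∀ x ∈ O, c • x ∉ O := by
    rintro x ⟨n, hn, rfl⟩ ⟨n', hn', h⟩
    refine hw (n⁻¹ * n') (N.mul_mem (N.inv_mem hn) hn') ?_
    rw [mul_smul, h, hcn, ← mul_smul, inv_mul_cancel, one_smul]
  -- the orbit is large
  obtain ⟨τ, hτg, hτ⟩ := exists_cyc hset hg hg2 hcard
  have hfix : ∀ (i : ℕ) (x : X), τ ^ i • x = x → g ∣ i := by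
    intro i x h
    by_contra hi
    have hcop : Nat.Coprime i g := Nat.Coprime.symm ((Nat.Prime.coprime_iff_not_dvd hg).2 hi)
    obtain ⟨k, -, hk⟩ := Nat.exists_mul_mod_eq_one_of_coprime hcop hg.one_lt
    have h1 : ∀ k : ℕ, τ ^ (i * k) • x = x := by
      intro k
      induction k with
      | zero => simp
      | succ k ih => rw [mul_add, mul_one, pow_add, mul_smul, h, ih]
    have h2 : τ ^ (i * k) • x = τ ^ 1 • x := by
      refine pow_smul_eq hτg ?_ x
      rw [Nat.ModEq, hk, Nat.mod_eq_of_lt hg.one_lt]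
    rw [h1, pow_one] at h2
    exact hτ x h2.symm
  have hinj : Function.Injective fun k : Fin g => τ ^ (m * (k : ℕ)) • w := by
    have key : ∀ k k' : Fin g, (k : ℕ) ≤ k' → τ ^ (m * (k : ℕ)) • w = τ ^ (m * (k' : ℕ)) • w →
        k = k' := by
      intro k k' hkk h
      have h1 : τ ^ (m * ((k' : ℕ) - k)) • w = w := by
        have h2 : m * (k' : ℕ) = m * k + m * ((k' : ℕ) - k) := by
          rw [← mul_add, Nat.add_sub_cancel' hkk]
        rw [h2, pow_add, mul_smul] at h
        exact (smul_left_cancel _ h).symm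
      have h2 := hfix _ _ h1
      have h3 : g ∣ (k' : ℕ) - k := (hg.dvd_mul.1 h2).resolve_left hm
      have h4 : (k' : ℕ) - k = 0 := Nat.eq_zero_of_dvd_of_lt h3 (by omega)
      exact Fin.ext (by omega)
    intro k k' h
    rcases le_total (k : ℕ) k' with h1 | h1
    · exact key k k' h1 h
    · exact (key k' k h1 h.symm).symm
  have hmemO : ∀ k : Fin g, τ ^ (m * (k : ℕ)) • w ∈ O := fun k =>
    ⟨_, by rw [pow_mul]; exact N.pow_mem (hN τ) _, rfl⟩
  have hcardO : g ≤ (Finset.univ.filter (· ∈ O)).card := by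
    have h1 := Finset.card_le_card_of_injOn (s := (Finset.univ : Finset (Fin g)))
      (t := Finset.univ.filter (· ∈ O)) (fun k : Fin g => τ ^ (m * (k : ℕ)) • w)
      (fun k _ => by
        simp only [Finset.coe_filter, Finset.mem_univ, true_and, Set.mem_setOf_eq]
        exact hmemO k) (hinj.injOn)
    rwa [Finset.card_univ, Fintype.card_fin] at h1
  have hOc' : ∀ x, x ∉ O → c • x ∈ O := by
    intro x hx
    by_contra hcx
    -- three disjoint sets
    have hdisj : Disjoint (Finset.univ.filter (· ∈ O)) (Finset.univ.filter fun y => c • y ∈ O) := by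
      rw [Finset.disjoint_left]
      intro y hy hy'
      simp only [Finset.mem_filter, Finset.mem_univ, true_and] at hy hy'
      exact hOc y hy hy'
    have hcard2 : (Finset.univ.filter fun y => c • y ∈ O).card =
        (Finset.univ.filter (· ∈ O)).card := by
      refine Finset.card_bij (fun y _ => c • y) (fun y hy => ?_) (fun y _ y' _ h => ?_)
        fun y hy => ?_
      · simpa using hy
      · exact smul_left_cancel c h
      · refine ⟨c • y, ?_, hcc y⟩
        simp only [Finset.mem_filter, Finset.mem_univ, true_and] at hy ⊢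
        rw [hcc]
        exact hy
    have hlt : (Finset.univ.filter (· ∈ O) ∪ Finset.univ.filter fun y => c • y ∈ O) ⊂
        (Finset.univ : Finset X) := by
      rw [Finset.ssubset_univ_iff]
      intro h
      have h1 : x ∈ (Finset.univ : Finset X) := Finset.mem_univ x
      rw [← h] at h1
      simp only [Finset.mem_union, Finset.mem_filter, Finset.mem_univ, true_and] at h1
      rcases h1 with h1 | h1
      · exact hx h1
      · exact hcx h1
    have h2 := Finset.card_lt_card hlt
    rw [Finset.card_union_of_disjoint hdisj, hcard2, Finset.card_univ, hcard] at h2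
    omega
  let a : X → ℤ := fun x => if x ∈ O then 1 else -1
  have ha1 : ∀ x ∈ O, a x = 1 := fun x hx => if_pos hx
  have ha2 : ∀ x, x ∉ O → a x = -1 := fun x hx => if_neg hx
  have hconjO : ∀ (σ : G) (x : X), x ∈ O → ∃ n ∈ N, σ • x = n • σ • w := by
    rintro σ x ⟨n, hn, rfl⟩
    refine ⟨σ * n * σ⁻¹, hNn.conj_mem n hn σ, ?_⟩
    rw [← mul_smul, ← mul_smul, inv_mul_cancel_right]
  refine ⟨a, ha1 w hwO, fun x => ?_, fun σ => ?_⟩
  · by_cases hx : x ∈ O
    · rw [ha1 x hx, ha2 _ (hOc x hx)]
    · rw [ha2 x hx, ha1 _ (hOc' x hx)]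
      norm_num
  · have hmemN : ∀ (n : G) (x : X), n ∈ N → x ∈ O → n • x ∈ O := by
      rintro n x hn ⟨n', hn', rfl⟩
      exact ⟨n * n', N.mul_mem hn hn', mul_smul _ _ _⟩
    by_cases hσ : σ • w ∈ O
    · left
      have h1 : ∀ x ∈ O, σ • x ∈ O := by
        intro x hx
        obtain ⟨n, hn, h⟩ := hconjO σ x hx
        rw [h]
        exact hmemN n _ hn hσ
      intro x
      by_cases hx : x ∈ O
      · rw [ha1 x hx, ha1 _ (h1 x hx)]
      · rw [ha2 x hx, ha2]
        intro h
        have h2 := hOc _ h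
        rw [hcn] at h2
        exact h2 (h1 _ (hOc' x hx))
    · right
      have hσ' := hOc' _ hσ
      have h1 : ∀ x ∈ O, σ • x ∉ O := by
        intro x hx h
        obtain ⟨n, hn, h2⟩ := hconjO σ x hx
        refine hOc _ h ?_
        rw [h2, hcn]
        exact hmemN n _ hn hσ'
      intro x
      by_cases hx : x ∈ O
      · rw [ha1 x hx, ha2 _ (h1 x hx)]
      · rw [ha2 x hx, ha1]
        · norm_num
        · have h2 := h1 _ (hOc' x hx)
          rw [← hcn] at h2
          have h3 := hOc' _ h2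
          rwa [hcc] at h3

section quad

variable {L : Type} [Field L] [NumberField L] [IsCMField L] [IsGalois ℚ L]

/-- A semi-invariant odd function on the embeddings of `E` defines an imaginary quadratic subfield of
`E`. -/
theorem exists_quad (j : L →+* ℂ) {E : Type} [Field E] [NumberField E] (a : (E →+* L) → ℤ)
    (w0 : E →+* L) (h0 : a w0 ≠ 0) (hodd : ∀ w, a (cc L • w) = -a w)
    (hpm : ∀ σ : L ≃ₐ[ℚ] L, (∀ w, a (σ • w) = a w) ∨ ∀ w, a (σ • w) = -a w) :
    ∃ (K : Type) (_ : Field K) (_ : NumberField K) (_ : IsCMField K), finrank ℚ K = 2 ∧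
      Nonempty (K →+* E) := by
  classical
  let N : Subgroup (L ≃ₐ[ℚ] L) :=
    { carrier := {σ | ∀ w, a (σ • w) = a w}
      one_mem' := fun w => by rw [one_smul]
      mul_mem' := by
        intro σ τ h1 h2 w
        have h1' : ∀ w, a (σ • w) = a w := h1
        have h2' : ∀ w, a (τ • w) = a w := h2
        rw [mul_smul, h1', h2']
      inv_mem' := by
        intro σ h1 w
        have h1' : ∀ w, a (σ • w) = a w := h1
        rw [← h1' (σ⁻¹ • w), ← mul_smul, mul_inv_cancel, one_smul] }
  have hN : IsImag N := by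
    constructor
    · intro h
      have h1 : a (cc L • w0) = a w0 := h w0
      rw [hodd] at h1
      omega
    · intro τ hτ w
      have h1 : ∀ w, a (τ • w) = -a w := (hpm τ).resolve_left hτ
      rw [mul_smul, hodd, h1, neg_neg]
  have hS : IsHalf (N : Set (L ≃ₐ[ℚ] L)) := by
    intro σ
    change σ ∈ N ↔ ¬ (cc L * σ ∈ N)
    rw [hN.mul_mem_iff j]
    have := hN.1
    tauto
  have hstab : ∀ τ, τ ∈ stab (N : Set (L ≃ₐ[ℚ] L)) ↔ τ ∈ N := by
    intro τ
    rw [mem_stab]
    constructor
    · intro h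
      have h1 : (1 : L ≃ₐ[ℚ] L) ∈ tr τ (N : Set (L ≃ₐ[ℚ] L)) := by
        rw [h]
        exact N.one_mem
      rw [mem_tr, one_mul] at h1
      exact h1
    · intro h
      ext σ
      rw [mem_tr]
      exact N.mul_mem_cancel_right h
  have hCM : IsCMField (fld (N : Set (L ≃ₐ[ℚ] L))) := isCM_fld j hS
  let κ : fld (N : Set (L ≃ₐ[ℚ] L)) →+* ℂ := j.comp (emb (N : Set (L ≃ₐ[ℚ] L)) 1)
  have htwo : finrank ℚ (fld (N : Set (L ≃ₐ[ℚ] L))) = 2 := by
    have h1 : ({κ, ComplexEmbedding.conjugate κ} :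
        Finset (fld (N : Set (L ≃ₐ[ℚ] L)) →+* ℂ)) = Finset.univ := by
      refine Finset.eq_univ_iff_forall.2 fun ψ => ?_
      rw [Finset.mem_insert, Finset.mem_singleton]
      obtain ⟨τ, rfl⟩ := exists_embC j (N : Set (L ≃ₐ[ℚ] L)) ψ
      by_cases hτ : τ ∈ N
      · left
        have h2 : emb (N : Set (L ≃ₐ[ℚ] L)) τ = emb (N : Set (L ≃ₐ[ℚ] L)) 1 := by
          rw [emb_eq_iff, tr_one]
          exact (hstab τ).2 hτ
        rw [h2]
      · right
        have h2 : emb (N : Set (L ≃ₐ[ℚ] L)) (cc L * τ) = emb (N : Set (L ≃ₐ[ℚ] L)) 1 := by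
          rw [emb_eq_iff, tr_one]
          exact (hstab _).2 (hN.2 τ hτ)
        change _ = ComplexEmbedding.conjugate (j.comp (emb (N : Set (L ≃ₐ[ℚ] L)) 1))
        rw [← h2, ← conj_emb]
        exact (star_star _).symm
    rw [← Embeddings.card (fld (N : Set (L ≃ₐ[ℚ] L))) ℂ, ← Finset.card_univ, ← h1,
      Finset.card_pair (Pool.Agent.TH117.BL.conj_ne κ).symm]
  refine ⟨fld (N : Set (L ≃ₐ[ℚ] L)), inferInstance, inferInstance, hCM, htwo, ?_⟩
  -- the image of `E`
  let f : E →ₐ[ℚ] L := RingHom.equivRatAlgHom E L w0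
  have hle : fld (N : Set (L ≃ₐ[ℚ] L)) ≤ f.fieldRange := by
    intro x hx
    have h1 : f.fieldRange = IntermediateField.fixedField f.fieldRange.fixingSubgroup :=
      (IsGalois.fixedField_fixingSubgroup f.fieldRange).symm
    rw [h1, IntermediateField.mem_fixedField_iff]
    intro τ hτ
    rw [IntermediateField.mem_fixingSubgroup_iff] at hτ
    have h2 : τ • w0 = w0 := by
      ext z
      exact hτ (w0 z) ⟨z, rfl⟩
    have h3 : τ ∈ N := by
      rcases hpm τ with h | h
      · exact h
      · exfalso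
        have h4 := h w0
        rw [h2] at h4
        omega
    exact (mem_fld _ x).1 hx τ ((hstab τ).2 h3)
  exact ⟨((AlgEquiv.ofInjectiveField f).symm : f.range →+* E).comp
    ((algebraMap (fld (N : Set (L ≃ₐ[ℚ] L))) L).codRestrict f.range fun x => hle x.2)⟩

end quad

end

end Pool.Agent.T9h37.CT
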