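import Pool.Agent.T9h37.CT.Main

/-!
# The crystalline Tate conjecture for products: the statement for bundled data
-/

set_option autoImplicit false
set_option linter.unusedSectionVars false
set_option linter.unusedVariables false

namespace Pool.Agent.T9h37.CT

open Module Pool.Agent.W547.KB Pool.Agent.W495.TA Pool.Agent.R937.VS Pool.Agent.TH117.F5
  Pool.Agent.R299.CRY Pool.Agent.Y137.SF Pool.Agent.Y137.GN
open scoped TensorProduct

noncomputable section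

variable {p : ℕ} [Fact p.Prime] {ν : PadicAlgCl p ≃+* ℂ}

/-- Elements of the span of products are finite sums. -/
theorem sum_of_span {Y : RedAV p ν} {Ω M : Type} [Field Ω] [CharZero Ω] [AddCommGroup M]
    [Module Ω M] {κ : Type} (b : ℕ) (A : Set ((TM Ω Y) [⋀^κ]→ₗ[Ω] Ω)) (B : Set M)
    (G : (TM Ω Y) [⋀^κ]→ₗ[Ω] M) (hG : G ∈ Submodule.span Ω {h | IsProdOf b A B h}) :
    ∃ (n : ℕ) (a : Fin n → Ω) (f : Fin n → (TM Ω Y) [⋀^κ]→ₗ[Ω] Ω) (w : Fin n → M),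
      (∀ i, Even b ∧ f i ∈ A ∧ w i ∈ B) ∧ ∀ v, G v = ∑ i, (a i * f i v) • w i := by
  induction hG using Submodule.span_induction with
  | mem h hh =>
    obtain ⟨hb, f, hf, w, hw, hv⟩ := hh
    refine ⟨1, fun _ => 1, fun _ => f, fun _ => w, fun _ => ⟨hb, hf, hw⟩, fun v => ?_⟩
    rw [hv, Fin.sum_univ_one, one_mul]
  | zero =>
    refine ⟨0, Fin.elim0, fun i => i.elim0, fun i => i.elim0, fun i => i.elim0, fun v => ?_⟩
    rw [Fin.sum_univ_zero]
    rfl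
  | add x y _ _ hx hy =>
    obtain ⟨n, a, f, w, h1, h2⟩ := hx
    obtain ⟨n', a', f', w', h1', h2'⟩ := hy
    refine ⟨n + n', Fin.append a a', Fin.append f f', Fin.append w w', fun i => ?_, fun v => ?_⟩
    · refine Fin.addCases (fun i => ?_) (fun i => ?_) i
      · rw [Fin.append_left, Fin.append_left]
        exact h1 i
      · rw [Fin.append_right, Fin.append_right]
        exact h1' i
    · rw [AlternatingMap.add_apply, h2, h2', Fin.sum_univ_add]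
      simp only [Fin.append_left, Fin.append_right]
  | smul c x _ hx =>
    obtain ⟨n, a, f, w, h1, h2⟩ := hx
    refine ⟨n, fun i => c * a i, f, w, h1, fun v => ?_⟩
    rw [AlternatingMap.smul_apply, h2, Finset.smul_sum]
    refine Finset.sum_congr rfl fun i _ => ?_
    rw [smul_smul, mul_assoc]

variable {K Ω D : Type} [Field K] [CharZero K] [Field Ω] [IsAlgClosed Ω] [CharZero Ω] [Algebra K Ω]
  [AddCommGroup D] [Module K D] [FiniteDimensional K D] {M : ℕ → Type} [∀ b, AddCommGroup (M b)]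
  [∀ b, Module K (M b)] [∀ b, FiniteDimensional K (M b)]

theorem isCrystalline_of {Y : RedAV p ν} {s : ℕ} {F₀ : D →ₗ[K] D} {e : (Ω ⊗[K] D) ≃ₗ[Ω] TM Ω Y}
    (h : IsFirst Y s F₀ e) : IsCrystalline Y s F₀ e := by
  refine ⟨fun v => ?_⟩
  induction v using TensorProduct.induction_on with
  | zero => rw [map_zero, map_zero, map_zero]
  | tmul a x =>
    have h1 : (a ⊗ₜ[K] x : Ω ⊗[K] D) = a • ((1 : Ω) ⊗ₜ[K] x) := by
      rw [TensorProduct.smul_tmul', smul_eq_mul, mul_one]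
    rw [h1, map_smul, map_smul, map_smul, map_smul, LinearMap.baseChange_tmul, h x]
    rfl
  | add x y hx hy => rw [map_add, map_add, map_add, map_add, hx, hy]

/-- **The crystalline Tate conjecture for `Y × V`.** -/
theorem bundled (Y : RedAV p ν) (s : ℕ) (hs : 0 < s) (σ : K ≃+* K) (Ψ : D → D) (F₀ : D →ₗ[K] D)
    (e : (Ω ⊗[K] D) ≃ₗ[Ω] TM Ω Y) (hΨ : IsDualFrob (Y.a * s) σ Ψ F₀) (he : IsFirst Y s F₀ e)
    (Φ : ∀ b, M b → M b) (φ : ∀ b, M b →ₗ[K] M b) (hΦ : ∀ b, IsFrob (Y.a * s) σ (Φ b) (φ b))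
    (hsep : AllSeparated Ω Y (Y.a * s) φ)
    (A : ∀ k, Set ((TM Ω Y) [⋀^Fin k]→ₗ[Ω] Ω)) (hA : KnownY Y A)
    (B : ∀ b, Set (Ω ⊗[K] M b)) (r : ℕ) (hr : 0 < r) (hB : TateV p (Y.a * s) φ B r) (c : ℕ)
    (Cyc : Set (CohYV K D M c)) (hC : ∀ z ∈ Cyc, IsFixedYV p Ψ Φ z)
    (hZ : HasProducts (Y.a * s) e F₀ φ A B Cyc) :
    (∀ f : CohYV K D M c, IsTateYV p (Y.a * s) F₀ φ r f →
      f ∈ Submodule.span K Cyc ∧ IsTateYV p (Y.a * s) F₀ φ 1 f) ∧
      ∀ f : CohYV K D M c, IsFixedYV p Ψ Φ f → IsPadicComb σ Cyc f := by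
  refine crys_main (p := p) (Y := Y) (Ω := Ω) (M₀ := M) s hs σ Ψ F₀
    ⟨hΨ.pow_sigma, hΨ.add, hΨ.smul, hΨ.pow⟩ e (isCrystalline_of he) Φ φ
    (fun b => ⟨(hΦ b).add, (hΦ b).smul, (hΦ b).pow⟩) hsep A hA B r hr hB c Cyc hC ?_
  intro r g hg hg'
  refine hZ r g hg fun b => ?_
  obtain ⟨G, hG, h1⟩ := hg' b
  obtain ⟨n, a, f, w, h2, h3⟩ := sum_of_span _ _ _ G h1
  refine ⟨n, a, f, w, h2, fun v => ?_⟩
  rw [← hG v]
  exact h3 _

end

end Pool.Agent.T9h37.CT
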