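import Pool.Agent.T9h37.CT.Sep
import Pool.Agent.R299.CRY.Main

/-!
# Crystalline Tate classes on the product of an abelian variety and an arbitrary variety
-/

set_option autoImplicit false
set_option linter.unusedSectionVars false
set_option linter.unusedVariables false

namespace Pool.Agent.T9h37.CT

open Module Pool.Agent.W547.KB Pool.Agent.W495.TA Pool.Agent.R937.VS Pool.Agent.TH117.F5
  Pool.Agent.R299.CRY
open scoped TensorProduct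

noncomputable section

section defs

variable {p : ℕ} [Fact p.Prime] {ν : PadicAlgCl p ≃+* ℂ} {K₀ Ω V₀ : Type} [Field K₀] [CharZero K₀]
  [Field Ω] [CharZero Ω] [Algebra K₀ Ω] [AddCommGroup V₀] [Module K₀ V₀]

/-- The crystalline Frobenius endomorphism `Φ` of a crystalline cohomology group `M₀`, over the field with
`p ^ N` elements: it is semilinear with respect to the Frobenius automorphism `σ` of the fraction field
`K₀` of the ring of Witt vectors, and its `N`-th power is the linear Frobenius endomorphism `φ₀`. -/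
structure IsCrysFrobenius {M₀ : Type} [AddCommGroup M₀] [Module K₀ M₀] (N : ℕ) (σ : K₀ ≃+* K₀)
    (Φ : M₀ → M₀) (φ₀ : M₀ →ₗ[K₀] M₀) : Prop where
  add : ∀ x y, Φ (x + y) = Φ x + Φ y
  smul : ∀ (c : K₀) x, Φ (c • x) = σ c • Φ x
  pow : ∀ x, (Φ^[N]) x = φ₀ x

/-- The crystalline cohomology group of degree `2 c` of `Y × V`: the sum of the Künneth components
`H^{2c - b}(Y) ⊗ H^b(V)`, `0 ≤ b ≤ 2 c`, where `V₀` is the dual space of `H^1(Y)` and `M₀ b = H^b(V)`; the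
Künneth components are the spaces of the alternating maps in `2 c - b` variables from `V₀` to `M₀ b`. -/
abbrev Coh (K₀ V₀ : Type) [Field K₀] [AddCommGroup V₀] [Module K₀ V₀] (M₀ : ℕ → Type)
    [∀ b, AddCommGroup (M₀ b)] [∀ b, Module K₀ (M₀ b)] (c : ℕ) : Type :=
  ∀ b : Fin (2 * c + 1), V₀ [⋀^Fin (2 * c - b)]→ₗ[K₀] M₀ b

variable {M₀ : ℕ → Type} [∀ b, AddCommGroup (M₀ b)] [∀ b, Module K₀ (M₀ b)]

/-- The linear Frobenius endomorphism of `Y × V` over the field with `Q = p ^ N` elements acts on the class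
`f` as the multiplication by `Q ^ c` (`r = 1`), or `f` belongs to the generalised eigenspace, with
exponent `r`. On the Künneth components this endomorphism is given by the linear Frobenius
endomorphisms `F₀` of `V₀` and `φ₀ b` of `H^b(V)`. -/
def IsTateCoh (p N : ℕ) (F₀ : V₀ →ₗ[K₀] V₀) (φ₀ : ∀ b, M₀ b →ₗ[K₀] M₀ b) (c r : ℕ)
    (f : Coh K₀ V₀ M₀ c) : Prop :=
  ∀ b : Fin (2 * c + 1),
    IsGen (twist F₀ (φ₀ b) (Fin (2 * c - b))) ((p : K₀) ^ (N * c)) r (f b)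

/-- The semilinear crystalline Frobenius endomorphism of `Y × V` multiplies the class `f` by `p ^ c`. -/
def IsFixedCoh (p : ℕ) (Ψ : V₀ → V₀) (Φ : ∀ b, M₀ b → M₀ b) (c : ℕ) (f : Coh K₀ V₀ M₀ c) : Prop :=
  ∀ (b : Fin (2 * c + 1)) (v : Fin (2 * c - b) → V₀),
    Φ b (f b (fun k => Ψ (v k))) = (p : K₀) ^ c • f b v

/-- The class `G`, over the field `Ω`, is the extension of scalars of the class `g` in the Künneth component
`H^κ(Y) ⊗ H^b(V)`. -/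
def Extends {Y : RedAV p ν} (e : (Ω ⊗[K₀] V₀) ≃ₗ[Ω] TM Ω Y) {N₀ : Type} [AddCommGroup N₀]
    [Module K₀ N₀] {κ : Type} (g : V₀ [⋀^κ]→ₗ[K₀] N₀) (G : (TM Ω Y) [⋀^κ]→ₗ[Ω] (Ω ⊗[K₀] N₀)) :
    Prop :=
  ∀ u : κ → V₀, G (fun k => e ((1 : Ω) ⊗ₜ[K₀] u k)) = (1 : Ω) ⊗ₜ[K₀] g u

/-- The class `h` in `H^κ(Y) ⊗ H^b(V)` is a product of elements of the spaces `A` and `B`, and `b` is
even. -/
def IsProdOf {Y : RedAV p ν} {M : Type} [AddCommGroup M] [Module Ω M] {κ : Type} (b : ℕ)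
    (A : Set ((TM Ω Y) [⋀^κ]→ₗ[Ω] Ω)) (B : Set M) (h : (TM Ω Y) [⋀^κ]→ₗ[Ω] M) :
    Prop :=
  Even b ∧ ∃ f ∈ A, ∃ w ∈ B, ∀ v, h v = f v • w

/-- The space `Z` of classes of degree `2 c` on `Y × V` contains all classes which are Tate classes (or
generalised Tate classes) and all of whose Künneth components become, over `Ω`, linear combinations of
products of elements of the spaces `A k` (the classes of the algebraic cycles of dimension `k / 2` on `Y`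
over finite extensions) and `B b` (those on `V`). -/
def ContainsProducts (N : ℕ) {Y : RedAV p ν} (e : (Ω ⊗[K₀] V₀) ≃ₗ[Ω] TM Ω Y)
    (F₀ : V₀ →ₗ[K₀] V₀) (φ₀ : ∀ b, M₀ b →ₗ[K₀] M₀ b)
    (A : ∀ k, Set ((TM Ω Y) [⋀^Fin k]→ₗ[Ω] Ω)) (B : ∀ b, Set (Ω ⊗[K₀] M₀ b))
    (c : ℕ) (Z : Submodule K₀ (Coh K₀ V₀ M₀ c)) : Prop :=
  ∀ (r : ℕ) (g : Coh K₀ V₀ M₀ c), IsTateCoh p N F₀ φ₀ c r g →
    (∀ b : Fin (2 * c + 1), ∃ G, Extends e (g b) G ∧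
      G ∈ Submodule.span Ω {h | IsProdOf b (A (2 * c - b)) (B b) h}) → g ∈ Z

/-- The crystalline Tate conjecture for the abelian variety `Y`, over all finite extensions of the ground
field: all Tate classes belong to the spaces `A k`. -/
def TateAV (Y : RedAV p ν) (A : ∀ k, Set ((TM Ω Y) [⋀^Fin k]→ₗ[Ω] Ω)) : Prop :=
  ∀ (s m : ℕ) (f : (TM Ω Y) [⋀^Fin (2 * m)]→ₗ[Ω] Ω), 0 < s → IsTateClass Ω Y s m f →
    f ∈ A (2 * m)

/-- The crystalline Tate conjecture for `V`, over all finite extensions of the field with `p ^ N`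
elements (with exponent `r = 1`; for all `r` this includes the semisimplicity at the eigenvalue `Q ^ d`): all
(generalised) Tate classes in `H^{2 d}(V)` belong to the space `B (2 d)`. -/
def TateVar (p N r : ℕ) (φ₀ : ∀ b, M₀ b →ₗ[K₀] M₀ b) (B : ∀ b, Set (Ω ⊗[K₀] M₀ b)) :
    Prop :=
  ∀ (d t : ℕ), 0 < t → ∀ w : Ω ⊗[K₀] M₀ (2 * d),
    IsGen (pw ((φ₀ (2 * d)).baseChange Ω) t) ((p : Ω) ^ (N * t * d)) r w → w ∈ B (2 * d)

end defs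

section ext

variable {p : ℕ} [Fact p.Prime] {ν : PadicAlgCl p ≃+* ℂ} {K₀ Ω V₀ : Type} [Field K₀] [CharZero K₀]
  [Field Ω] [CharZero Ω] [Algebra K₀ Ω] [AddCommGroup V₀] [Module K₀ V₀] [FiniteDimensional K₀ V₀]
  {N₀ : Type} [AddCommGroup N₀] [Module K₀ N₀] [FiniteDimensional K₀ N₀]
  {Y : RedAV p ν} (e : (Ω ⊗[K₀] V₀) ≃ₗ[Ω] TM Ω Y)

theorem exists_ext {κ : Type} [Finite κ] (g : V₀ [⋀^κ]→ₗ[K₀] N₀) : ∃ G, Extends e g G := by
  classical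
  let b := Module.finBasis K₀ N₀
  have h1 : ∀ i, ∃ G : (Ω ⊗[K₀] V₀) [⋀^κ]→ₗ[Ω] Ω, ∀ u : κ → V₀,
      G (fun k => (1 : Ω) ⊗ₜ[K₀] u k) = algebraMap K₀ Ω (b.coord i (g u)) := fun i =>
    Pool.Agent.W547.UB.exists_baseChange (K := Ω) ((b.coord i).compAlternatingMap g)
  choose G hG using h1
  let H : (Ω ⊗[K₀] V₀) [⋀^κ]→ₗ[Ω] (Ω ⊗[K₀] N₀) :=
    ∑ i, (LinearMap.toSpanSingleton Ω (Ω ⊗[K₀] N₀) ((1 : Ω) ⊗ₜ[K₀] b i)).compAlternatingMap (G i)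
  have hH : ∀ v, H v = ∑ i, G i v • ((1 : Ω) ⊗ₜ[K₀] b i) := by
    intro v
    let E : ((Ω ⊗[K₀] V₀) [⋀^κ]→ₗ[Ω] (Ω ⊗[K₀] N₀)) →+ (Ω ⊗[K₀] N₀) :=
      { toFun := fun f => f v, map_zero' := rfl, map_add' := fun _ _ => rfl }
    exact map_sum E _ _
  refine ⟨H.compLinearMap (e.symm : TM Ω Y →ₗ[Ω] Ω ⊗[K₀] V₀), fun u => ?_⟩
  have h2 : (H.compLinearMap (e.symm : TM Ω Y →ₗ[Ω] Ω ⊗[K₀] V₀))
      (fun k => e ((1 : Ω) ⊗ₜ[K₀] u k)) = H fun k => (1 : Ω) ⊗ₜ[K₀] u k := by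
    change H (fun k => e.symm (e ((1 : Ω) ⊗ₜ[K₀] u k))) = _
    congr 1
    funext k
    exact e.symm_apply_apply _
  rw [h2, hH]
  conv_rhs => rw [← b.sum_repr (g u), TensorProduct.tmul_sum]
  refine Finset.sum_congr rfl fun i _ => ?_
  rw [hG, TensorProduct.smul_tmul', TensorProduct.tmul_smul, TensorProduct.smul_tmul',
    smul_eq_mul, mul_one, Algebra.smul_def, mul_one]
  rfl

theorem ext_unique {κ : Type} [Finite κ] {g : V₀ [⋀^κ]→ₗ[K₀] N₀}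
    {G G' : (TM Ω Y) [⋀^κ]→ₗ[Ω] (Ω ⊗[K₀] N₀)} (h : Extends e g G) (h' : Extends e g G') :
    G = G' := by
  classical
  let b : Basis _ Ω (Ω ⊗[K₀] N₀) := (Module.finBasis K₀ N₀).baseChange Ω
  have h1 : ∀ i, ((b.coord i).compAlternatingMap G).compLinearMap (e : Ω ⊗[K₀] V₀ →ₗ[Ω] TM Ω Y) =
      ((b.coord i).compAlternatingMap G').compLinearMap (e : Ω ⊗[K₀] V₀ →ₗ[Ω] TM Ω Y) := by
    intro i
    apply Pool.Agent.W547.UB.eq_of_restr₀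
    intro u
    change b.coord i (G fun k => e ((1 : Ω) ⊗ₜ[K₀] u k)) =
      b.coord i (G' fun k => e ((1 : Ω) ⊗ₜ[K₀] u k))
    rw [h u, h' u]
  ext v
  apply b.ext_elem
  intro i
  have h2 := DFunLike.congr_fun (h1 i) (fun k => e.symm (v k))
  change b.coord i (G fun k => e (e.symm (v k))) = b.coord i (G' fun k => e (e.symm (v k))) at h2
  have h3 : (fun k => e (e.symm (v k))) = v := by
    funext k
    exact e.apply_symm_apply _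
  rw [h3] at h2
  exact h2

theorem ext_zero_of {κ : Type} {g : V₀ [⋀^κ]→ₗ[K₀] N₀} (h : Extends e g 0) : g = 0 := by
  ext u
  have h1 := h u
  have h2 : (1 : Ω) ⊗ₜ[K₀] g u = (0 : Ω ⊗[K₀] N₀) := by
    rw [← h1]
    rfl
  have hinj : Function.Injective (fun x : N₀ => (1 : Ω) ⊗ₜ[K₀] x) := by
    have h3 := Module.Flat.rTensor_preserves_injective_linearMap (M := N₀)
      (Algebra.linearMap K₀ Ω) (algebraMap K₀ Ω).injective
    intro x y hxy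
    have h4 : (LinearMap.rTensor N₀ (Algebra.linearMap K₀ Ω)) ((1 : K₀) ⊗ₜ[K₀] x) =
        (LinearMap.rTensor N₀ (Algebra.linearMap K₀ Ω)) ((1 : K₀) ⊗ₜ[K₀] y) := by
      rw [LinearMap.rTensor_tmul, LinearMap.rTensor_tmul, Algebra.linearMap_apply, map_one]
      exact hxy
    have h5 := h3 h4
    have h6 := congrArg (TensorProduct.lid K₀ N₀) h5
    simpa using h6
  exact hinj (h2.trans (TensorProduct.tmul_zero _ _).symm)

end ext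

section gen

variable {p : ℕ} [Fact p.Prime] {ν : PadicAlgCl p ≃+* ℂ} {K₀ Ω V₀ : Type} [Field K₀] [CharZero K₀]
  [Field Ω] [CharZero Ω] [Algebra K₀ Ω] [AddCommGroup V₀] [Module K₀ V₀]
  {N₀ : Type} [AddCommGroup N₀] [Module K₀ N₀] {M : Type} [AddCommGroup M] [Module Ω M]
  {Y : RedAV p ν} (e : (Ω ⊗[K₀] V₀) ≃ₗ[Ω] TM Ω Y) (inc : N₀ →+ M)

/-- Extension of scalars with an arbitrary inclusion of the space of the coefficients. -/
def Ext {κ : Type} (g : V₀ [⋀^κ]→ₗ[K₀] N₀) (G : (TM Ω Y) [⋀^κ]→ₗ[Ω] M) : Prop :=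
  ∀ u : κ → V₀, G (fun k => e ((1 : Ω) ⊗ₜ[K₀] u k)) = inc (g u)

/-- The action of Frobenius. -/
theorem ext_twist {κ : Type} {s : ℕ} {F₀ : V₀ →ₗ[K₀] V₀}
    (he : IsCrystalline Y s F₀ e) (φ₀ : N₀ →ₗ[K₀] N₀) (φ : M →ₗ[Ω] M)
    (hφ : ∀ x, φ (inc x) = inc (φ₀ x)) {g : V₀ [⋀^κ]→ₗ[K₀] N₀}
    {G : (TM Ω Y) [⋀^κ]→ₗ[Ω] M} (h : Ext e inc g G) :
    Ext e inc (twist F₀ φ₀ κ g) (frobOn Y φ s 1 κ G) := by
  intro u
  change (pw φ 1) (G fun k => (F Ω Y ^ s) (e ((1 : Ω) ⊗ₜ[K₀] u k))) =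
    inc (φ₀ (g fun k => F₀ (u k)))
  have h1 : (fun k => (F Ω Y ^ s) (e ((1 : Ω) ⊗ₜ[K₀] u k))) =
      fun k => e ((1 : Ω) ⊗ₜ[K₀] F₀ (u k)) := by
    funext k
    rw [← he.comm, LinearMap.baseChange_tmul]
  rw [h1, h fun k => F₀ (u k)]
  unfold pw
  rw [pow_one, hφ]

theorem ext_gen {κ : Type} {s : ℕ} {F₀ : V₀ →ₗ[K₀] V₀}
    (he : IsCrystalline Y s F₀ e) (φ₀ : N₀ →ₗ[K₀] N₀) (φ : M →ₗ[Ω] M)
    (hφ : ∀ x, φ (inc x) = inc (φ₀ x)) (q : K₀) (hq : ∀ x, inc (q • x) = (algebraMap K₀ Ω q) • inc x)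
    (r : ℕ) : ∀ {g : V₀ [⋀^κ]→ₗ[K₀] N₀} {G : (TM Ω Y) [⋀^κ]→ₗ[Ω] M}, Ext e inc g G →
    Ext e inc (((twist F₀ φ₀ κ - q • 1) ^ r) g)
      (((frobOn Y φ s 1 κ - (algebraMap K₀ Ω q) • 1) ^ r) G) := by
  induction r with
  | zero => intro g G h; exact h
  | succ r ih =>
    intro g G h
    rw [pow_succ, pow_succ]
    refine ih (g := (twist F₀ φ₀ κ - q • 1) g)
      (G := (frobOn Y φ s 1 κ - (algebraMap K₀ Ω q) • 1) G) ?_
    intro u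
    change frobOn Y φ s 1 κ G (fun k => e ((1 : Ω) ⊗ₜ[K₀] u k)) -
      (algebraMap K₀ Ω q) • G (fun k => e ((1 : Ω) ⊗ₜ[K₀] u k)) =
      inc (twist F₀ φ₀ κ g u - q • g u)
    rw [ext_twist e inc he φ₀ φ hφ h u, h u, map_sub, hq]

end gen

section main

variable {p : ℕ} [Fact p.Prime] {ν : PadicAlgCl p ≃+* ℂ} {K₀ Ω V₀ : Type} [Field K₀] [CharZero K₀]
  [Field Ω] [IsAlgClosed Ω] [CharZero Ω] [Algebra K₀ Ω] [AddCommGroup V₀] [Module K₀ V₀]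
  [FiniteDimensional K₀ V₀]

/-- The inclusion of a space into its extension of scalars. -/
def incl (K₀ Ω : Type) [Field K₀] [Field Ω] [Algebra K₀ Ω] (N₀ : Type) [AddCommGroup N₀]
    [Module K₀ N₀] : N₀ →+ Ω ⊗[K₀] N₀ where
  toFun x := (1 : Ω) ⊗ₜ[K₀] x
  map_zero' := TensorProduct.tmul_zero _ _
  map_add' := TensorProduct.tmul_add _

theorem incl_smul {N₀ : Type} [AddCommGroup N₀] [Module K₀ N₀] (q : K₀) (x : N₀) :
    incl K₀ Ω N₀ (q • x) = (algebraMap K₀ Ω q) • incl K₀ Ω N₀ x := by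
  change (1 : Ω) ⊗ₜ[K₀] (q • x) = (algebraMap K₀ Ω q) • ((1 : Ω) ⊗ₜ[K₀] x)
  rw [TensorProduct.tmul_smul, TensorProduct.smul_tmul', TensorProduct.smul_tmul', Algebra.smul_def,
    smul_eq_mul]

/-- One Künneth component. -/
theorem one_comp {N₀ : Type} [AddCommGroup N₀] [Module K₀ N₀] [FiniteDimensional K₀ N₀]
    {Y : RedAV p ν} (s : ℕ) (hs : 0 < s) (e : (Ω ⊗[K₀] V₀) ≃ₗ[Ω] TM Ω Y)
    (F₀ : V₀ →ₗ[K₀] V₀) (he : IsCrystalline Y s F₀ e) (φ₀ : N₀ →ₗ[K₀] N₀) (b k r c : ℕ)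
    (hφ : ∀ α, End.HasEigenvalue (φ₀.baseChange Ω) α → IsSep Y (Y.a * s) b α)
    (A : Set ((TM Ω Y) [⋀^Fin k]→ₗ[Ω] Ω))
    (hA : ∀ s m f, 0 < s → k = 2 * m → IsTateClass Ω Y s m f → f ∈ A)
    (f : V₀ [⋀^Fin k]→ₗ[K₀] N₀) (hf : IsGen (twist F₀ φ₀ (Fin k)) ((p : K₀) ^ (Y.a * s * c)) r f) :
    ∃ G : (TM Ω Y) [⋀^Fin k]→ₗ[Ω] (Ω ⊗[K₀] N₀), Extends e f G ∧
      G ∈ Submodule.span Ω {h | IsProd Y (Y.a * s) b (φ₀.baseChange Ω) r A h} := by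
  obtain ⟨G, hG⟩ := exists_ext e f
  refine ⟨G, hG, ?_⟩
  have hgen := ext_gen e (incl K₀ Ω N₀) he φ₀ (φ₀.baseChange Ω)
    (fun x => LinearMap.baseChange_tmul ..) ((p : K₀) ^ (Y.a * s * c)) (incl_smul _) r
    (g := f) (G := G) hG
  have h0 : ((twist F₀ φ₀ (Fin k) - ((p : K₀) ^ (Y.a * s * c)) • 1) ^ r) f = 0 := hf
  rw [h0] at hgen
  have hzero : Extends e (0 : V₀ [⋀^Fin k]→ₗ[K₀] N₀)
      (0 : (TM Ω Y) [⋀^Fin k]→ₗ[Ω] (Ω ⊗[K₀] N₀)) := fun u =>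
    (TensorProduct.tmul_zero _ _).symm
  have h1 := ext_unique e hgen hzero
  have ha : 0 < Y.a * s := Nat.mul_pos Y.pos hs
  have hT : IsTate (Y.a * s) (φ₀.baseChange Ω) r Y G := by
    refine ⟨s, 1, c, hs, one_pos, by ring, ?_⟩
    have h2 : (algebraMap K₀ Ω) ((p : K₀) ^ (Y.a * s * c)) = (p : Ω) ^ (Y.a * s * 1 * c) := by
      rw [map_pow, map_natCast, mul_one]
    rw [h2] at h1
    exact h1
  exact main_gen Y (Y.a * s) b ha (φ₀.baseChange Ω) hφ r k A hA G hT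

variable {M₀ : ℕ → Type} [∀ b, AddCommGroup (M₀ b)] [∀ b, Module K₀ (M₀ b)]
  [∀ b, FiniteDimensional K₀ (M₀ b)] {Y : RedAV p ν}

/-- The crystalline Tate conjecture for `Y × V`, linear form. -/
theorem crys_lin (s : ℕ) (hs : 0 < s) (e : (Ω ⊗[K₀] V₀) ≃ₗ[Ω] TM Ω Y) (F₀ : V₀ →ₗ[K₀] V₀)
    (he : IsCrystalline Y s F₀ e) (φ₀ : ∀ b, M₀ b →ₗ[K₀] M₀ b)
    (hφ : ∀ b α, End.HasEigenvalue ((φ₀ b).baseChange Ω) α → IsSep Y (Y.a * s) b α)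
    (A : ∀ k, Set ((TM Ω Y) [⋀^Fin k]→ₗ[Ω] Ω)) (hA : TateAV Y A)
    (B : ∀ b, Set (Ω ⊗[K₀] M₀ b)) (r : ℕ) (hB : TateVar p (Y.a * s) r φ₀ B)
    (c : ℕ) (Z : Submodule K₀ (Coh K₀ V₀ M₀ c))
    (hZ : ContainsProducts (p := p) (Y.a * s) e F₀ φ₀ A B c Z) (f : Coh K₀ V₀ M₀ c)
    (hf : IsTateCoh p (Y.a * s) F₀ φ₀ c r f) : f ∈ Z := by
  refine hZ r f hf fun b => ?_
  obtain ⟨G, hG, h2⟩ := one_comp s hs e F₀ he (φ₀ b) b (2 * c - b) r c (hφ b)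
    (A (2 * c - b)) (fun s m f hs hm hf => by
      generalize 2 * (c : ℕ) - (b : ℕ) = k at f hf hm
      subst hm
      exact hA s m f hs hf) (f b) (hf b)
  refine ⟨G, hG, Submodule.span_mono ?_ h2⟩
  rintro h ⟨d, t, f', w, hb, ht, hf', hw, hv⟩
  have hw' : w ∈ B b := by
    have key : ∀ (b : ℕ) (w : Ω ⊗[K₀] M₀ b), b = 2 * d →
        IsGen (pw ((φ₀ b).baseChange Ω) t) ((p : Ω) ^ (Y.a * s * t * d)) r w → w ∈ B b := by
      intro b w hb hw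
      subst hb
      exact hB d t ht w hw
    exact key _ w hb hw
  exact ⟨by rw [hb]; exact even_two_mul d, f', hf', w, hw', hv⟩

end main

end

end Pool.Agent.T9h37.CT
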