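import Pool.Agent.N522.VT.Defs

/-!
# The crystalline cohomology of the product of an abelian variety and an arbitrary variety: definitions
-/

set_option autoImplicit false

namespace Pool.Agent.T9h37.CT

open Module Pool.Agent.W547.KB Pool.Agent.W495.TA Pool.Agent.R937.VS Pool.Agent.Y137.SF
  Pool.Agent.Y137.GN Pool.Agent.N522.VT
open Pool.Agent.Y137.TV (IsIndependent IsOddSupersingular)
open scoped TensorProduct

noncomputable section

section

variable {p : ℕ} [Fact p.Prime] {ν : PadicAlgCl p ≃+* ℂ}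

/-- The group generated by `1` and the slopes of the Frobenius eigenvalues of the abelian variety `Y`.
It is the group of the integers if `Y` is ordinary. -/
def SlopeGroup (Y : RedAV p ν) : AddSubgroup ℝ :=
  AddSubgroup.closure {x | x = 1 ∨ ∃ (i : Y.X.I) (ψ : (Y.X.factor i).E →+* ℂ),
    slope p ν Y.a (ψ (Y.π i)) = x}

/-- The eigenvalue `α` of the Frobenius endomorphism on `H^b(V)`, `V` a variety over the field with
`p ^ a` elements, is the image of a number `x` in a number field, all conjugates of `x` have the absolute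
value `p ^ (a b / 2)` (Deligne), and it is separated from the abelian variety `Y`: the slope of some
conjugate of `x` is not in the group of the slopes of `Y`; or `α` is not of supersingular type if `b`
is odd, and one of the following holds:

* all slopes of the conjugates of `x` are equal to `b / 2`;
* `α` is independent of `Y` (some automorphism fixes a power of `α` and induces the complex conjugation
  on the CM fields of the factors of `Y`);
* `Y` is a product of elliptic curves and abelian surfaces, and some slope of a conjugate of `x` is not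
  one half of an integer, or some number `|2 s - b|`, `s` a slope, is greater than two times the mean value
  of the squares of these numbers, or the Galois groups of the powers of `x` are large. -/
def IsSep {Ω : Type} [Field Ω] [CharZero Ω] (Y : RedAV p ν) (a b : ℕ) (α : Ω) : Prop :=
  ∃ (K : Type) (_ : Field K) (_ : NumberField K) (ι : K →+* Ω) (x : K), ι x = α ∧
    (∀ ψ : K →+* ℂ, ‖ψ x‖ ^ 2 = (p : ℝ) ^ (a * b)) ∧
    ((∃ ψ : K →+* ℂ, slope p ν a (ψ x) ∉ SlopeGroup Y) ∨
      ((Odd b → ¬ IsOddSupersingular ((p : Ω) ^ a) α) ∧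
        ((∀ ψ : K →+* ℂ, 2 * slope p ν a (ψ x) = b) ∨ IsIndependent Y α ∨
          ((∀ i, finrank ℚ (Y.X.factor i).E ≤ 4) ∧
            ((∃ ψ : K →+* ℂ, ∀ n : ℤ, 2 * slope p ν a (ψ x) ≠ n) ∨
            (∃ ψ : K →+* ℂ, 2 * ∑ ψ' : K →+* ℂ, (2 * slope p ν a (ψ' x) - b) ^ 2 <
              |2 * slope p ν a (ψ x) - b| * finrank ℚ K) ∨
            HasLargeGalois x)))))

end

section

variable {K Ω D : Type} [Field K] [CharZero K] [Field Ω] [CharZero Ω] [Algebra K Ω] [AddCommGroup D]
  [Module K D]

/-- The semilinear crystalline Frobenius endomorphism `Ψ` of the dual space `D` of the first crystalline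
cohomology group of an abelian variety over the field with `p ^ N` elements, and its `N`-th power, the
linear Frobenius endomorphism `F₀`; `σ` is the Frobenius automorphism of the fraction field `K` of the ring of
Witt vectors of the ground field. -/
structure IsDualFrob (N : ℕ) (σ : K ≃+* K) (Ψ : D → D) (F₀ : D →ₗ[K] D) : Prop where
  pow_sigma : ∀ x, (σ^[N]) x = x
  add : ∀ v w, Ψ (v + w) = Ψ v + Ψ w
  smul : ∀ (c : K) v, Ψ (c • v) = σ.symm c • Ψ v
  pow : ∀ v, (Ψ^[N]) v = F₀ v

/-- The semilinear crystalline Frobenius endomorphism `Φ` of a crystalline cohomology group `D` of a variety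
over the field with `p ^ N` elements, and its `N`-th power, the linear Frobenius endomorphism `φ`. -/
structure IsFrob (N : ℕ) (σ : K ≃+* K) (Φ : D → D) (φ : D →ₗ[K] D) : Prop where
  add : ∀ x y, Φ (x + y) = Φ x + Φ y
  smul : ∀ (c : K) x, Φ (c • x) = σ c • Φ x
  pow : ∀ x, (Φ^[N]) x = φ x

variable {p : ℕ} [Fact p.Prime] {ν : PadicAlgCl p ≃+* ℂ}

/-- `D` is the dual space of the first crystalline cohomology group of the abelian variety `Y`, over the
extension of degree `s` of its ground field, with the linear Frobenius endomorphism `F₀`: the space `Ω ⊗ D`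
is identified by `e` with `Ω ⊗ H_1`, where `F₀` is the multiplication by `π ^ s`. -/
def IsFirst (Y : RedAV p ν) (s : ℕ) (F₀ : D →ₗ[K] D) (e : (Ω ⊗[K] D) ≃ₗ[Ω] TM Ω Y) : Prop :=
  ∀ v : D, e (1 ⊗ₜ[K] F₀ v) = pw (F Ω Y) s (e (1 ⊗ₜ[K] v))

/-- The crystalline cohomology group of degree `2 c` of `Y × V`: the sum of the Künneth components
`H^{2c - b}(Y) ⊗ H^b(V)`, `0 ≤ b ≤ 2 c`, where `M b = H^b(V)`; these are the spaces of the alternating maps
in `2 c - b` variables from the dual space `D` of `H^1(Y)` to `M b`. -/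
def CohYV (K D : Type) [Field K] [AddCommGroup D] [Module K D] (M : ℕ → Type)
    [∀ b, AddCommGroup (M b)] [∀ b, Module K (M b)] (c : ℕ) : Type :=
  ∀ b : Fin (2 * c + 1), D [⋀^Fin (2 * c - b)]→ₗ[K] M b

variable {M : ℕ → Type} [∀ b, AddCommGroup (M b)] [∀ b, Module K (M b)]

instance (c : ℕ) : AddCommGroup (CohYV K D M c) := Pi.addCommGroup

instance (c : ℕ) : Module K (CohYV K D M c) := Pi.module _ _ _

/-- The linear Frobenius endomorphism acts on `f` as the multiplication by `Q ^ c`, where `Q = p ^ N` is the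
number of elements of the ground field (for `r = 1`: `f` is a Tate class), or `f` belongs to the generalised
eigenspace with exponent `r`. -/
def IsTateYV (p N : ℕ) (F₀ : D →ₗ[K] D) (φ : ∀ b, M b →ₗ[K] M b) (r : ℕ) {c : ℕ}
    (f : CohYV K D M c) : Prop :=
  ∀ b : Fin (2 * c + 1), IsGen (twist F₀ (φ b) (Fin (2 * c - b))) ((p : K) ^ (N * c)) r (f b)

/-- The semilinear crystalline Frobenius endomorphism multiplies the class `f` by `p ^ c`. -/
def IsFixedYV (p : ℕ) (Ψ : D → D) (Φ : ∀ b, M b → M b) {c : ℕ} (f : CohYV K D M c) : Prop :=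
  ∀ (b : Fin (2 * c + 1)) (v : Fin (2 * c - b) → D),
    Φ b (f b (fun k => Ψ (v k))) = (p : K) ^ c • f b v

/-- Over `Ω`, the class `g` in `H^k(Y) ⊗ H^b(V)` is a linear combination of products of elements of `A` and
`B`, and it is zero if `b` is odd. -/
def IsCombination {Y : RedAV p ν} (e : (Ω ⊗[K] D) ≃ₗ[Ω] TM Ω Y) {N : Type} [AddCommGroup N]
    [Module K N] {k : ℕ} (b : ℕ) (A : Set ((TM Ω Y) [⋀^Fin k]→ₗ[Ω] Ω)) (B : Set (Ω ⊗[K] N))
    (g : D [⋀^Fin k]→ₗ[K] N) : Prop :=
  ∃ (n : ℕ) (a : Fin n → Ω) (f : Fin n → (TM Ω Y) [⋀^Fin k]→ₗ[Ω] Ω) (w : Fin n → Ω ⊗[K] N),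
    (∀ i, Even b ∧ f i ∈ A ∧ w i ∈ B) ∧ ∀ v : Fin k → D,
      (1 : Ω) ⊗ₜ[K] g v = ∑ i, (a i * f i fun j => e (1 ⊗ₜ[K] v j)) • w i

/-- The linear span of the set `Cyc` of the classes of the algebraic cycles of codimension `c` on `Y × V`
contains each (generalised) Tate class whose Künneth components are, over `Ω`, linear combinations of
products of elements of `A k`, in `H^k(Y)`, and of `B b`, in `H^b(V)` (these are the linear combinations,
with coefficients in `Ω`, of the classes of algebraic cycles over finite extensions of the ground field). -/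
def HasProducts (N : ℕ) {Y : RedAV p ν} (e : (Ω ⊗[K] D) ≃ₗ[Ω] TM Ω Y) (F₀ : D →ₗ[K] D)
    (φ : ∀ b, M b →ₗ[K] M b) (A : ∀ k, Set ((TM Ω Y) [⋀^Fin k]→ₗ[Ω] Ω)) (B : ∀ b, Set (Ω ⊗[K] M b))
    {c : ℕ} (Cyc : Set (CohYV K D M c)) : Prop :=
  ∀ (r : ℕ) (g : CohYV K D M c), IsTateYV p N F₀ φ r g →
    (∀ b : Fin (2 * c + 1), IsCombination e b (A (2 * c - b)) (B b) (g b)) →
      g ∈ Submodule.span K Cyc

/-- The class `f` is a linear combination of elements of `Cyc` with coefficients in the field of `p`-adic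
numbers, the fixed field of `σ`. -/
def IsPadicComb (σ : K ≃+* K) {c : ℕ} (Cyc : Set (CohYV K D M c)) (f : CohYV K D M c) : Prop :=
  ∃ l : CohYV K D M c →₀ K, (∀ z ∈ l.support, z ∈ Cyc) ∧ (∀ z, σ (l z) = l z) ∧
    f = l.sum fun z x => x • z

/-- The crystalline Tate conjecture is known for `Y`, where `A k` is the set of the linear combinations of the
classes of algebraic cycles in `H^k(Y)` over finite extensions: all Tate classes are in `A k`; or `Y` has
dimension at most five or is a product of small factors (`IsGoodAVS`), and `A k` contains the classes in the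
system `AlgS` (algebraic by theorems of Tate, Markman and Ramón Marí); or `Y` is a product of elliptic curves
and abelian surfaces, and `A k` contains the classes in the smaller system `AlgS Ω ∅` (algebraic by
theorems of Tate and Ramón Marí). -/
def KnownY (Y : RedAV p ν) (A : ∀ k, Set ((TM Ω Y) [⋀^Fin k]→ₗ[Ω] Ω)) : Prop :=
  (∀ (s m : ℕ) (f : (TM Ω Y) [⋀^Fin (2 * m)]→ₗ[Ω] Ω), 0 < s → IsTateClass Ω Y s m f →
    f ∈ A (2 * m)) ∨
  (IsGoodAVS Y ∧ ∀ k f, AlgS Ω {4, 6} Y (Fin k) f → f ∈ A k) ∨
  ((∀ i, finrank ℚ (Y.X.factor i).E ≤ 4) ∧ ∀ k f, AlgS Ω ∅ Y (Fin k) f → f ∈ A k)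

/-- The crystalline Tate conjecture for `V` over all finite extensions of the ground field, where `B b` is
the set of the linear combinations of the classes of algebraic cycles in `Ω ⊗ H^b(V)`: all Tate classes
(`r = 1`) or all generalised Tate classes with exponent `r` are in `B (2 d)`. -/
def TateV (p N : ℕ) (φ : ∀ b, M b →ₗ[K] M b) (B : ∀ b, Set (Ω ⊗[K] M b)) (r : ℕ) : Prop :=
  ∀ (d t : ℕ), 0 < t → ∀ w : Ω ⊗[K] M (2 * d),
    IsGen (pw ((φ (2 * d)).baseChange Ω) t) ((p : Ω) ^ (N * t * d)) r w → w ∈ B (2 * d)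

/-- All eigenvalues of Frobenius on the cohomology of `V` are separated from `Y`. -/
def AllSeparated (Ω : Type) [Field Ω] [CharZero Ω] [Algebra K Ω] (Y : RedAV p ν) (N : ℕ)
    (φ : ∀ b, M b →ₗ[K] M b) : Prop :=
  ∀ b α, End.HasEigenvalue ((φ b).baseChange Ω) α → IsSep Y N b α

end

end

end Pool.Agent.T9h37.CT
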