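import Mathlib

/-!
# The degree of an element of the compositum of the images of CM fields of small degree
-/

set_option autoImplicit false
set_option linter.unusedSectionVars false

namespace Pool.Agent.T9h37.CT

open Module NumberField

noncomputable section

section orbit

variable {E L : Type} [Field E] [NumberField E] [IsCMField E] [Field L] [NumberField L]

/-- An automorphism of odd prime order `ℓ` acts trivially on the embeddings of a CM field of degree smaller
than `2 ℓ`. -/
theorem comp_eq_of_prime {ℓ : ℕ} (hℓ : ℓ.Prime) (h2 : ℓ ≠ 2) (hE : finrank ℚ E < 2 * ℓ)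
    (j : L →+* ℂ) (g : L →+* L) (ψ : E →+* L)
    (hg : (fun φ : E →+* L => g.comp φ)^[ℓ] ψ = ψ) : g.comp ψ = ψ := by
  classical
  let T : (E →+* L) → (E →+* L) := fun φ => g.comp φ
  let c : E →+* E := (IsCMField.complexConj E : E →+* E)
  let R : (E →+* L) → (E →+* L) := fun φ => φ.comp c
  have hRR : ∀ φ, R (R φ) = φ := by
    intro φ
    ext x
    change φ (IsCMField.complexConj E (IsCMField.complexConj E x)) = φ x
    rw [IsCMField.complexConj_apply_apply]
  have hRT : ∀ φ, R (T φ) = T (R φ) := fun φ => rfl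
  have hRTn : ∀ (n : ℕ) φ, R (T^[n] φ) = T^[n] (R φ) := by
    intro n
    induction n with
    | zero => intro φ; rfl
    | succ n ih =>
      intro φ
      rw [Function.iterate_succ_apply, Function.iterate_succ_apply, ih, hRT]
  have hRne : ∀ φ, R φ ≠ φ := by
    intro φ h
    apply IsCMField.complexConj_ne_one E
    ext x
    apply φ.injective
    exact RingHom.congr_fun h x
  have hper : Function.IsPeriodicPt T ℓ ψ := hg
  have hdvd := hper.minimalPeriod_dvd
  rcases (Nat.dvd_prime hℓ).1 hdvd with h1 | h1
  · exact Function.minimalPeriod_eq_one_iff_isFixedPt.1 h1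
  · exfalso
    -- the orbits of `ψ` and of its conjugate are disjoint
    have hcross : ∀ m, T^[m] ψ ≠ R ψ := by
      intro m hm
      have h3 : T^[2 * m] ψ = ψ := by
        rw [two_mul, Function.iterate_add_apply, hm, ← hRTn, hm, hRR]
      have h4 : ℓ ∣ 2 * m := by
        rw [← h1]
        exact Function.IsPeriodicPt.minimalPeriod_dvd h3
      have h5 : ℓ ∣ m := by
        rcases (Nat.Prime.dvd_mul hℓ).1 h4 with h | h
        · exact absurd ((Nat.prime_dvd_prime_iff_eq hℓ Nat.prime_two).1 h) h2
        · exact h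
      have h6 : T^[m] ψ = ψ := by
        rw [← h1] at h5
        exact (Function.isPeriodicPt_iff_minimalPeriod_dvd.2 h5)
      exact hRne ψ (hm.symm.trans h6)
    let F : Fin ℓ ⊕ Fin ℓ → (E →+* L) := Sum.elim (fun k => T^[k] ψ) (fun k => T^[k] (R ψ))
    have hinj0 : ∀ a b : Fin ℓ, T^[a] ψ = T^[b] ψ → a = b := by
      intro a b hab
      apply Fin.ext
      have := Function.iterate_injOn_Iio_minimalPeriod (f := T) (x := ψ)
      rw [h1] at this
      exact this a.2 b.2 hab
    have hF : Function.Injective F := by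
      rintro (a | a) (b | b) hab
      · exact congrArg Sum.inl (hinj0 a b hab)
      · exfalso
        have h3 : T^[a] ψ = T^[b] (R ψ) := hab
        have h4 : T^[ℓ - b + a] ψ = R ψ := by
          rw [Function.iterate_add_apply, h3, ← Function.iterate_add_apply,
            Nat.sub_add_cancel b.2.le, ← hRTn, hper]
        exact hcross _ h4
      · exfalso
        have h3 : T^[a] (R ψ) = T^[b] ψ := hab
        have h4 : T^[ℓ - a + b] ψ = R ψ := by
          rw [Function.iterate_add_apply, ← h3, ← Function.iterate_add_apply,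
            Nat.sub_add_cancel a.2.le, ← hRTn, hper]
        exact hcross _ h4
      · have h3 : T^[a] (R ψ) = T^[b] (R ψ) := hab
        rw [← hRTn, ← hRTn] at h3
        have h4 := congrArg R h3
        rw [hRR, hRR] at h4
        exact congrArg Sum.inr (hinj0 a b h4)
    have h3 : Function.Injective fun k => j.comp (F k) := by
      intro a b hab
      apply hF
      ext x
      exact j.injective (RingHom.congr_fun hab x)
    have h4 := Fintype.card_le_of_injective _ h3
    rw [Embeddings.card, Fintype.card_sum, Fintype.card_fin] at h4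
    omega

end orbit

/-- The degree over `ℚ` of an element of the compositum of the images in `L` of CM fields of degrees smaller
than `2 ℓ` is not divisible by `ℓ`. -/
theorem degree_ndvd {L : Type} [Field L] [NumberField L] [IsGalois ℚ L] (j : L →+* ℂ) {I : Type}
    (E : I → Type) [∀ i, Field (E i)] [∀ i, NumberField (E i)] [∀ i, IsCMField (E i)]
    {ℓ : ℕ} (hℓ : ℓ.Prime) (h2 : ℓ ≠ 2) (hE : ∀ i, finrank ℚ (E i) < 2 * ℓ) (z : L)
    (hz : z ∈ IntermediateField.adjoin ℚ {y : L | ∃ (i : I) (f : E i →+* L) (x : E i), f x = y}) :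
    ¬ ℓ ∣ (minpoly ℚ z).natDegree := by
  classical
  set C := IntermediateField.adjoin ℚ {y : L | ∃ (i : I) (f : E i →+* L) (x : E i), f x = y} with hC
  set N : Subgroup (L ≃ₐ[ℚ] L) := C.fixingSubgroup with hN
  have hmemN : ∀ g : L ≃ₐ[ℚ] L, g ∈ N ↔ ∀ (i : I) (f : E i →+* L) (x : E i), g (f x) = f x := by
    intro g
    rw [hN, IntermediateField.mem_fixingSubgroup_iff]
    constructor
    · intro h i f x
      exact h _ (IntermediateField.subset_adjoin ℚ _ ⟨i, f, x, rfl⟩)
    · intro h y hy
      induction hy using IntermediateField.adjoin_induction with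
      | mem y hy =>
        obtain ⟨i, f, x, rfl⟩ := hy
        exact h i f x
      | algebraMap q => exact g.commutes q
      | add x y _ _ hx hy => rw [map_add, hx, hy]
      | inv x _ hx => rw [map_inv₀, hx]
      | mul x y _ _ hx hy => rw [map_mul, hx, hy]
  have hnorm : N.Normal := by
    refine ⟨fun n hn g => ?_⟩
    rw [hmemN] at hn ⊢
    intro i f x
    have h1 := hn i (((g⁻¹ : L ≃ₐ[ℚ] L) : L →+* L).comp f) x
    change g (n ((g⁻¹ : L ≃ₐ[ℚ] L) (f x))) = f x
    have h3 : n ((g⁻¹ : L ≃ₐ[ℚ] L) (f x)) = (g⁻¹ : L ≃ₐ[ℚ] L) (f x) := h1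
    rw [h3]
    exact AlgEquiv.apply_symm_apply g (f x)
  -- the order of the quotient group is not divisible by `ℓ`
  have hquot : ¬ ℓ ∣ Nat.card ((L ≃ₐ[ℚ] L) ⧸ N) := by
    intro hdvd
    have : Fact ℓ.Prime := ⟨hℓ⟩
    obtain ⟨q, hq⟩ := exists_prime_orderOf_dvd_card' ℓ hdvd
    obtain ⟨g, rfl⟩ := QuotientGroup.mk_surjective q
    have h3 : g ^ ℓ ∈ N := by
      rw [← QuotientGroup.eq_one_iff, QuotientGroup.mk_pow, ← hq]
      exact pow_orderOf_eq_one _
    have h4 : g ∈ N := by
      rw [hmemN]
      intro i f x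
      have h5 := comp_eq_of_prime hℓ h2 (hE i) j (g : L →+* L) f (by
        have h6 : ∀ n : ℕ, (fun φ : E i →+* L => (g : L →+* L).comp φ)^[n] f =
            ((g ^ n : L ≃ₐ[ℚ] L) : L →+* L).comp f := by
          intro n
          induction n with
          | zero => rfl
          | succ n ih =>
            rw [Function.iterate_succ_apply', ih, pow_succ']
            rfl
        rw [h6]
        ext x
        exact (hmemN _).1 h3 i f x)
      exact RingHom.congr_fun h5 x
    have h5 : ((g : L ≃ₐ[ℚ] L) : (L ≃ₐ[ℚ] L) ⧸ N) = 1 := (QuotientGroup.eq_one_iff g).2 h4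
    rw [h5, orderOf_one] at hq
    exact hℓ.one_lt.ne hq
  -- the degree of the compositum
  have hdeg : finrank ℚ C = Nat.card ((L ≃ₐ[ℚ] L) ⧸ N) := by
    have h3 : Nat.card N = finrank C L := IsGalois.card_fixingSubgroup_eq_finrank C
    have h4 : finrank ℚ C * finrank C L = finrank ℚ L := Module.finrank_mul_finrank ℚ C L
    have h5 : Nat.card (L ≃ₐ[ℚ] L) = finrank ℚ L := IsGalois.card_aut_eq_finrank ℚ L
    have h6 := Subgroup.card_eq_card_quotient_mul_card_subgroup N
    have h7 : 0 < finrank C L := Module.finrank_pos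
    rw [h5, ← h4, h3] at h6
    exact Nat.eq_of_mul_eq_mul_right h7 h6
  intro hdvd
  apply hquot
  rw [← hdeg]
  refine hdvd.trans ?_
  have h3 : IntermediateField.adjoin ℚ {z} ≤ C := by
    rw [IntermediateField.adjoin_le_iff]
    intro y hy
    rw [Set.mem_singleton_iff] at hy
    rw [hy]
    exact hz
  rw [← IntermediateField.adjoin.finrank (Algebra.IsIntegral.isIntegral z)]
  exact IntermediateField.finrank_dvd_of_le_right h3

end

end Pool.Agent.T9h37.CT
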