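import Pool.Agent.T9h37.CT.Van
import Pool.Agent.T9h37.CT.FdLem
import Pool.Agent.N202.QR.Desc

/-!
# The vanishing of the relations with an eigenvalue which is apart from an abelian variety
-/

set_option autoImplicit false
set_option linter.unusedSectionVars false
set_option linter.unusedVariables false

namespace Pool.Agent.T9h37.CT

open NumberField Pool.Agent.H204R3.CM Pool.Agent.W547.KB Pool.Agent.W547.LD Pool.Agent.W495.TA Module
  Pool.Agent.W495.TB Pool.Agent.W495.TC Pool.Agent.TH117.F5 Pool.Agent.TH117.BL Pool.Agent.Y137.SF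
  Pool.Agent.R937.CS Pool.Agent.R937.VS Pool.Agent.N522.VT
open Pool.Agent.Y137.TV (lam lam_ne_zero IsOddSupersingular pi_conj)
open scoped TensorProduct

noncomputable section

section avg

variable {p : ℕ} [Fact p.Prime] {ν : PadicAlgCl p ≃+* ℂ}
  {L : Type} [Field L] [NumberField L] [IsCMField L] [IsGalois ℚ L] (j : L →+* ℂ)

/-- The eigenvalue of a weight. -/
def lamL {Y : RedAV p ν} (w : Wt Y.X L) : L := w.2 (Y.π w.1)

theorem log_single {Y : RedAV p ν} (hY : Big Y.X j) (w : Wt Y.X L) (σ : L ≃ₐ[ℚ] L) :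
    Real.log ‖ν.symm (j (σ (lamL w)))‖ =
      Y.a * (1 / 2 + ((tf p ν j (St j w) σ : ℤ) : ℝ) / (2 * (nD (Dec p ν j) : ℝ))) *
        Real.log ‖(p : PadicAlgCl p)‖ := by
  have h := log_prod j Y hY (fun _ : Unit => w) σ
  simp only [Finset.univ_unique, Finset.prod_singleton, Finset.sum_singleton, Fintype.card_unit,
    Nat.cast_one] at h
  exact h

/-- If an automorphism maps a power of the eigenvalue to its complex conjugate then it changes the sign of the
function of the weight. -/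
theorem tf_neg {Y : RedAV p ν} (hY : Big Y.X j) (w : Wt Y.X L) {n : ℕ} (hn : 0 < n)
    (τ : L ≃ₐ[ℚ] L) (h : τ (lamL w ^ n) = cc L (lamL w ^ n)) (σ : L ≃ₐ[ℚ] L) :
    tf p ν j (St j w) (σ * τ) = -tf p ν j (St j w) σ := by
  set lp : ℝ := Real.log ‖(p : PadicAlgCl p)‖ with hlp
  have hlp0 : lp ≠ 0 := (Real.log_neg norm_p_pos norm_p_lt).ne
  have hYa : (Y.a : ℝ) ≠ 0 := by exact_mod_cast Y.pos.ne'
  have hnD : (nD (Dec p ν j) : ℝ) ≠ 0 := by exact_mod_cast (nD_pos (Dec p ν j)).ne'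
  have h1 := congrArg (fun z => Real.log ‖ν.symm (j (σ z))‖) h
  simp only [map_pow, norm_pow, Real.log_pow] at h1
  have hn' : (n : ℝ) ≠ 0 := by exact_mod_cast hn.ne'
  have h2 := mul_left_cancel₀ hn' h1
  have h3 := log_single j hY w (σ * τ)
  have h4 := log_single j hY w (σ * cc L)
  rw [← hlp] at h3 h4
  have h5 : Real.log ‖ν.symm (j (σ (τ (lamL w))))‖ = Real.log ‖ν.symm (j ((σ * τ) (lamL w)))‖ := rfl
  have h6 : Real.log ‖ν.symm (j (σ (cc L (lamL w))))‖ =
      Real.log ‖ν.symm (j ((σ * cc L) (lamL w)))‖ := rfl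
  rw [h5, h6, h3, h4] at h2
  have h7 : ((tf p ν j (St j w) (σ * τ) : ℤ) : ℝ) = ((tf p ν j (St j w) (σ * cc L) : ℤ) : ℝ) := by
    have h8 := mul_right_cancel₀ hlp0 h2
    have h9 := mul_left_cancel₀ hYa h8
    have h10 := add_left_cancel h9
    rw [div_left_inj' (mul_ne_zero two_ne_zero hnD)] at h10
    exact h10
  have h8 : tf p ν j (St j w) (σ * τ) = tf p ν j (St j w) (σ * cc L) := by exact_mod_cast h7
  rw [h8, ← tf_smul_wt, tf_cc_wt]

/-- The average over a subgroup. -/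
theorem avg_zero {Y : RedAV p ν} (hY : Big Y.X j) {κ : Type} [Fintype κ] (I : κ → Wt Y.X L)
    (H : Subgroup (L ≃ₐ[ℚ] L)) (hH : ∀ τ ∈ H, ∀ σ, ∑ k, tf p ν j (St j (I k)) (σ * τ) =
      ∑ k, tf p ν j (St j (I k)) σ) {n : ℕ} (hn : 0 < n)
    (h : ∀ k, ∃ τ ∈ H, τ (lamL (I k) ^ n) = cc L (lamL (I k) ^ n)) (σ : L ≃ₐ[ℚ] L) :
    ∑ k, tf p ν j (St j (I k)) σ = 0 := by
  classical
  let _ : Fintype H := Fintype.ofFinite H
  have h1 : ∀ k, ∑ τ : H, tf p ν j (St j (I k)) (σ * (τ : L ≃ₐ[ℚ] L)) = 0 := by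
    intro k
    obtain ⟨τ₀, hτ₀, h2⟩ := h k
    have h3 : ∑ τ : H, tf p ν j (St j (I k)) (σ * (τ : L ≃ₐ[ℚ] L)) =
        ∑ τ : H, -tf p ν j (St j (I k)) (σ * (τ : L ≃ₐ[ℚ] L)) := by
      rw [← Equiv.sum_comp (Equiv.mulRight (⟨τ₀, hτ₀⟩ : H))]
      refine Finset.sum_congr rfl fun τ _ => ?_
      have h4 : σ * ((Equiv.mulRight (⟨τ₀, hτ₀⟩ : H) τ : H) : L ≃ₐ[ℚ] L) =
          (σ * (τ : L ≃ₐ[ℚ] L)) * τ₀ := by
        rw [mul_assoc]
        rfl
      rw [h4, tf_neg j hY (I k) hn τ₀ h2]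
    rw [Finset.sum_neg_distrib] at h3
    omega
  have h2 : ∑ τ : H, ∑ k, tf p ν j (St j (I k)) (σ * (τ : L ≃ₐ[ℚ] L)) = 0 := by
    rw [Finset.sum_comm]
    exact Finset.sum_eq_zero fun k _ => h1 k
  rw [Finset.sum_congr rfl fun (τ : H) _ => hH τ τ.2 σ, Finset.sum_const, Finset.card_univ,
    nsmul_eq_mul] at h2
  have h3 : ((Fintype.card H : ℕ) : ℤ) ≠ 0 := by exact_mod_cast Fintype.card_ne_zero
  exact (mul_eq_zero.1 h2).resolve_left h3

end avg

section gal

variable {L : Type} [Field L] [NumberField L] [IsCMField L] [IsGalois ℚ L] (j : L →+* ℂ)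

include j in
/-- The minimal polynomials of the powers. -/
theorem minpoly_pow {K : Type} [Field K] [NumberField K] (x : K) (y : L)
    (h : minpoly ℚ x = minpoly ℚ y) (n : ℕ) : minpoly ℚ (x ^ n) = minpoly ℚ (y ^ n) := by
  obtain ⟨ψ, hψ⟩ := exists_psi j x y h 1
  have h1 : ψ x = j y := hψ
  have h2 : ψ (x ^ n) = j (y ^ n) := by rw [map_pow, map_pow, h1]
  have h3 : minpoly ℚ (RingHom.toRatAlgHom ψ (x ^ n)) = minpoly ℚ (x ^ n) :=
    minpoly.algHom_eq _ (RingHom.toRatAlgHom ψ).injective _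
  have h4 : minpoly ℚ (RingHom.toRatAlgHom j (y ^ n)) = minpoly ℚ (y ^ n) :=
    minpoly.algHom_eq _ (RingHom.toRatAlgHom j).injective _
  rw [← h3, ← h4]
  exact congrArg (minpoly ℚ) h2

end gal

/-- The Galois group of the minimal polynomial of a power. -/
theorem card_gal_pow {F K : Type} [Field F] [Field K] [Algebra F K] [Algebra.IsIntegral F K] (x : K)
    (n : ℕ) : Nat.card (minpoly F (x ^ n)).Gal ∣ Nat.card (minpoly F x).Gal := by
  let P := minpoly F x
  let M := P.SplittingField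
  have hint : IsIntegral F x := Algebra.IsIntegral.isIntegral x
  have hsp : (P.map (algebraMap F M)).Splits := Polynomial.SplittingField.splits P
  have hdeg : (P.map (algebraMap F M)).degree ≠ 0 := by
    rw [Polynomial.degree_map]
    exact (minpoly.degree_pos hint).ne'
  obtain ⟨x', hx'⟩ := hsp.exists_eval_eq_zero hdeg
  have hroot : Polynomial.aeval x' P = 0 := by
    rwa [Polynomial.eval_map_algebraMap] at hx'
  have hN : Normal F M := inferInstance
  -- the minimal polynomials of the powers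
  have h2 : minpoly F (x ^ n) = minpoly F (x' ^ n) := by
    let g : IntermediateField.adjoin F {x} →ₐ[F] M :=
      (IntermediateField.algHomAdjoinIntegralEquiv F hint).symm
        ⟨x', by
          rw [Polynomial.mem_aroots]
          exact ⟨minpoly.ne_zero hint, hroot⟩⟩
    have h3 : g (IntermediateField.AdjoinSimple.gen F x) = x' :=
      IntermediateField.algHomAdjoinIntegralEquiv_symm_apply_gen F _ _
    have h4 : minpoly F (g (IntermediateField.AdjoinSimple.gen F x ^ n)) =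
        minpoly F (IntermediateField.AdjoinSimple.gen F x ^ n) :=
      minpoly.algHom_eq _ g.injective _
    have h6 : minpoly F ((IntermediateField.adjoin F {x}).val
        (IntermediateField.AdjoinSimple.gen F x ^ n)) =
        minpoly F (IntermediateField.AdjoinSimple.gen F x ^ n) :=
      minpoly.algHom_eq _ (IntermediateField.adjoin F {x}).val.injective _
    have h7 : (IntermediateField.adjoin F {x}).val (IntermediateField.AdjoinSimple.gen F x ^ n) =
        x ^ n := rfl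
    rw [← h7, h6, ← h4, map_pow, h3]
  rw [h2]
  have : Fact (((minpoly F (x' ^ n)).map (algebraMap F M)).Splits) := ⟨hN.splits _⟩
  exact Subgroup.card_dvd_of_surjective _
    (Polynomial.Gal.restrict_surjective (minpoly F (x' ^ n)) M)


section factor

variable {p : ℕ} [Fact p.Prime] {ν : PadicAlgCl p ≃+* ℂ}
  {L : Type} [Field L] [NumberField L] [IsCMField L] [IsGalois ℚ L] (j : L →+* ℂ)

include j in
theorem lam_cc {Y : RedAV p ν} (w : Wt Y.X L) : lamL w * cc L (lamL w) = (p : L) ^ Y.a := by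
  apply j.injective
  have h1 := (Y.frob w.1).weil (j.comp w.2)
  rw [map_mul, emb_cc, Complex.mul_conj, Complex.normSq_eq_norm_sq, map_pow, map_natCast]
  have h2 : ‖j (lamL w)‖ ^ 2 = (p : ℝ) ^ Y.a := h1
  rw [h2]
  push_cast
  rfl

/-- The image of an adjoined field. -/
theorem map_adjoin_mem (S : Set L) (T : Subfield ℂ) (hS : ∀ u ∈ S, j u ∈ T) {u : L}
    (hu : u ∈ IntermediateField.adjoin ℚ S) : j u ∈ T := by
  induction hu using IntermediateField.adjoin_induction with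
  | mem u hu => exact hS u hu
  | algebraMap q =>
    have h3 : j (algebraMap ℚ L q) = (q : ℂ) := by simp
    rw [h3]
    exact SubfieldClass.ratCast_mem _ q
  | add u v _ _ hu hv => rw [map_add]; exact add_mem hu hv
  | inv u _ hu => rw [map_inv₀]; exact inv_mem hu
  | mul u v _ _ hu hv => rw [map_mul]; exact mul_mem hu hv

/-- An element which is not in the field generated by its trace and `y` is mapped to its complex conjugate by
an automorphism over `y`. -/
theorem exists_of_not_mem (μ y : L) (hμ : ∀ τ : L ≃ₐ[ℚ] L, τ (μ * cc L μ) = μ * cc L μ)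
    (h : μ ∉ IntermediateField.adjoin ℚ {μ + cc L μ, y}) :
    ∃ τ : L ≃ₐ[ℚ] L, τ y = y ∧ τ μ = cc L μ := by
  set K₁ := IntermediateField.adjoin ℚ {μ + cc L μ, y} with hK₁
  have h1 : μ ∉ IntermediateField.fixedField K₁.fixingSubgroup := by
    rwa [IsGalois.fixedField_fixingSubgroup K₁]
  rw [IntermediateField.mem_fixedField_iff] at h1
  push Not at h1
  obtain ⟨τ, hτ, hne⟩ := h1
  rw [IntermediateField.mem_fixingSubgroup_iff] at hτ
  refine ⟨τ, hτ y (IntermediateField.subset_adjoin ℚ _ (by simp)), ?_⟩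
  have h2 : τ (μ + cc L μ) = μ + cc L μ := hτ _ (IntermediateField.subset_adjoin ℚ _ (by simp))
  have h3 := hμ τ
  rw [map_add] at h2
  rw [map_mul] at h3
  have h4 : (τ μ - μ) * (τ μ - cc L μ) = 0 := by
    have h5 : τ (cc L μ) = μ + cc L μ - τ μ := by rw [← h2]; ring
    rw [h5] at h3
    linear_combination -h3
  exact sub_eq_zero.1 ((mul_eq_zero.1 h4).resolve_left (sub_ne_zero.2 hne))

/-- The first kind of factors. -/
theorem exists_of_trace {Y : RedAV p ν} (w : Wt Y.X L) {K : Type} [Field K] {x : K} {n t : ℕ}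
    (h : TraceApart (Y.π w.1 ^ n) (x ^ n)) (y : L) (ψ : K →+* ℂ) (hψ : ψ (x ^ t) = j y) :
    ∃ τ : L ≃ₐ[ℚ] L, τ (y ^ n) = y ^ n ∧ τ (lamL w ^ n) = cc L (lamL w ^ n) := by
  have hw : (j.comp w.2) (Y.π w.1 ^ n) = j (lamL w ^ n) := by
    rw [map_pow, map_pow]
    rfl
  have hstar : star ((j.comp w.2) (Y.π w.1 ^ n)) = j (cc L (lamL w ^ n)) := by
    rw [hw, emb_cc]
    rfl
  rcases h (j.comp w.2) ψ with h1 | h1
  · refine ⟨1, rfl, ?_⟩
    rw [hstar, hw] at h1
    exact (j.injective h1).symm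
  · refine exists_of_not_mem (lamL w ^ n) (y ^ n) (fun τ => ?_) fun h2 => h1 ?_
    · rw [map_pow (cc L), ← mul_pow, lam_cc j w, ← pow_mul, map_pow, map_natCast]
    · rw [hw] at hstar ⊢
      rw [hstar, ← map_add]
      refine map_adjoin_mem j _ _ (fun u hu => ?_) h2
      rcases hu with rfl | hu
      · exact Subfield.subset_closure (by simp)
      · rw [Set.mem_singleton_iff] at hu
        rw [hu, map_pow j y n, ← hψ, ← map_pow ψ, ← pow_mul, mul_comm t n, pow_mul,
          map_pow ψ (x ^ n)]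
        exact pow_mem (Subfield.subset_closure (by simp)) t

/-- The second kind of factors. -/
theorem exists_of_prime {Y : RedAV p ν} (hY : Big Y.X j) (w : Wt Y.X L) {K : Type} [Field K]
    [NumberField K] {x : K} {n t : ℕ} (h : PrimeApart (Y.π w.1 ^ n) (x ^ n)) (y : L)
    (hmin : minpoly ℚ (x ^ t) = minpoly ℚ y) :
    ∃ τ : L ≃ₐ[ℚ] L, τ (y ^ n) = y ^ n ∧ τ (lamL w ^ n) = cc L (lamL w ^ n) := by
  classical
  obtain ⟨E₀, _, _, _, ι, z, ℓ, hz, hℓ, hℓ2, hdeg, hNQ, hgal⟩ := h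
  let w₀ : E₀ →+* L := w.2.comp ι
  have hw₀ : w₀ z = lamL w ^ n := by
    change w.2 (ι z) = _
    rw [hz, map_pow]
    rfl
  -- the embeddings of `E₀`
  have hbig : ∀ ψ₀ : E₀ →+* ℂ, ∃ φ : E₀ →+* L, j.comp φ = ψ₀ := by
    intro ψ₀
    let _ : Algebra E₀ (Y.X.factor w.1).E := ι.toAlgebra
    obtain ⟨φ, hφ⟩ := hY w.1 (ComplexEmbedding.lift (Y.X.factor w.1).E ψ₀)
    refine ⟨φ.comp ι, ?_⟩
    rw [← RingHom.comp_assoc, hφ]
    exact ComplexEmbedding.lift_comp_algebraMap _ ψ₀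
  have hfin : Finite (E₀ →+* L) := by
    refine Finite.of_injective (fun φ : E₀ →+* L => j.comp φ) ?_
    intro φ φ' h
    ext a
    exact j.injective (RingHom.congr_fun h a)
  let _ : Fintype (E₀ →+* L) := Fintype.ofFinite _
  have hcard : Fintype.card (E₀ →+* L) = 2 * ℓ := by
    have hbij : Function.Bijective (fun φ : E₀ →+* L => j.comp φ) := by
      constructor
      · intro φ φ' h
        ext a
        exact j.injective (RingHom.congr_fun h a)
      · exact hbig
    rw [← hdeg, ← Nat.card_eq_fintype_card, Nat.card_eq_of_bijective _ hbij,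
      Nat.card_eq_fintype_card, Embeddings.card]
  have hset : Setting (L ≃ₐ[ℚ] L) (E₀ →+* L) (cc L) :=
    setting j (Pool.Agent.N202.QR.anyPair E₀)
  -- the normal subgroup
  have hN : Normal ℚ L := inferInstance
  have hmin' : minpoly ℚ (y ^ n) = minpoly ℚ ((x ^ n) ^ t) := by
    rw [← pow_mul, mul_comm n t, pow_mul]
    exact (minpoly_pow j (x ^ t) y hmin n).symm
  have hfact : Fact (((minpoly ℚ (y ^ n)).map (algebraMap ℚ L)).Splits) := ⟨hN.splits _⟩
  let R : (L ≃ₐ[ℚ] L) →* (minpoly ℚ (y ^ n)).Gal := Polynomial.Gal.restrict (minpoly ℚ (y ^ n)) L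
  let m := Nat.card (minpoly ℚ (y ^ n)).Gal
  have hm : ¬ ℓ ∣ m := fun h1 => hgal (h1.trans (by
    change Nat.card (minpoly ℚ (y ^ n)).Gal ∣ _
    rw [hmin']
    exact card_gal_pow (x ^ n) t))
  have hpow : ∀ τ : L ≃ₐ[ℚ] L, τ ^ m ∈ R.ker := by
    intro τ
    rw [MonoidHom.mem_ker, map_pow]
    exact pow_card_eq_one'
  have hfix : ∀ τ ∈ R.ker, τ (y ^ n) = y ^ n := by
    intro τ hτ
    rw [MonoidHom.mem_ker] at hτ
    have hy : y ^ n ∈ (minpoly ℚ (y ^ n)).rootSet L := by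
      rw [Polynomial.mem_rootSet]
      exact ⟨minpoly.ne_zero (Algebra.IsIntegral.isIntegral _), minpoly.aeval ℚ (y ^ n)⟩
    have h1 := Polynomial.Gal.restrict_smul (p := minpoly ℚ (y ^ n)) (E := L) τ ⟨y ^ n, hy⟩
    rw [show Polynomial.Gal.restrict (minpoly ℚ (y ^ n)) L τ = 1 from hτ, one_smul] at h1
    exact h1.symm
  by_contra hcon
  push Not at hcon
  obtain ⟨a, ha, hodd, hpm⟩ := prime_orbits hset hℓ hℓ2 hcard R.ker m hm hpow w₀ (by
    intro τ hτ h1
    refine hcon τ (hfix τ hτ) ?_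
    rw [← hw₀]
    exact RingHom.congr_fun h1 z)
  obtain ⟨K₂, _, _, _, h2, ⟨f⟩⟩ := exists_quad j a w₀ (by rw [ha]; norm_num) hodd hpm
  exact (hNQ K₂ h2).false f

end factor

section main

variable {p : ℕ} [Fact p.Prime] {ν : PadicAlgCl p ≃+* ℂ}

/-- **The relations with an eigenvalue which is apart from `Y`.** -/
theorem vanish_fd {Ω : Type} [Field Ω] [CharZero Ω] {Y : RedAV p ν} {a b : ℕ} (ha : 0 < a) {α : Ω}
    (hsep : IsSepFd Y a b α) : Vanish Y a b α := by
  intro L _ _ _ _ j jO hY κ _ I s t c hs ht hst hα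
  obtain ⟨K, _, _, ι, x, rfl, hweil, hodd, n, hn, hfac⟩ := hsep
  obtain ⟨y, hyβ, hβ0, hy, hmin, hcard, hsl⟩ := slopes_rel j jO hY I ha ht hst ι x hα hweil
  refine ⟨hcard, fun σ => ?_, hodd⟩
  have hp : p.Prime := Fact.out
  obtain ⟨ψ, hψ⟩ := exists_psi j (x ^ t) y hmin 1
  have hψ' : ψ (x ^ t) = j y := hψ
  let H : Subgroup (L ≃ₐ[ℚ] L) := MulAction.stabilizer (L ≃ₐ[ℚ] L) (y ^ n)
  refine avg_zero j hY I H (fun τ hτ σ => ?_) hn (fun k => ?_) σ
  · have hτ' : τ (y ^ n) = y ^ n := hτ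
    have h1 := hsl (σ * τ)
    have h2 := hsl σ
    have h3 : Real.log ‖ν.symm (j ((σ * τ) y))‖ = Real.log ‖ν.symm (j (σ y))‖ := by
      have h4 := congrArg (fun z => Real.log ‖ν.symm (j (σ z))‖) hτ'
      simp only [map_pow, norm_pow, Real.log_pow] at h4
      exact mul_left_cancel₀ (by exact_mod_cast hn.ne' : (n : ℝ) ≠ 0) h4
    rw [h3, h2] at h1
    have hnD : (nD (Dec p ν j) : ℝ) ≠ 0 := by exact_mod_cast (nD_pos (Dec p ν j)).ne'
    rw [neg_inj, div_left_inj' hnD] at h1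
    exact_mod_cast h1.symm
  · rcases hfac (I k).1 with h | h
    · obtain ⟨τ, h1, h2⟩ := exists_of_trace j (I k) h y ψ hψ'
      exact ⟨τ, h1, h2⟩
    · obtain ⟨τ, h1, h2⟩ := exists_of_prime j hY (I k) h y hmin
      exact ⟨τ, h1, h2⟩

end main

end

end Pool.Agent.T9h37.CT
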