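import Pool.Agent.T9h37.CT.Fd
import Pool.Agent.T9h37.CT.FdPrime

/-!
# The crystalline Tate conjecture for products with abelian varieties which are apart
-/

set_option autoImplicit false
set_option linter.unusedSectionVars false
set_option linter.unusedVariables false

namespace Pool.Agent.T9h37.CT

open Module Pool.Agent.W547.KB Pool.Agent.W495.TA Pool.Agent.R937.VS Pool.Agent.TH117.F5
  Pool.Agent.R299.CRY Pool.Agent.Y137.SF Pool.Agent.Y137.GN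
open scoped TensorProduct

noncomputable section

variable {p : ℕ} [Fact p.Prime] {ν : PadicAlgCl p ≃+* ℂ} {K Ω D : Type} [Field K] [CharZero K]
  [Field Ω] [IsAlgClosed Ω] [CharZero Ω] [Algebra K Ω]
  [AddCommGroup D] [Module K D] [FiniteDimensional K D] {M : ℕ → Type} [∀ b, AddCommGroup (M b)]
  [∀ b, Module K (M b)] [∀ b, FiniteDimensional K (M b)]

theorem known_of {Y : RedAV p ν} {A : ∀ k, Set ((TM Ω Y) [⋀^Fin k]→ₗ[Ω] Ω)} (h : KnownZ Y A) :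
    KnownY Y A := by
  left
  rcases h with h | ⟨⟨Z, k, ℓ, h1, h2, h3, h4, h5, h6⟩, h7⟩
  · exact h
  · intro s m f hs hf
    have h8 : Pool.Agent.TH117.BL.HasElementaryRelations Z := elementary_of_prime k h1 h2 h3 h4 h5
    have h9 : Pool.Agent.TH117.BL.IsPowersTimesSupersingular Z Y := fun i =>
      (h6 i).imp_right fun ⟨ι, s, t, a, b, c, d⟩ => ⟨k, ι, s, t, a, b, c, d⟩
    exact h7 _ _ (Pool.Agent.TH117.BL.elementary Z h8 Ω Y h9 s m hs f hf)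

/-- **The crystalline Tate conjecture for `Y × V`.** -/
theorem bundled_fd (Y : RedAV p ν) (s : ℕ) (hs : 0 < s) (σ : K ≃+* K) (Ψ : D → D) (F₀ : D →ₗ[K] D)
    (e : (Ω ⊗[K] D) ≃ₗ[Ω] TM Ω Y) (hΨ : IsDualFrob (Y.a * s) σ Ψ F₀) (he : IsFirst Y s F₀ e)
    (Φ : ∀ b, M b → M b) (φ : ∀ b, M b →ₗ[K] M b) (hΦ : ∀ b, IsFrob (Y.a * s) σ (Φ b) (φ b))
    (hsep : AllSepFd Ω Y (Y.a * s) φ)
    (A : ∀ k, Set ((TM Ω Y) [⋀^Fin k]→ₗ[Ω] Ω)) (hA : KnownZ Y A)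
    (B : ∀ b, Set (Ω ⊗[K] M b)) (r : ℕ) (hr : 0 < r) (hB : TateV p (Y.a * s) φ B r) (c : ℕ)
    (Cyc : Set (CohYV K D M c)) (hC : ∀ z ∈ Cyc, IsFixedYV p Ψ Φ z)
    (hZ : HasProducts (Y.a * s) e F₀ φ A B Cyc) :
    (∀ f : CohYV K D M c, IsTateYV p (Y.a * s) F₀ φ r f →
      f ∈ Submodule.span K Cyc ∧ IsTateYV p (Y.a * s) F₀ φ 1 f) ∧
      ∀ f : CohYV K D M c, IsFixedYV p Ψ Φ f → IsPadicComb σ Cyc f := by
  have hN : 0 < Y.a * s := Nat.mul_pos Y.pos hs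
  exact bundled_van Y s hs σ Ψ F₀ e hΨ he Φ φ hΦ (fun b α hα => vanish_fd hN (hsep b α hα)) A
    (known_of hA) B r hr hB c Cyc hC hZ

end

end Pool.Agent.T9h37.CT
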