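import Pool.Agent.T9h37.CT.Crys
import Pool.Agent.Y137.TV.Final

/-!
# Crystalline Tate classes on the product of an abelian variety and an arbitrary variety: the form with
coefficients in the field of `p`-adic numbers, and abelian varieties with known Tate classes
-/

set_option autoImplicit false
set_option linter.unusedSectionVars false
set_option linter.unusedVariables false

namespace Pool.Agent.T9h37.CT

open Module Pool.Agent.W547.KB Pool.Agent.W495.TA Pool.Agent.R937.VS Pool.Agent.TH117.F5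
  Pool.Agent.R299.CRY Pool.Agent.Y137.SF Pool.Agent.Y137.GN
open scoped TensorProduct

noncomputable section

section semi

variable {K₀ V₀ N₀ : Type} [Field K₀] [CharZero K₀] [AddCommGroup V₀] [Module K₀ V₀]
  [AddCommGroup N₀] [Module K₀ N₀]

/-- The semilinear Frobenius endomorphism of a Künneth component. -/
def frobAlt {r N : ℕ} {σ : K₀ ≃+* K₀} {Ψ : V₀ → V₀} {F₀ : V₀ →ₗ[K₀] V₀}
    (h : IsSemilinearFrobenius r σ Ψ F₀) {Φ : N₀ → N₀} {φ₀ : N₀ →ₗ[K₀] N₀}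
    (h' : IsCrysFrobenius N σ Φ φ₀) {n : ℕ} (f : V₀ [⋀^Fin n]→ₗ[K₀] N₀) :
    V₀ [⋀^Fin n]→ₗ[K₀] N₀ where
  toFun v := Φ (f (fun k => Ψ (v k)))
  map_update_add' := by
    intro _ v i x y
    have hu : ∀ z, (fun k => Ψ (Function.update v i z k)) =
        Function.update (fun k => Ψ (v k)) i (Ψ z) := by
      intro z
      funext k
      by_cases hk : k = i
      · subst hk; simp
      · simp [hk]
    rw [hu, hu, hu, h.add, f.map_update_add, h'.add]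
  map_update_smul' := by
    intro _ v i c x
    have hu : ∀ z, (fun k => Ψ (Function.update v i z k)) =
        Function.update (fun k => Ψ (v k)) i (Ψ z) := by
      intro z
      funext k
      by_cases hk : k = i
      · subst hk; simp
      · simp [hk]
    rw [hu, hu, h.smul, f.map_update_smul, h'.smul, RingEquiv.apply_symm_apply]
  map_eq_zero_of_eq' := by
    intro v i j hij hne
    have h1 : f (fun k => Ψ (v k)) = 0 := f.map_eq_zero_of_eq _ (by rw [hij]) hne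
    have h2 : Φ 0 = 0 := by
      have := h'.smul 0 0
      simpa using this
    rw [h1, h2]

theorem iterate_alt {r N : ℕ} {σ : K₀ ≃+* K₀} {Ψ : V₀ → V₀} {F₀ : V₀ →ₗ[K₀] V₀}
    (h : IsSemilinearFrobenius r σ Ψ F₀) {Φ : N₀ → N₀} {φ₀ : N₀ →ₗ[K₀] N₀}
    (h' : IsCrysFrobenius N σ Φ φ₀) {n p c : ℕ} (f : V₀ [⋀^Fin n]→ₗ[K₀] N₀)
    (hf : ∀ v : Fin n → V₀, Φ (f (fun k => Ψ (v k))) = (p : K₀) ^ c • f v) (m : ℕ)
    (v : Fin n → V₀) :
    (Φ^[m]) (f (fun k => (Ψ^[m]) (v k))) = ((p : K₀) ^ c) ^ m • f v := by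
  induction m generalizing v with
  | zero => simp
  | succ m ih =>
    have h1 : (fun k => (Ψ^[m + 1]) (v k)) = fun k => (Ψ^[m]) (Ψ (v k)) := by
      funext k
      rw [Function.iterate_succ_apply]
    rw [h1, Function.iterate_succ_apply', ih (fun k => Ψ (v k)), h'.smul, hf v, map_pow, map_pow,
      map_natCast, smul_smul]
    rw [pow_succ]

end semi

section main

variable {p : ℕ} [Fact p.Prime] {ν : PadicAlgCl p ≃+* ℂ} {K₀ Ω V₀ : Type} [Field K₀] [CharZero K₀]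
  [Field Ω] [IsAlgClosed Ω] [CharZero Ω] [Algebra K₀ Ω] [AddCommGroup V₀] [Module K₀ V₀]
  [FiniteDimensional K₀ V₀]
  {M₀ : ℕ → Type} [∀ b, AddCommGroup (M₀ b)] [∀ b, Module K₀ (M₀ b)]
  [∀ b, FiniteDimensional K₀ (M₀ b)] {Y : RedAV p ν}

/-- Classes fixed by the semilinear Frobenius endomorphism are Tate classes. -/
theorem tate_of_fixed {N : ℕ} {σ : K₀ ≃+* K₀} {Ψ : V₀ → V₀} {F₀ : V₀ →ₗ[K₀] V₀}
    (h : IsSemilinearFrobenius N σ Ψ F₀) {Φ : ∀ b, M₀ b → M₀ b} {φ₀ : ∀ b, M₀ b →ₗ[K₀] M₀ b}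
    (h' : ∀ b, IsCrysFrobenius N σ (Φ b) (φ₀ b)) {c r : ℕ} (hr : 0 < r) (f : Coh K₀ V₀ M₀ c)
    (hf : IsFixedCoh p Ψ Φ c f) : IsTateCoh p N F₀ φ₀ c r f := by
  intro b
  have h1 : (twist F₀ (φ₀ b) (Fin (2 * c - b)) - ((p : K₀) ^ (N * c)) • 1) (f b) = 0 := by
    ext v
    change φ₀ b (f b (fun k => F₀ (v k))) - ((p : K₀) ^ (N * c)) • f b v = 0
    have h2 := iterate_alt h (h' b) (f b) (hf b) N v
    have h3 : (fun k => (Ψ^[N]) (v k)) = fun k => F₀ (v k) := by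
      funext k
      exact h.pow_phi _
    rw [h3, (h' b).pow] at h2
    rw [h2, ← pow_mul, mul_comm c N, sub_self]
  obtain ⟨m, rfl⟩ : ∃ m, r = m + 1 := ⟨r - 1, by omega⟩
  unfold IsGen
  rw [pow_succ]
  change ((twist F₀ (φ₀ b) (Fin (2 * c - b)) - ((p : K₀) ^ (N * c)) • 1) ^ m)
    ((twist F₀ (φ₀ b) (Fin (2 * c - b)) - ((p : K₀) ^ (N * c)) • 1) (f b)) = 0
  rw [h1, map_zero]

/-- Fixed classes in the linear span of fixed classes. -/
theorem fixedSpan_coh {N : ℕ} {σ : K₀ ≃+* K₀} {Ψ : V₀ → V₀} {F₀ : V₀ →ₗ[K₀] V₀}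
    (h : IsSemilinearFrobenius N σ Ψ F₀) {Φ : ∀ b, M₀ b → M₀ b} {φ₀ : ∀ b, M₀ b →ₗ[K₀] M₀ b}
    (h' : ∀ b, IsCrysFrobenius N σ (Φ b) (φ₀ b)) {c : ℕ} (Cyc : Set (Coh K₀ V₀ M₀ c))
    (hC : ∀ z ∈ Cyc, IsFixedCoh p Ψ Φ c z) (f : Coh K₀ V₀ M₀ c)
    (hf : f ∈ Submodule.span K₀ Cyc) (hfix : IsFixedCoh p Ψ Φ c f) : FixedSpan σ Cyc f := by
  have hp' : ((p : K₀) ^ c) ≠ 0 := pow_ne_zero _ (Nat.cast_ne_zero.2 (Fact.out : p.Prime).ne_zero)
  have hT : ∀ g : Coh K₀ V₀ M₀ c, IsFixedCoh p Ψ Φ c g →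
      (fun b : Fin (2 * c + 1) => ((p : K₀) ^ c)⁻¹ • frobAlt h (h' b) (g b)) = g := by
    intro g hg
    funext b
    ext v
    change ((p : K₀) ^ c)⁻¹ • Φ b (g b (fun k => Ψ (v k))) = g b v
    rw [hg b v, inv_smul_smul₀ hp']
  refine fixedSpan_of_span σ
    (fun (g : Coh K₀ V₀ M₀ c) (b : Fin (2 * c + 1)) => ((p : K₀) ^ c)⁻¹ • frobAlt h (h' b) (g b))
    ?_ ?_ Cyc
    (fun z hz => hT z (hC z hz)) f hf (hT f hfix)
  · intro x y
    funext b
    ext v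
    change ((p : K₀) ^ c)⁻¹ • Φ b ((x b + y b) (fun k => Ψ (v k))) =
      ((p : K₀) ^ c)⁻¹ • Φ b (x b (fun k => Ψ (v k))) +
        ((p : K₀) ^ c)⁻¹ • Φ b (y b (fun k => Ψ (v k)))
    rw [AlternatingMap.add_apply, (h' b).add, smul_add]
  · intro a x
    funext b
    ext v
    change ((p : K₀) ^ c)⁻¹ • Φ b ((a • x b) (fun k => Ψ (v k))) =
      σ a • ((p : K₀) ^ c)⁻¹ • Φ b (x b (fun k => Ψ (v k)))
    rw [AlternatingMap.smul_apply, (h' b).smul, smul_comm]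

/-- All Tate classes on products of elliptic curves and abelian surfaces. -/
theorem surfaces_alg (hdim : ∀ i, finrank ℚ (Y.X.factor i).E ≤ 4) {s m : ℕ} (hs : 0 < s)
    (f : (TM Ω Y) [⋀^Fin (2 * m)]→ₗ[Ω] Ω) (hf : IsTateClass Ω Y s m f) :
    AlgS Ω ∅ Y (Fin (2 * m)) f := by
  have hsep : ∀ α, End.HasEigenvalue (LinearMap.id : Ω →ₗ[Ω] Ω) α →
      Pool.Agent.N522.VT.IsSeparated Y Y.a 0 α := by
    intro α hα
    have h1 : α = 1 := by
      obtain ⟨x, hx⟩ := hα.exists_hasEigenvector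
      have h2 := hx.apply_eq_smul
      rw [LinearMap.id_apply, smul_eq_mul] at h2
      have h3 : (1 - α) * x = 0 := by linear_combination h2
      rcases mul_eq_zero.1 h3 with h | h
      · linear_combination -h
      · exact absurd h hx.2
    subst h1
    refine ⟨ℚ, inferInstance, inferInstance, algebraMap ℚ Ω, 1, map_one _, fun ψ => ?_,
      Or.inl fun ψ => ?_⟩
    · rw [map_one, norm_one, one_pow, mul_zero, pow_zero]
    · unfold Pool.Agent.R937.VS.slope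
      rw [map_one, map_one, norm_one, Real.log_one, zero_div, mul_zero, Nat.cast_zero]
  have h1 : IsTate Y.a (LinearMap.id : Ω →ₗ[Ω] Ω) 1 Y f := by
    refine ⟨s, s, m, hs, hs, rfl, ?_⟩
    unfold IsGen
    rw [pow_one]
    ext v
    change (pw (LinearMap.id : Ω →ₗ[Ω] Ω) s) (f fun k => (F Ω Y ^ s) (v k)) -
      ((p : Ω) ^ (Y.a * s * m)) • f v = 0
    have h2 : pw (LinearMap.id : Ω →ₗ[Ω] Ω) s = LinearMap.id := by
      unfold pw
      exact one_pow s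
    rw [h2, LinearMap.id_apply, hf v, smul_eq_mul, ← pow_mul, mul_comm m s, ← mul_assoc, sub_self]
  have h2 := (Pool.Agent.N522.VT.main Y hdim Y.a 0 Y.pos (LinearMap.id : Ω →ₗ[Ω] Ω) hsep 1).1 m f h1
  clear h1 hf
  induction h2 using Submodule.span_induction with
  | mem g hg =>
    obtain ⟨d, s', t, f', w, -, -, -, -, hf', -, hv⟩ := hg
    have h3 : g = w • f' := by
      ext v
      rw [hv v, AlternatingMap.smul_apply, smul_eq_mul, smul_eq_mul, mul_comm]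
    rw [h3]
    exact AlgS.smul w f' hf'
  | zero => exact AlgS.zero Y _
  | add f g _ _ hf hg => exact AlgS.add f g hf hg
  | smul a f _ hf => exact AlgS.smul a f hf

/-- The space `A k` of classes of degree `k` on the abelian variety `Y` contains all Tate classes of `Y` over
finite extensions (the crystalline Tate conjecture for `Y`); or `Y` has dimension at most five or is a
product of small factors (`IsGoodAVS`), and the spaces `A k` contain the classes in the system `AlgS` (which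
are algebraic by theorems of Tate, Markman and Ramón Marí); or `Y` is a product of elliptic curves and
abelian surfaces and the spaces `A k` contain the classes in the smaller system `AlgS Ω ∅` (algebraic by
theorems of Tate and Ramón Marí). -/
def KnownTate (Y : RedAV p ν) (A : ∀ k, Set ((TM Ω Y) [⋀^Fin k]→ₗ[Ω] Ω)) : Prop :=
  TateAV Y A ∨
  (IsGoodAVS Y ∧ ∀ k (f : (TM Ω Y) [⋀^Fin k]→ₗ[Ω] Ω), AlgS Ω {4, 6} Y (Fin k) f → f ∈ A k) ∨
  ((∀ i, finrank ℚ (Y.X.factor i).E ≤ 4) ∧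
    ∀ k (f : (TM Ω Y) [⋀^Fin k]→ₗ[Ω] Ω), AlgS Ω ∅ Y (Fin k) f → f ∈ A k)

theorem KnownTate.tate {A : ∀ k, Set ((TM Ω Y) [⋀^Fin k]→ₗ[Ω] Ω)} (h : KnownTate Y A) :
    TateAV Y A := by
  rcases h with h | ⟨hY, h⟩ | ⟨hY, h⟩
  · exact h
  · exact fun s m f hs hf => h _ f (algS_goodS hY s m hs f hf)
  · exact fun s m f hs hf => h _ f (surfaces_alg hY hs f hf)

theorem tateCoh_span {N : ℕ} {F₀ : V₀ →ₗ[K₀] V₀} {φ₀ : ∀ b, M₀ b →ₗ[K₀] M₀ b} {c r : ℕ}
    {Cyc : Set (Coh K₀ V₀ M₀ c)} (hC : ∀ z ∈ Cyc, IsTateCoh p N F₀ φ₀ c r z)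
    {f : Coh K₀ V₀ M₀ c} (hf : f ∈ Submodule.span K₀ Cyc) : IsTateCoh p N F₀ φ₀ c r f := by
  induction hf using Submodule.span_induction with
  | mem z hz => exact hC z hz
  | zero => exact fun b => map_zero _
  | add x y _ _ hx hy =>
    intro b
    unfold IsGen
    rw [Pi.add_apply, map_add, hx b, hy b, add_zero]
  | smul a x _ hx =>
    intro b
    unfold IsGen
    rw [Pi.smul_apply, map_smul, hx b, smul_zero]

/-- **The crystalline Tate conjecture for `Y × V`.** -/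
theorem crys_main (s : ℕ) (hs : 0 < s) (σ : K₀ ≃+* K₀) (Ψ : V₀ → V₀) (F₀ : V₀ →ₗ[K₀] V₀)
    (hΨ : IsSemilinearFrobenius (Y.a * s) σ Ψ F₀)
    (e : (Ω ⊗[K₀] V₀) ≃ₗ[Ω] TM Ω Y) (he : IsCrystalline Y s F₀ e)
    (Φ : ∀ b, M₀ b → M₀ b) (φ₀ : ∀ b, M₀ b →ₗ[K₀] M₀ b)
    (hΦ : ∀ b, IsCrysFrobenius (Y.a * s) σ (Φ b) (φ₀ b))
    (hφ : ∀ b α, End.HasEigenvalue ((φ₀ b).baseChange Ω) α → IsSep Y (Y.a * s) b α)
    (A : ∀ k, Set ((TM Ω Y) [⋀^Fin k]→ₗ[Ω] Ω)) (hA : KnownTate Y A)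
    (B : ∀ b, Set (Ω ⊗[K₀] M₀ b)) (r : ℕ) (hr : 0 < r)
    (hB : TateVar p (Y.a * s) r φ₀ B) (c : ℕ) (Cyc : Set (Coh K₀ V₀ M₀ c))
    (hC : ∀ z ∈ Cyc, IsFixedCoh p Ψ Φ c z)
    (hZ : ContainsProducts (p := p) (Y.a * s) e F₀ φ₀ A B c (Submodule.span K₀ Cyc)) :
    (∀ f, IsTateCoh p (Y.a * s) F₀ φ₀ c r f →
      f ∈ Submodule.span K₀ Cyc ∧ IsTateCoh p (Y.a * s) F₀ φ₀ c 1 f) ∧
    ∀ f, IsFixedCoh p Ψ Φ c f → FixedSpan σ Cyc f := by
  have h1 : ∀ f, IsTateCoh p (Y.a * s) F₀ φ₀ c r f → f ∈ Submodule.span K₀ Cyc := fun f hf =>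
    crys_lin s hs e F₀ he φ₀ hφ A hA.tate B r hB c _ hZ f hf
  refine ⟨fun f hf => ⟨h1 f hf, tateCoh_span (fun z hz => tate_of_fixed hΨ hΦ one_pos z (hC z hz))
    (h1 f hf)⟩, fun f hf => ?_⟩
  exact fixedSpan_coh hΨ hΦ Cyc hC f (h1 f (tate_of_fixed hΨ hΦ hr f hf)) hf

end main

end

end Pool.Agent.T9h37.CT
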