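import Pool.Agent.T9h37.CT.RkDefs

/-!
# Multiplicative independence and linear algebra over the integers
-/

set_option autoImplicit false

namespace Pool.Agent.T9h37.CT

open Module

noncomputable section

/-- The group of the nonzero complex numbers modulo the powers of `p`. -/
abbrev GQ (u : ℂˣ) : Type := Additive ℂˣ ⧸ AddSubgroup.zmultiples (Additive.ofMul u)

/-- The class of a nonzero number. -/
def cl (u : ℂˣ) (x : ℂˣ) : GQ u := QuotientAddGroup.mk (Additive.ofMul x)

theorem cl_mul (u x y : ℂˣ) : cl u (x * y) = cl u x + cl u y := rfl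

theorem cl_one (u : ℂˣ) : cl u 1 = 0 := rfl

theorem cl_zpow (u x : ℂˣ) (n : ℤ) : cl u (x ^ n) = n • cl u x := rfl

theorem cl_pow (u x : ℂˣ) (n : ℕ) : cl u (x ^ n) = (n : ℤ) • cl u x := by
  rw [← cl_zpow, zpow_natCast]

theorem cl_prod (u : ℂˣ) {ι : Type*} (s : Finset ι) (f : ι → ℂˣ) :
    cl u (∏ i ∈ s, f i) = ∑ i ∈ s, cl u (f i) := by
  classical
  induction s using Finset.induction_on with
  | empty => rfl
  | insert a s ha ih => rw [Finset.prod_insert ha, Finset.sum_insert ha, cl_mul, ih]

theorem cl_eq_zero (u x : ℂˣ) : cl u x = 0 ↔ ∃ m : ℤ, u ^ m = x := by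
  unfold cl
  rw [QuotientAddGroup.eq_zero_iff, AddSubgroup.mem_zmultiples_iff]
  rfl

theorem cl_self (u : ℂˣ) : cl u u = 0 := (cl_eq_zero u u).2 ⟨1, zpow_one u⟩

theorem linInd_iff {p : ℕ} (u : ℂˣ) (hu : (u : ℂ) = p) {n : ℕ} (v : Fin n → ℂˣ) :
    IsMultInd p (fun i => (v i : ℂ)) ↔ LinearIndependent ℤ fun i => cl u (v i) := by
  rw [Fintype.linearIndependent_iff]
  have key : ∀ e : Fin n → ℤ, ∑ i, e i • cl u (v i) = cl u (∏ i, v i ^ e i) := by
    intro e
    rw [cl_prod]
    rfl
  constructor
  · intro h e he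
    rw [key, cl_eq_zero] at he
    obtain ⟨m, hm⟩ := he
    refine h e m ?_
    have h1 := congrArg (fun z : ℂˣ => (z : ℂ)) hm
    simp only [Units.val_zpow_eq_zpow_val, Units.coe_prod, hu] at h1
    exact h1.symm
  · intro h e m hm
    refine h e ?_
    rw [key, cl_eq_zero]
    refine ⟨m, ?_⟩
    apply Units.ext
    simp only [Units.val_zpow_eq_zpow_val, Units.coe_prod, hu]
    exact hm.symm

/-- Elements with nonzero multiples in the span of finitely many elements. -/
theorem card_le_of_span {G : Type*} [AddCommGroup G] {n : ℕ} (g : Fin n → G)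
    (hg : LinearIndependent ℤ g) {ι : Type*} [Fintype ι] (f : ι → G)
    (h : ∀ i, ∃ b : ℤ, b ≠ 0 ∧ b • g i ∈ Submodule.span ℤ (Set.range f)) : n ≤ Fintype.card ι := by
  choose b hb hmem using h
  let P := Submodule.span ℤ (Set.range f)
  have : Module.Finite ℤ P := Module.Finite.span_of_finite ℤ (Set.finite_range f)
  let g' : Fin n → P := fun i => ⟨b i • g i, hmem i⟩
  have h1 : LinearIndependent ℤ g' := by
    have h2 : LinearIndependent ℤ fun i => b i • g i := by
      rw [Fintype.linearIndependent_iff] at hg ⊢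
      intro e he i
      have h3 := hg (fun i => e i * b i) (by simpa [mul_smul] using he) i
      exact (mul_eq_zero.1 h3).resolve_right (hb i)
    exact LinearIndependent.of_comp P.subtype h2
  have h2 := h1.fintype_card_le_finrank
  rw [Fintype.card_fin] at h2
  exact h2.trans (finrank_range_le_card (R := ℤ) f)

/-- If no `n` of finitely many elements are independent, no `n` elements which have nonzero multiples in
their span are. -/
theorem not_linInd_of_span {G : Type*} [AddCommGroup G] {n : ℕ} {ι : Type*} [Finite ι] (f : ι → G)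
    (hf : ∀ w : Fin n → ι, ¬ LinearIndependent ℤ fun k => f (w k)) (g : Fin n → G)
    (hg : ∀ i, ∃ b : ℤ, b ≠ 0 ∧ b • g i ∈ Submodule.span ℤ (Set.range f)) :
    ¬ LinearIndependent ℤ g := by
  classical
  intro hgi
  have := Fintype.ofFinite ι
  obtain ⟨s, hs, hmax⟩ := exists_maximal_linearIndepOn ℤ f
  let _ : Fintype s := Fintype.ofFinite s
  -- the set `s` has fewer than `n` elements
  have h1 : Fintype.card s < n := by
    by_contra hle
    rw [not_lt] at hle
    let u : Fin n → s := fun k => (Fintype.equivFin s).symm (Fin.castLE hle k)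
    have hu : Function.Injective u := fun a b hab =>
      Fin.castLE_injective hle ((Fintype.equivFin s).symm.injective hab)
    exact hf (fun k => (u k : ι)) (LinearIndependent.comp hs u hu)
  have h2 : ∀ i, ∃ a : ℤ, a ≠ 0 ∧ a • f i ∈ Submodule.span ℤ (Set.range fun x : s => f x) := by
    intro i
    have himg : f '' s = Set.range fun x : s => f x := by
      rw [Set.image_eq_range]
    by_cases hi : i ∈ s
    · exact ⟨1, one_ne_zero, by
        rw [one_smul]
        exact Submodule.subset_span ⟨⟨i, hi⟩, rfl⟩⟩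
    · obtain ⟨a, ha, h3⟩ := hmax i hi
      exact ⟨a, ha, himg ▸ h3⟩
  choose a ha hmem using h2
  let D : ℤ := ∏ i, a i
  have hD : D ≠ 0 := Finset.prod_ne_zero_iff.2 fun i _ => ha i
  have h3 : ∀ z ∈ Submodule.span ℤ (Set.range f),
      D • z ∈ Submodule.span ℤ (Set.range fun x : s => f x) := by
    intro z hz
    induction hz using Submodule.span_induction with
    | mem z hz =>
      obtain ⟨i, rfl⟩ := hz
      have h4 : D = (∏ k ∈ Finset.univ.erase i, a k) * a i :=
        (Finset.prod_erase_mul _ _ (Finset.mem_univ i)).symm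
      rw [h4, mul_smul]
      exact Submodule.smul_mem _ _ (hmem i)
    | zero => rw [smul_zero]; exact Submodule.zero_mem _
    | add x y _ _ hx hy => rw [smul_add]; exact Submodule.add_mem _ hx hy
    | smul c x _ hx => rw [smul_comm]; exact Submodule.smul_mem _ _ hx
  have h4 := card_le_of_span g hgi (fun x : s => f x) (fun i => by
    obtain ⟨b, hb, h5⟩ := hg i
    exact ⟨D * b, mul_ne_zero hD hb, by rw [mul_smul]; exact h3 _ h5⟩)
  omega

end

end Pool.Agent.T9h37.CT
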