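import Pool.Agent.T9h37.CT.Van
import Pool.Agent.T9h37.CT.RkLin
import Pool.Agent.T9h37.CT.Deg

/-!
# The criteria with the field, the degree and the rank
-/

set_option autoImplicit false
set_option linter.unusedSectionVars false
set_option linter.unusedVariables false

namespace Pool.Agent.T9h37.CT

open NumberField Pool.Agent.H204R3.CM Pool.Agent.W547.KB Pool.Agent.W547.LD Pool.Agent.W495.TA Module
  Pool.Agent.W495.TB Pool.Agent.W495.TC Pool.Agent.TH117.F5 Pool.Agent.TH117.BL Pool.Agent.Y137.SF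
  Pool.Agent.R937.CS Pool.Agent.R937.VS Pool.Agent.N522.VT
open Pool.Agent.Y137.TV (lam lam_ne_zero IsOddSupersingular)
open scoped TensorProduct

noncomputable section

section field

variable {p : ℕ} [Fact p.Prime] {ν : PadicAlgCl p ≃+* ℂ} {L : Type} [Field L] [NumberField L]

/-- The field criterion. -/
theorem mem_closure_of_rel {Ω : Type} [Field Ω] [CharZero Ω] (jO : L →+* Ω) {Y : RedAV p ν}
    {κ : Type} [Fintype κ] (I : κ → Wt Y.X L) {N s t : ℕ} {α : Ω}
    (h : (∏ k, lam jO (I k)) ^ s * α ^ t = (p : Ω) ^ N) :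
    α ^ t ∈ Subfield.closure {y : Ω | ∃ (i : Y.X.I) (z : (Y.X.factor i).E), IsImage z y} := by
  have hP : (∏ k, lam jO (I k)) ≠ 0 := Finset.prod_ne_zero_iff.2 fun k _ => lam_ne_zero jO (I k)
  have h1 : α ^ t = (p : Ω) ^ N * ((∏ k, lam jO (I k)) ^ s)⁻¹ := by
    rw [eq_mul_inv_iff_mul_eq₀ (pow_ne_zero _ hP), mul_comm]
    exact h
  rw [h1]
  refine Subfield.mul_mem _ ?_ (Subfield.inv_mem _ (Subfield.pow_mem _ ?_ s))
  · exact Subfield.pow_mem _ (natCast_mem _ p) N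
  · refine Subfield.prod_mem _ fun k _ => Subfield.subset_closure ?_
    exact ⟨(I k).1, Y.π (I k).1, jO.comp (I k).2, rfl⟩

/-- A root of the relation is in the compositum. -/
theorem mem_adjoin_of_rel {Y : RedAV p ν} {κ : Type} [Fintype κ] (I : κ → Wt Y.X L) {N s : ℕ} {y : L}
    (h : y * (∏ k, (I k).2 (Y.π (I k).1)) ^ s = (p : L) ^ N)
    (h0 : (∏ k, (I k).2 (Y.π (I k).1)) ≠ 0) :
    y ∈ IntermediateField.adjoin ℚ {y : L | ∃ (i : Y.X.I) (f : (Y.X.factor i).E →+* L)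
          (z : (Y.X.factor i).E), f z = y} := by
  have h1 : y = (p : L) ^ N * ((∏ k, (I k).2 (Y.π (I k).1)) ^ s)⁻¹ := by
    rw [eq_mul_inv_iff_mul_eq₀ (pow_ne_zero _ h0)]
    exact h
  rw [h1]
  refine mul_mem ?_ (inv_mem (pow_mem ?_ s))
  · exact pow_mem (natCast_mem _ p) N
  · refine prod_mem fun k _ => IntermediateField.subset_adjoin ℚ _ ?_
    exact ⟨(I k).1, (I k).2, Y.π (I k).1, rfl⟩

end field

section rank

variable {p : ℕ} [Fact p.Prime] {ν : PadicAlgCl p ≃+* ℂ}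

/-- The number `p` as a unit. -/
def pu (p : ℕ) [Fact p.Prime] : ℂˣ :=
  Units.mk0 (p : ℂ) (Nat.cast_ne_zero.2 (Fact.out : p.Prime).ne_zero)

/-- The pairs of a factor and a complex embedding. -/
abbrev CE (Y : RedAV p ν) : Type := Σ i, (Y.X.factor i).E →+* ℂ

theorem ev_ne_zero (Y : RedAV p ν) (w : CE Y) : w.2 (Y.π w.1) ≠ 0 := by
  intro h
  have h1 := (Y.frob w.1).weil w.2
  rw [h, norm_zero, zero_pow two_ne_zero] at h1
  have h2 : (p : ℝ) ≠ 0 := Nat.cast_ne_zero.2 (Fact.out : p.Prime).ne_zero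
  exact pow_ne_zero _ h2 h1.symm

/-- The Frobenius eigenvalues of `Y` as units. -/
def ce (Y : RedAV p ν) (w : CE Y) : ℂˣ := Units.mk0 (w.2 (Y.π w.1)) (ev_ne_zero Y w)

/-- Their classes modulo the powers of `p`. -/
def fY (Y : RedAV p ν) (w : CE Y) : GQ (pu p) := cl (pu p) (ce Y w)

theorem rankLt_iff (Y : RedAV p ν) (n : ℕ) :
    RankLt Y n ↔ ∀ w : Fin n → CE Y, ¬ LinearIndependent ℤ fun k => fY Y (w k) := by
  constructor
  · intro h w hw
    refine h (fun k => (w k).2 (Y.π (w k).1)) (fun k => ⟨(w k).1, (w k).2, rfl⟩) ?_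
    exact (linInd_iff (pu p) rfl fun k => ce Y (w k)).2 hw
  · intro h v hv hm
    choose i hi using hv
    choose f hf using hi
    obtain rfl : v = fun k => f k (Y.π (i k)) := funext fun k => (hf k).symm
    exact h (fun k => ⟨i k, f k⟩) ((linInd_iff (pu p) rfl fun k => ce Y ⟨i k, f k⟩).1 hm)

/-- The rank criterion. -/
theorem rank_contra {L : Type} [Field L] [NumberField L] [IsCMField L] [IsGalois ℚ L] (j : L →+* ℂ)
    {Y : RedAV p ν} {κ : Type} [Fintype κ] (I : κ → Wt Y.X L) {N s t n : ℕ} (ht : 0 < t)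
    {K : Type} [Field K] [NumberField K] (x : K) (hx : x ≠ 0) (y : L)
    (h : y * (∏ k, (I k).2 (Y.π (I k).1)) ^ s = (p : L) ^ N)
    (hmin : minpoly ℚ (x ^ t) = minpoly ℚ y) (hge : RankGe p n x) (hlt : RankLt Y n) : False := by
  rw [rankLt_iff] at hlt
  obtain ⟨v, hv, hψ⟩ := hge
  choose ψ hψv using hv
  obtain rfl : v = fun k => ψ k x := funext fun k => (hψv k).symm
  have hne : ∀ i, ψ i x ≠ 0 := fun i => (map_ne_zero (ψ i)).2 hx
  let X : Fin n → ℂˣ := fun i => Units.mk0 (ψ i x) (hne i)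
  have h1 : LinearIndependent ℤ fun i => cl (pu p) (X i) :=
    (linInd_iff (pu p) rfl X).1 hψ
  refine not_linInd_of_span (fY Y) hlt (fun i => cl (pu p) (X i)) (fun i => ?_) h1
  refine ⟨(t : ℤ), by exact_mod_cast ht.ne', ?_⟩
  obtain ⟨σ, hσ⟩ := exists_sigma j (x ^ t) y hmin (ψ i)
  let w : κ → CE Y := fun k => ⟨(I k).1, (j.comp (σ : L →+* L)).comp (I k).2⟩
  have h2 : X i ^ t * (∏ k, ce Y (w k)) ^ s = pu p ^ N := by
    apply Units.ext
    have h3 := congrArg (fun z => j (σ z)) h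
    simp only [map_mul, map_pow, map_prod, map_natCast] at h3
    rw [← hσ, map_pow] at h3
    simp only [Units.val_mul, Units.val_pow_eq_pow_val, Units.coe_prod]
    exact h3
  have h3 := congrArg (cl (pu p)) h2
  rw [cl_mul, cl_pow, cl_pow, cl_pow, cl_self, smul_zero, cl_prod] at h3
  have h4 : (t : ℤ) • cl (pu p) (X i) = -((s : ℤ) • ∑ k, fY Y (w k)) :=
    eq_neg_of_add_eq_zero_left h3
  rw [h4]
  exact Submodule.neg_mem _ (Submodule.smul_mem _ _ (Submodule.sum_mem _ fun k _ =>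
    Submodule.subset_span ⟨w k, rfl⟩))

theorem fY_conj (Y : RedAV p ν) (i : Y.X.I) (φ : (Y.X.factor i).E →+* ℂ) :
    fY Y ⟨i, φ⟩ + fY Y ⟨i, ComplexEmbedding.conjugate φ⟩ = 0 := by
  unfold fY
  rw [← cl_mul, cl_eq_zero]
  refine ⟨(Y.a : ℤ), ?_⟩
  apply Units.ext
  rw [zpow_natCast]
  simp only [Units.val_mul, Units.val_pow_eq_pow_val]
  change (p : ℂ) ^ Y.a = φ (Y.π i) * (starRingEnd ℂ) (φ (Y.π i))
  rw [Complex.mul_conj, Complex.normSq_eq_norm_sq, (Y.frob i).weil φ]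
  push_cast
  rfl

/-- The rank of `Y` is at most the sum of the dimensions of its nonisogenous factors which are not
supersingular. -/
theorem rankLt_of (Y : RedAV p ν) (n : ℕ) (h : DimLt Y n) : RankLt Y n := by
  classical
  obtain ⟨S, hS, hn⟩ := h
  unfold fdeg at hn
  rw [rankLt_iff]
  intro w hw
  let f : (Σ k : S, InfinitePlace (Y.X.factor k).E) → GQ (pu p) :=
    fun v => fY Y ⟨v.1, v.2.embedding⟩
  have hk : ∀ (k : S) (φ : (Y.X.factor k).E →+* ℂ),
      fY Y ⟨k, φ⟩ ∈ Submodule.span ℤ (Set.range f) := by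
    intro k φ
    have h1 : fY Y ⟨k, (InfinitePlace.mk φ).embedding⟩ ∈ Submodule.span ℤ (Set.range f) :=
      Submodule.subset_span ⟨⟨k, InfinitePlace.mk φ⟩, rfl⟩
    rcases InfinitePlace.embedding_mk_eq φ with h | h
    · rw [h] at h1
      exact h1
    · rw [h] at h1
      have h2 : fY Y ⟨k, φ⟩ = -fY Y ⟨k, ComplexEmbedding.conjugate φ⟩ :=
        eq_neg_of_add_eq_zero_left (fY_conj Y k φ)
      rw [h2]
      exact Submodule.neg_mem _ h1
  have h1 := card_le_of_span (fun k => fY Y (w k)) hw f (fun m => by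
    obtain ⟨i, ψ⟩ := w m
    rcases hS i with ⟨s, hs, h⟩ | ⟨k, hkS, e, s, hs, h⟩
    · refine ⟨((2 * s : ℕ) : ℤ), by exact_mod_cast (by omega), ?_⟩
      have h2 : ce Y ⟨i, ψ⟩ ^ (2 * s) = pu p ^ (Y.a * s) := by
        apply Units.ext
        have h3 := congrArg ψ h
        simp only [map_pow, map_natCast] at h3
        simp only [Units.val_pow_eq_pow_val]
        rw [pow_mul (pu p : ℂ)]
        exact h3
      have h3 := congrArg (cl (pu p)) h2
      rw [cl_pow, cl_pow, cl_self, smul_zero] at h3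
      change ((2 * s : ℕ) : ℤ) • cl (pu p) (ce Y ⟨i, ψ⟩) ∈ _
      rw [h3]
      exact Submodule.zero_mem _
    · refine ⟨(s : ℤ), by exact_mod_cast hs.ne', ?_⟩
      let φ : (Y.X.factor k).E →+* ℂ := ψ.comp (e.symm : (Y.X.factor k).E →+* (Y.X.factor i).E)
      have h2 : ce Y ⟨i, ψ⟩ ^ s = ce Y ⟨k, φ⟩ ^ s := by
        apply Units.ext
        simp only [Units.val_pow_eq_pow_val]
        change ψ (Y.π i) ^ s = ψ (e.symm (Y.π k)) ^ s
        rw [← map_pow, ← map_pow, ← map_pow, ← h, RingEquiv.symm_apply_apply]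
      have h3 := congrArg (cl (pu p)) h2
      rw [cl_pow, cl_pow] at h3
      change (s : ℤ) • cl (pu p) (ce Y ⟨i, ψ⟩) ∈ _
      rw [h3]
      exact Submodule.smul_mem _ _ (hk ⟨k, hkS⟩ φ))
  have h2 : 2 * Fintype.card (Σ k : S, InfinitePlace (Y.X.factor k).E) =
      ∑ i ∈ S, finrank ℚ (Y.X.factor i).E := by
    rw [Fintype.card_sigma, Finset.mul_sum, ← Finset.sum_coe_sort S]
    refine Finset.sum_congr rfl fun k _ => ?_
    have h3 := IsTotallyComplex.finrank (Y.X.factor k).E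
    rw [h3, InfinitePlace.card_eq_nrRealPlaces_add_nrComplexPlaces,
      IsTotallyComplex.nrRealPlaces_eq_zero, zero_add]
  omega

end rank

section main

variable {p : ℕ} [Fact p.Prime] {ν : PadicAlgCl p ≃+* ℂ}

/-- **The relations with an eigenvalue which is separated by its field, degree or rank.** -/
theorem vanish_rk {Ω : Type} [Field Ω] [CharZero Ω] {Y : RedAV p ν} {a b : ℕ} (ha : 0 < a) {α : Ω}
    (hsep : IsSepRk Y a b α) : Vanish Y a b α := by
  intro L _ _ _ _ j jO hY κ _ I s t c hs ht hst hα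
  obtain ⟨K, _, _, ι, x, rfl, hweil, hcases⟩ := hsep
  have hx0 : x ≠ 0 := by
    rintro rfl
    obtain ⟨ψ⟩ : Nonempty (K →+* ℂ) := inferInstance
    have h1 := hweil ψ
    rw [map_zero, norm_zero, zero_pow two_ne_zero] at h1
    have h2 : (p : ℝ) ≠ 0 := Nat.cast_ne_zero.2 (Fact.out : p.Prime).ne_zero
    exact pow_ne_zero _ h2 h1.symm
  rcases hcases with h | ⟨ℓ, hℓ, h2, hdeg, hdim⟩ | ⟨n, hge, hlt⟩ | ⟨hodd, h0⟩
  · exact absurd (mem_closure_of_rel jO I hα) (h t ht)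
  · exfalso
    obtain ⟨y, hyβ, hβ0, hy, hmin, hcard, hsl⟩ := slopes_rel j jO hY I ha ht hst ι x hα hweil
    refine degree_ndvd j (fun i => (Y.X.factor i).E) hℓ h2 hdim y (mem_adjoin_of_rel I hyβ hβ0) ?_
    rw [← hmin]
    exact hdeg t ht
  · exfalso
    obtain ⟨y, hyβ, hβ0, hy, hmin, hcard, hsl⟩ := slopes_rel j jO hY I ha ht hst ι x hα hweil
    exact rank_contra j I ht x hx0 y hyβ hmin hge hlt
  · have hsep' : IsSep Y a b (ι x) := by
      refine ⟨K, inferInstance, inferInstance, ι, x, rfl, hweil, Or.inr ⟨hodd, Or.inl ?_⟩⟩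
      exact h0
    exact vanish_gen j jO hY I ha hs ht hst hα hsep'

end main

end

end Pool.Agent.T9h37.CT
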