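import Pool.Agent.T9h37.CT.Defs
import Pool.Agent.W517.K3.Defs
import Pool.Agent.Y138.KC.Defs

/-!
# Frobenius eigenvalues which are separated from an abelian variety by their rank or their degree:
# definitions
-/

set_option autoImplicit false

namespace Pool.Agent.T9h37.CT

open Module Pool.Agent.W547.KB Pool.Agent.W495.TA Pool.Agent.R937.VS Pool.Agent.W517.K3
  Pool.Agent.Y138.KC
open Pool.Agent.Y137.TV (IsOddSupersingular)
open Pool.Agent.W495.TC (IsSupersingular IsIsogenous)

noncomputable section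

/-- The complex numbers `v i`, `i < n`, and `p` are multiplicatively independent. -/
def IsMultInd (p : ℕ) {n : ℕ} (v : Fin n → ℂ) : Prop :=
  ∀ (e : Fin n → ℤ) (m : ℤ), ∏ i, v i ^ e i = (p : ℂ) ^ m → ∀ i, e i = 0

/-- The element `y` is the image of `x` under an embedding of fields. -/
def IsImage {E F : Type} [Field E] [Field F] (x : E) (y : F) : Prop := ∃ f : E →+* F, f x = y

/-- The rank of the algebraic number `x` is at least `n`: some `n` of its conjugates are
multiplicatively independent, together with `p`. -/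
def RankGe (p n : ℕ) {K : Type} [Field K] (x : K) : Prop :=
  ∃ v : Fin n → ℂ, (∀ k, IsImage x (v k)) ∧ IsMultInd p v

/-- The rank of the abelian variety `Y` is smaller than `n`: no `n` Frobenius eigenvalues on its first
cohomology are multiplicatively independent, together with `p`. -/
def RankLt {p : ℕ} [Fact p.Prime] {ν : PadicAlgCl p ≃+* ℂ} (Y : RedAV p ν) (n : ℕ) : Prop :=
  ∀ v : Fin n → ℂ, (∀ k, ∃ i, IsImage (Y.π i) (v k)) → ¬ IsMultInd p v

/-- The degree of the CM field of the factor `i` of `Y`: two times the dimension of the factor. -/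
def fdeg {p : ℕ} [Fact p.Prime] {ν : PadicAlgCl p ≃+* ℂ} (Y : RedAV p ν) (i : Y.X.I) : ℕ :=
  finrank ℚ (Y.X.factor i).E

/-- The eigenvalue `α` of the Frobenius endomorphism on `H^b(V)`, `V` a variety over the field with
`p ^ a` elements, is the image of a number `x` in a number field, all conjugates of `x` have the absolute
value `p ^ (a b / 2)` (Deligne), and one of the following holds:

* no power of `α` is in the field generated by the images of the CM fields of the factors of `Y`;
* for some odd prime number `ℓ` the degrees of all powers of `x` over `ℚ` are divisible by `ℓ`, and the factors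
  of `Y` have dimensions smaller than `ℓ`;
* the rank of `x` is greater than the rank of `Y`;
* all slopes of the conjugates of `x` are equal to `b / 2`, and `α` is not of supersingular type if `b` is
  odd. -/
def IsSepRk {p : ℕ} [Fact p.Prime] {ν : PadicAlgCl p ≃+* ℂ} {Ω : Type} [Field Ω] [CharZero Ω]
    (Y : RedAV p ν) (a b : ℕ) (α : Ω) : Prop :=
  ∃ (K : Type) (_ : Field K) (_ : NumberField K) (ι : K →+* Ω) (x : K), ι x = α ∧
    (∀ ψ : K →+* ℂ, ‖ψ x‖ ^ 2 = (p : ℝ) ^ (a * b)) ∧
    ((∀ n : ℕ, 0 < n →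
        α ^ n ∉ Subfield.closure {y : Ω | ∃ (i : Y.X.I) (z : (Y.X.factor i).E), IsImage z y}) ∨
      (∃ ℓ : ℕ, ℓ.Prime ∧ ℓ ≠ 2 ∧ (∀ n : ℕ, 0 < n → ℓ ∣ (minpoly ℚ (x ^ n)).natDegree) ∧
        ∀ i, fdeg Y i < 2 * ℓ) ∨
      (∃ n : ℕ, RankGe p n x ∧ RankLt Y n) ∨
      ((Odd b → ¬ IsOddSupersingular ((p : Ω) ^ a) α) ∧
        ∀ ψ : K →+* ℂ, 2 * slope p ν a (ψ x) = b))

/-- All eigenvalues of Frobenius on the cohomology of `V` are separated from `Y` by their rank or
degree. -/
def AllSepRk {p : ℕ} [Fact p.Prime] {ν : PadicAlgCl p ≃+* ℂ} {K : Type} [Field K] (Ω : Type)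
    [Field Ω] [CharZero Ω] [Algebra K Ω] (Y : RedAV p ν) (N : ℕ) {M : ℕ → Type}
    [∀ b, AddCommGroup (M b)] [∀ b, Module K (M b)] (φ : ∀ b, M b →ₗ[K] M b) : Prop :=
  ∀ b α, End.HasEigenvalue ((φ b).baseChange Ω) α → IsSepRk Y N b α

/-- The cohomology `M b = H^b(V)` of the variety `V` over the field with `p ^ N` elements is of the type of a
K3 surface of finite height (or of the product of a K3 surface with varieties whose cohomology is algebraic,
a cubic fourfold and so on) with the Frobenius number `α ∈ E`: the eigenvalues `μ` of the linear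
Frobenius endomorphism on `H^b(V)` exist only for even `b = 2 w`, and they are the products of `p ^ (N w)` by a
root of unity or by a root of degree `e` of a conjugate of `α` (so over the extension of degree `e` of the
field they are the products of `p ^ (N e w)` and of conjugates of `α`). -/
structure IsK3Type (p N : ℕ) {K : Type} [Field K] (Ω : Type) [Field Ω] [CharZero Ω] [Algebra K Ω]
    {M : ℕ → Type} [∀ b, AddCommGroup (M b)] [∀ b, Module K (M b)] (φ : ∀ b, M b →ₗ[K] M b)
    {E : Type} [Field E] (e : ℕ) (α : E) : Prop where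
  pos : 0 < e
  eigenvalue : ∀ b μ, End.HasEigenvalue ((φ b).baseChange Ω) μ → ∃ w : ℕ, b = 2 * w ∧
    ((∃ s : ℕ, 0 < s ∧ μ ^ s = (p : Ω) ^ (N * w * s)) ∨
      ∃ σ : E →+* Ω, μ ^ e = (p : Ω) ^ (N * w * e) * σ α)

/-- The sum of the dimensions of representatives `k ∈ S` of the isogeny classes of the factors of `Y`
which are not supersingular is smaller than `n`. (Each class is counted only once.) -/
def DimLt {p : ℕ} [Fact p.Prime] {ν : PadicAlgCl p ≃+* ℂ} (Y : RedAV p ν) (n : ℕ) : Prop :=
  ∃ S : Finset Y.X.I, (∀ i, IsSupersingular Y i ∨ ∃ k ∈ S, IsIsogenous Y i k) ∧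
    ∑ k ∈ S, fdeg Y k < 2 * n

/-- The cohomology `M b = H^b(V)` of `V` is of the type of a K3 surface of finite height with the
Frobenius number `α`, `[ℚ(α) : ℚ] = 2 d`, of the local degree `m`, and one of the following holds:

* an odd prime number `ℓ` divides `d`, and the factors of `Y` have dimensions smaller than `ℓ`;
* `d ≤ 10`, `m` is odd, `(d, m)` is not one of four exceptional pairs, and the sum of the dimensions of the
  nonisogenous factors of `Y` which are not supersingular is smaller than `d`. -/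
def IsK3Sep {p : ℕ} [Fact p.Prime] {ν : PadicAlgCl p ≃+* ℂ} {K : Type} [Field K] (Ω : Type)
    [Field Ω] [CharZero Ω] [Algebra K Ω] (Y : RedAV p ν) (N : ℕ) {M : ℕ → Type}
    [∀ b, AddCommGroup (M b)] [∀ b, Module K (M b)] (φ : ∀ b, M b →ₗ[K] M b) : Prop :=
  ∃ (a d e : ℕ) (E : Type) (_ : Field E) (_ : NumberField E) (α : E), IsK3Frobenius p a α ∧
    finrank ℚ E = 2 * d ∧ IsK3Type p N Ω φ e α ∧
      ((∃ ℓ : ℕ, ℓ.Prime ∧ ℓ ≠ 2 ∧ ℓ ∣ d ∧ ∀ i, fdeg Y i < 2 * ℓ) ∨
        (d ≤ 10 ∧ Odd (localDegree p α) ∧ (d, localDegree p α) ∉ exceptionalOddPairs ∧ DimLt Y d))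

end

end Pool.Agent.T9h37.CT
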