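import Pool.Agent.T9h37.CT.RkDefs
import Pool.Agent.Y138.KC.Link

/-!
# The rank of the Frobenius numbers of K3 surfaces of odd height
-/

set_option autoImplicit false
set_option linter.unusedSectionVars false

namespace Pool.Agent.T9h37.CT

open NumberField Module Pool.Agent.TH121.KT Pool.Agent.W517.K3 Pool.Agent.Y138.KC

noncomputable section

/-- **The conjugates of a Frobenius number of a K3 surface of odd height are multiplicatively
independent.** -/
theorem k3_rank {p a : ℕ} [Fact p.Prime] {E : Type} [Field E] [NumberField E] (α : E)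
    (hα : IsK3Frobenius p a α) {d : ℕ} (hd : finrank ℚ E = 2 * d) (hd10 : d ≤ 10)
    (hodd : Odd (localDegree p α)) (hex : (d, localDegree p α) ∉ exceptionalOddPairs) :
    RankGe p d ((p : E) ^ a * α) := by
  classical
  have hcm : IsCMField E := hα.cm
  have hp : p.Prime := Fact.out
  have hcard : Fintype.card (InfinitePlace E) = d := by
    have h1 := IsTotallyComplex.finrank E
    rw [InfinitePlace.card_eq_nrRealPlaces_add_nrComplexPlaces,
      IsTotallyComplex.nrRealPlaces_eq_zero, zero_add]
    omega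
  let e := Fintype.equivFinOfCardEq hcard
  let ψ : Fin d → (E →+* ℂ) := fun k => (e.symm k).embedding
  refine ⟨fun k => ψ k ((p : E) ^ a * α), fun k => ⟨ψ k, rfl⟩, fun ex m hm => ?_⟩
  -- embeddings in the algebraic numbers
  let c : Qb →+* ℂ := (IsAlgClosed.lift : Qb →ₐ[ℚ] ℂ).toRingHom
  let ι : Qb →+* PadicAlgCl p := (IsAlgClosed.lift : Qb →ₐ[ℚ] PadicAlgCl p).toRingHom
  have hbij : Function.Bijective fun σ : E →+* Qb => c.comp σ := by
    rw [Fintype.bijective_iff_injective_and_card]
    refine ⟨fun σ τ h => ?_, ?_⟩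
    · ext x
      exact c.injective (RingHom.congr_fun h x)
    · rw [Embeddings.card, Embeddings.card]
  choose σ hσ using fun k => hbij.2 (ψ k)
  have hσψ : ∀ k x, c (σ k x) = ψ k x := fun k x => RingHom.congr_fun (hσ k) x
  have hα0 : α ≠ 0 := by
    rintro rfl
    have := hα.unitary (ψ (e (Classical.arbitrary _)))
    rw [map_zero, norm_zero] at this
    exact zero_ne_one this
  have hp0 : (p : ℂ) ≠ 0 := Nat.cast_ne_zero.2 hp.ne_zero
  -- the relation without powers of `p`
  have h1 : ∏ k, ψ k α ^ ex k = 1 := by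
    have h2 : ∏ k, ψ k ((p : E) ^ a * α) ^ ex k =
        (∏ k, ((p : ℂ) ^ a) ^ ex k) * ∏ k, ψ k α ^ ex k := by
      rw [← Finset.prod_mul_distrib]
      refine Finset.prod_congr rfl fun k _ => ?_
      rw [map_mul, map_pow, map_natCast, mul_zpow]
    have h3' : ∀ s : Finset (Fin d), ∏ k ∈ s, ((p : ℂ) ^ a) ^ ex k =
        (p : ℂ) ^ ((a : ℤ) * ∑ k ∈ s, ex k) := by
      intro s
      induction s using Finset.induction_on with
      | empty => simp
      | insert b s hb ih =>
        rw [Finset.prod_insert hb, Finset.sum_insert hb, ih, mul_add, zpow_add₀ hp0]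
        congr 1
        rw [zpow_mul, zpow_natCast]
    have h3 := h3' Finset.univ
    rw [h2, h3] at hm
    have h4 : ∏ k, ψ k α ^ ex k = (p : ℂ) ^ (m - (a : ℤ) * ∑ k, ex k) := by
      rw [zpow_sub₀ hp0, eq_div_iff (zpow_ne_zero _ hp0), mul_comm]
      exact hm
    have h5 : ‖∏ k, ψ k α ^ ex k‖ = 1 := by
      rw [norm_prod]
      refine Finset.prod_eq_one fun k _ => ?_
      rw [norm_zpow, hα.unitary, one_zpow]
    rw [h4, norm_zpow, Complex.norm_natCast] at h5
    have h6 : m - (a : ℤ) * ∑ k, ex k = 0 := by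
      have h7 : (1 : ℝ) < p := by exact_mod_cast hp.one_lt
      exact (zpow_eq_one_iff_right₀ (by positivity) h7.ne').1 h5
    rw [h4, h6, zpow_zero]
  have h2 : ∏ k, σ k α ^ ex k = 1 := by
    apply c.injective
    rw [map_prod, map_one, ← h1]
    refine Finset.prod_congr rfl fun k _ => ?_
    rw [map_zpow₀, hσψ]
  -- the odd function
  let X : (E →+* Qb) → ℤ := fun τ =>
    (∑ k, if τ = σ k then ex k else 0) - ∑ k, if cj τ = σ k then ex k else 0
  have hX : ∀ τ, X (cj τ) = - X τ := by
    intro τ
    change (∑ k, if cj τ = σ k then ex k else 0) - (∑ k, if cj (cj τ) = σ k then ex k else 0) = _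
    rw [cj_cj]
    change _ = -(_ - _)
    ring
  let N : (E →+* Qb) → ℕ := fun τ => (X τ).toNat
  have hodd' : ∀ τ, TH121.KT.odd N τ = X τ := by
    intro τ
    unfold TH121.KT.odd
    change ((X τ).toNat : ℤ) - ((X (cj τ)).toNat : ℤ) = X τ
    rw [hX]
    exact Int.toNat_sub_toNat_neg (X τ)
  have hrel : ∀ g : GQ, ∑ τ : E →+* Qb, (N τ : ℝ) * Real.log ‖ι (g (τ α))‖ = 0 := by
    intro g
    have h3 := two_FF (ι := ι) hα.unitary N g
    have h4 : ∑ τ : E →+* Qb, (TH121.KT.odd N τ : ℝ) * Real.log ‖ι (g (τ α))‖ = 0 := by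
      have h5 : ∀ τ : E →+* Qb, Real.log ‖ι (g (cj τ α))‖ = - Real.log ‖ι (g (τ α))‖ := by
        intro τ
        have h6 : ‖ι (g (cj τ α))‖ = ‖ι (g (τ α))‖⁻¹ := cj_norm (ι := ι) hα.unitary (act g τ)
        rw [h6, Real.log_inv]
      have h6 : ∑ k, (ex k : ℝ) * Real.log ‖ι (g (σ k α))‖ = 0 := by
        have h7 := congrArg (fun z => Real.log ‖ι (g z)‖) h2
        simp only [map_prod, map_zpow₀, map_one, norm_prod, norm_zpow, norm_one, Real.log_one] at h7
        rw [Real.log_prod] at h7
        · rw [← h7]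
          exact Finset.sum_congr rfl fun k _ => (Real.log_zpow _ _).symm
        · intro k _
          refine zpow_ne_zero _ ?_
          rw [norm_ne_zero_iff]
          exact (map_ne_zero ι).2 ((map_ne_zero g).2 ((map_ne_zero (σ k)).2 hα0))
      have h7 : ∑ τ : E →+* Qb, ((∑ k, if τ = σ k then ex k else 0 : ℤ) : ℝ) *
          Real.log ‖ι (g (τ α))‖ = 0 := by
        rw [← h6]
        push_cast
        simp_rw [Finset.sum_mul]
        rw [Finset.sum_comm]
        refine Finset.sum_congr rfl fun k _ => ?_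
        rw [Finset.sum_eq_single (σ k)]
        · rw [if_pos rfl]
        · intro τ _ hτ
          rw [if_neg hτ, zero_mul]
        · intro h
          exact absurd (Finset.mem_univ _) h
      have h8 : ∑ τ : E →+* Qb, ((∑ k, if cj τ = σ k then ex k else 0 : ℤ) : ℝ) *
          Real.log ‖ι (g (τ α))‖ = 0 := by
        rw [← neg_eq_zero, ← h7, ← Finset.sum_neg_distrib]
        refine Fintype.sum_equiv ⟨cj, cj, cj_cj, cj_cj⟩ _ _ fun τ => ?_
        change _ = ((∑ k, if cj τ = σ k then ex k else 0 : ℤ) : ℝ) * Real.log ‖ι (g (cj τ α))‖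
        rw [h5]
        ring
      have h9 : ∀ τ : E →+* Qb, (TH121.KT.odd N τ : ℝ) * Real.log ‖ι (g (τ α))‖ =
          ((∑ k, if τ = σ k then ex k else 0 : ℤ) : ℝ) * Real.log ‖ι (g (τ α))‖ -
          ((∑ k, if cj τ = σ k then ex k else 0 : ℤ) : ℝ) * Real.log ‖ι (g (τ α))‖ := by
        intro τ
        rw [hodd']
        change (((_ : ℤ) - _ : ℤ) : ℝ) * _ = _
        push_cast
        ring
      rw [Finset.sum_congr rfl fun τ _ => h9 τ, Finset.sum_sub_distrib, h7, h8, sub_zero]
    rw [h4] at h3
    unfold FF at h3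
    linarith
  have hbal := balanced_emb hα hd rfl (n := ∑ τ, N τ) ⟨hd10, Or.inr ⟨hodd, hex⟩⟩ ι N le_rfl hrel
  intro k
  have h3 : X (σ k) = 0 := by
    rw [← hodd']
    unfold TH121.KT.odd
    rw [hbal (σ k)]
    exact sub_self _
  have hinj : ∀ l, σ k = σ l → k = l := by
    intro l h
    have h4 : ψ k = ψ l := by rw [← hσ k, ← hσ l]; exact congrArg _ h
    have h5 : e.symm k = e.symm l := by
      have h6 := congrArg InfinitePlace.mk h4
      rwa [InfinitePlace.mk_embedding, InfinitePlace.mk_embedding] at h6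
    exact e.symm.injective h5
  have hcross : ∀ l, cj (σ k) ≠ σ l := by
    intro l h
    have h4 : ComplexEmbedding.conjugate (ψ k) = ψ l := by
      ext x
      rw [← hσψ l x, ← h]
      change starRingEnd ℂ (ψ k x) = c (σ k (IsCMField.complexConj E x))
      rw [hσψ]
      exact (IsCMField.complexEmbedding_complexConj E (ψ k) x).symm
    have h5 : e.symm k = e.symm l := by
      have h6 := congrArg InfinitePlace.mk h4
      rwa [InfinitePlace.mk_conjugate_eq, InfinitePlace.mk_embedding,
        InfinitePlace.mk_embedding] at h6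
    have h6 : k = l := e.symm.injective h5
    subst h6
    exact IsTotallyComplex.complexEmbedding_not_isReal (ψ k) h4
  have h4 : X (σ k) = ex k := by
    change (∑ l, if σ k = σ l then ex l else 0) - (∑ l, if cj (σ k) = σ l then ex l else 0) = _
    rw [Finset.sum_eq_single k, if_pos rfl, Finset.sum_eq_zero, sub_zero]
    · intro l _
      rw [if_neg (hcross l)]
    · intro l _ hl
      rw [if_neg fun h => hl (hinj l h).symm]
    · intro h
      exact absurd (Finset.mem_univ _) h
  rw [← h4]
  exact h3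

end

end Pool.Agent.T9h37.CT
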