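import Pool.Agent.N522.VT.Main
import Pool.Agent.T9h37.CT.Defs

/-!
# Tate classes on the product of an arbitrary abelian variety and an arbitrary variety over a finite field:
# separated Frobenius eigenvalues
-/

set_option autoImplicit false
set_option linter.unusedSectionVars false
set_option linter.unusedVariables false

namespace Pool.Agent.T9h37.CT

open NumberField Pool.Agent.H204R3.CM Pool.Agent.W547.KB Pool.Agent.W547.LD Pool.Agent.W495.TA Module
  Pool.Agent.W495.TB Pool.Agent.W495.TC Pool.Agent.TH117.F5 Pool.Agent.TH117.BL Pool.Agent.Y137.SF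
  Pool.Agent.R937.CS Pool.Agent.R937.VS Pool.Agent.N522.VT
open Pool.Agent.Y137.TV (tens tens_apply lam lam_ne_zero mono_F expandM lam_tau IsIndependent
  IsOddSupersingular)
open scoped TensorProduct

noncomputable section


section slopes

variable {p : ℕ} [Fact p.Prime] {ν : PadicAlgCl p ≃+* ℂ}
  {L : Type} [Field L] [NumberField L] [IsCMField L] [IsGalois ℚ L] (j : L →+* ℂ)

/-- The slopes of the conjugates of an eigenvalue which occurs in a Tate class are in the group of the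
slopes of `Y`. -/
theorem slope_mem {Ω : Type} [Field Ω] [CharZero Ω] (jO : L →+* Ω) {Y : RedAV p ν} (hY : Big Y.X j)
    {κ : Type} [Fintype κ]
    (I : κ → Wt Y.X L) {a b s t c : ℕ} (ha : 0 < a) (hs : 0 < s) (ht : 0 < t)
    (hst : Y.a * s = a * t) {K : Type} [Field K] [NumberField K] (ι : K →+* Ω) (x : K)
    (hα : (∏ k, lam jO (I k)) ^ s * (ι x) ^ t = (p : Ω) ^ (a * t * c))
    (hweil : ∀ ψ : K →+* ℂ, ‖ψ x‖ ^ 2 = (p : ℝ) ^ (a * b)) (ψ : K →+* ℂ) :
    slope p ν a (ψ x) ∈ SlopeGroup Y := by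
  classical
  have hp : p.Prime := Fact.out
  obtain ⟨y, hyβ, hβ0, hy, hmin, hcard, hsl⟩ := slopes_rel j jO hY I ha ht hst ι x hα hweil
  obtain ⟨σ, hσ⟩ := exists_sigma j (x ^ t) y hmin ψ
  set lp : ℝ := Real.log ‖(p : PadicAlgCl p)‖ with hlp
  have hlp0 : lp ≠ 0 := (Real.log_neg norm_p_pos norm_p_lt).ne
  have ha0 : (a : ℝ) ≠ 0 := by exact_mod_cast ha.ne'
  have ht0 : (t : ℝ) ≠ 0 := by exact_mod_cast ht.ne'
  have hYa : (Y.a : ℝ) ≠ 0 := by exact_mod_cast Y.pos.ne'
  have hlq : Real.log ‖(p : PadicAlgCl p) ^ a‖ = a * lp := by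
    rw [norm_pow, Real.log_pow]
  have hlY : Real.log ‖(p : PadicAlgCl p) ^ Y.a‖ = Y.a * lp := by
    rw [norm_pow, Real.log_pow]
  have hne : ∀ k, (I k).2 (Y.π (I k).1) ≠ 0 := fun k h =>
    hβ0 (Finset.prod_eq_zero (Finset.mem_univ k) h)
  have hp0 : (p : L) ≠ 0 := Nat.cast_ne_zero.2 hp.ne_zero
  have hy0 : y ≠ 0 := by
    rintro rfl
    rw [zero_mul] at hyβ
    exact pow_ne_zero _ hp0 hyβ.symm
  -- the logarithm of the relation
  have h1 := congrArg (fun z => Real.log ‖ν.symm (j (σ z))‖) hyβ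
  simp only [map_mul, map_pow, map_natCast, norm_mul, norm_pow, map_prod] at h1
  have hn1 : ‖ν.symm (j (σ y))‖ ≠ 0 := by
    rw [norm_ne_zero_iff]
    exact (map_ne_zero ν.symm).2 ((map_ne_zero j).2 ((map_ne_zero σ).2 hy0))
  have hn2 : ∀ k, ‖ν.symm (j (σ ((I k).2 (Y.π (I k).1))))‖ ≠ 0 := fun k => by
    rw [norm_ne_zero_iff]
    exact (map_ne_zero ν.symm).2 ((map_ne_zero j).2 ((map_ne_zero σ).2 (hne k)))
  rw [norm_prod, Real.log_mul hn1 (pow_ne_zero _ (Finset.prod_ne_zero_iff.2 fun k _ => hn2 k)),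
    Real.log_pow, Real.log_pow, Real.log_prod (fun k _ => hn2 k), ← hlp] at h1
  -- the slopes
  have h2 : ∀ k, Real.log ‖ν.symm (j (σ ((I k).2 (Y.π (I k).1))))‖ =
      slope p ν Y.a ((j.comp ((σ : L →+* L).comp (I k).2)) (Y.π (I k).1)) * (Y.a * lp) := by
    intro k
    unfold Pool.Agent.R937.VS.slope
    rw [hlY]
    rw [div_mul_cancel₀ _ (mul_ne_zero hYa hlp0)]
    rfl
  have h3 : Real.log ‖ν.symm (j (σ y))‖ = slope p ν a (ψ x) * (t * (a * lp)) := by
    unfold Pool.Agent.R937.VS.slope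
    rw [hlq, ← hσ, map_pow, map_pow, norm_pow, Real.log_pow]
    field_simp
  rw [h3, Finset.sum_congr rfl fun k _ => h2 k, ← Finset.sum_mul] at h1
  set S : ℝ := ∑ k, slope p ν Y.a ((j.comp ((σ : L →+* L).comp (I k).2)) (Y.π (I k).1)) with hS
  have hst' : (Y.a : ℝ) * s = a * t := by exact_mod_cast hst
  have h4 : slope p ν a (ψ x) = c - S := by
    have h5 : (slope p ν a (ψ x) - (c - S)) * (t * (a * lp)) = 0 := by
      have h6 : (s : ℝ) * (S * (Y.a * lp)) = S * (t * (a * lp)) := by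
        calc (s : ℝ) * (S * (Y.a * lp)) = S * lp * (Y.a * s) := by ring
          _ = S * lp * (a * t) := by rw [hst']
          _ = _ := by ring
      rw [h6] at h1
      push_cast at h1
      linarith
    have h6 : (t : ℝ) * (a * lp) ≠ 0 := mul_ne_zero ht0 (mul_ne_zero ha0 hlp0)
    have := (mul_eq_zero.1 h5).resolve_right h6
    linarith
  rw [h4]
  have hmem : ∀ k, slope p ν Y.a ((j.comp ((σ : L →+* L).comp (I k).2)) (Y.π (I k).1)) ∈
      SlopeGroup Y := fun k => AddSubgroup.subset_closure (Or.inr ⟨(I k).1, _, rfl⟩)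
  refine AddSubgroup.sub_mem _ ?_ (AddSubgroup.sum_mem _ fun k _ => hmem k)
  have h7 : (c : ℝ) = c • (1 : ℝ) := by rw [nsmul_eq_mul, mul_one]
  have h8 : (1 : ℝ) ∈ SlopeGroup Y := AddSubgroup.subset_closure (Or.inl rfl)
  rw [h7]
  exact nsmul_mem h8 c

/-- **The relations with a separated eigenvalue.** -/
theorem vanish_gen {Ω : Type} [Field Ω] [CharZero Ω] (jO : L →+* Ω) {Y : RedAV p ν} (hY : Big Y.X j)
    {κ : Type} [Fintype κ] (I : κ → Wt Y.X L) {a b s t c : ℕ} (ha : 0 < a) (hs : 0 < s) (ht : 0 < t)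
    (hst : Y.a * s = a * t) {α : Ω}
    (hα : (∏ k, lam jO (I k)) ^ s * α ^ t = (p : Ω) ^ (a * t * c)) (hsep : IsSep Y a b α) :
    b + Fintype.card κ = 2 * c ∧ (∀ σ, ∑ k, tf p ν j (St j (I k)) σ = 0) ∧
      (Odd b → ¬ IsOddSupersingular ((p : Ω) ^ a) α) := by
  classical
  obtain ⟨K, _, _, ι, x, rfl, hweil, hcases⟩ := hsep
  rcases hcases with ⟨ψ, hψ⟩ | ⟨hodd, hcases⟩
  · exact absurd (slope_mem j jO hY I ha hs ht hst ι x hα hweil ψ) hψ
  · rcases hcases with h0 | hE | ⟨hdim, hcases⟩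
    · -- all slopes are equal
      obtain ⟨y, hyβ, hβ0, hy, hmin, hcard, hsl⟩ := slopes_rel j jO hY I ha ht hst ι x hα hweil
      refine ⟨hcard, fun σ => ?_, hodd⟩
      have hp : p.Prime := Fact.out
      set lp : ℝ := Real.log ‖(p : PadicAlgCl p)‖ with hlp
      have hlp0 : lp ≠ 0 := (Real.log_neg norm_p_pos norm_p_lt).ne
      have ha0 : (a : ℝ) ≠ 0 := by exact_mod_cast ha.ne'
      have ht0 : (t : ℝ) ≠ 0 := by exact_mod_cast ht.ne'
      have hnD : (0 : ℝ) < (nD (Dec p ν j) : ℝ) := by exact_mod_cast nD_pos (Dec p ν j)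
      have hlq : Real.log ‖(p : PadicAlgCl p) ^ a‖ = a * lp := by
        rw [norm_pow, Real.log_pow]
      obtain ⟨ψ, hσ⟩ := exists_psi j (x ^ t) y hmin σ
      have hψ : 2 * slope p ν a (ψ x) =
          2 * (Real.log ‖ν.symm (ψ (x ^ t))‖ / (t * (a * lp))) := by
        unfold Pool.Agent.R937.VS.slope
        rw [hlq, map_pow, map_pow, norm_pow, Real.log_pow]
        congr 1
        field_simp
      have hψσ : 2 * slope p ν a (ψ x) - b =
          -(((∑ k, tf p ν j (St j (I k)) σ : ℤ) : ℝ) / (nD (Dec p ν j) : ℝ)) := by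
        rw [hψ, hσ]
        exact hsl σ
      rw [h0 ψ, sub_self] at hψσ
      have h1 : ((∑ k, tf p ν j (St j (I k)) σ : ℤ) : ℝ) / (nD (Dec p ν j) : ℝ) = 0 := by linarith
      have h2 : ((∑ k, tf p ν j (St j (I k)) σ : ℤ) : ℝ) = 0 := by
        rcases div_eq_zero_iff.1 h1 with h | h
        · exact h
        · exact absurd h hnD.ne'
      exact_mod_cast h2
    · -- independence
      obtain ⟨y, hyβ, hβ0, hy, hmin, hcard, hsl⟩ := slopes_rel j jO hY I ha ht hst ι x hα hweil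
      refine ⟨hcard, ?_, hodd⟩
      have hp : p.Prime := Fact.out
      set lp : ℝ := Real.log ‖(p : PadicAlgCl p)‖ with hlp
      have hlp0 : lp ≠ 0 := (Real.log_neg norm_p_pos norm_p_lt).ne
      have hnD : (0 : ℝ) < (nD (Dec p ν j) : ℝ) := by exact_mod_cast nD_pos (Dec p ν j)
      obtain ⟨τ, N, hN, hτα, hτ⟩ := hE
      have hqp : ((p : Ω) ^ Y.a) ≠ 0 := pow_ne_zero _ (Nat.cast_ne_zero.2 hp.ne_zero)
      set B : Ω := ∏ k, lam jO (I k) with hB
      have hB0 : B ≠ 0 := Finset.prod_ne_zero_iff.2 fun k _ => lam_ne_zero jO (I k)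
      have hBB : B * τ B = ((p : Ω) ^ Y.a) ^ Fintype.card κ := by
        rw [hB, map_prod, ← Finset.prod_mul_distrib]
        rw [Finset.prod_congr rfl fun k _ => lam_tau jO hτ (I k), Finset.prod_const, Finset.card_univ]
      have h1 : τ B ^ s * τ (ι x) ^ t = (p : Ω) ^ (a * t * c) := by
        rw [← map_pow, ← map_pow, ← map_mul, hα, map_pow, map_natCast]
      have hα0 : ι x ^ t ≠ 0 := fun h0 => by
        rw [h0, mul_zero] at hα
        exact pow_ne_zero _ (Nat.cast_ne_zero.2 hp.ne_zero) hα.symm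
      have h2 : B ^ (s * N) = τ B ^ (s * N) := by
        have h3 : (B ^ s) ^ N * (ι x ^ t) ^ N = (τ B ^ s) ^ N * (ι x ^ t) ^ N := by
          have h4 : (τ (ι x) ^ t) ^ N = (ι x ^ t) ^ N := by
            rw [← pow_mul, mul_comm t N, pow_mul, hτα, ← pow_mul, mul_comm N t, pow_mul]
          rw [← mul_pow, hα, ← h1, mul_pow, h4]
        have h5 := mul_right_cancel₀ (pow_ne_zero _ hα0) h3
        rwa [← pow_mul, ← pow_mul] at h5
      have h3 : B ^ (2 * (s * N)) = ((p : Ω) ^ Y.a) ^ (Fintype.card κ * (s * N)) := by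
        rw [two_mul, pow_add]
        nth_rw 2 [h2]
        rw [← mul_pow, hBB, ← pow_mul]
      have hBL : B = jO (∏ k, (I k).2 (Y.π (I k).1)) := by
        rw [hB, map_prod]
        rfl
      have h4 : (∏ k, (I k).2 (Y.π (I k).1)) ^ (2 * (s * N)) =
          ((p : L) ^ Y.a) ^ (Fintype.card κ * (s * N)) := by
        apply jO.injective
        rw [map_pow, ← hBL, h3, map_pow, map_pow, map_natCast]
      intro σ
      have h5 := congrArg (fun z => Real.log ‖ν.symm (j (σ z))‖) h4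
      simp only [map_pow, map_natCast, norm_pow, Real.log_pow] at h5
      rw [log_prod j Y hY I σ, ← hlp] at h5
      have hsN : (0 : ℝ) < ((s * N : ℕ) : ℝ) := by exact_mod_cast Nat.mul_pos hs hN
      have hYa : (0 : ℝ) < (Y.a : ℝ) := by exact_mod_cast Y.pos
      set T : ℝ := ((∑ k, tf p ν j (St j (I k)) σ : ℤ) : ℝ) with hT
      have h6 : T = 0 := by
        push_cast at h5 hsN
        set U : ℝ := T / (2 * (nD (Dec p ν j) : ℝ)) with hU
        have h7 : (s * N : ℝ) * Y.a * lp * U = 0 := by linear_combination h5 / 2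
        have h8 : (s * N : ℝ) * Y.a * lp ≠ 0 := by
          refine mul_ne_zero (mul_ne_zero hsN.ne' hYa.ne') hlp0
        have h9 : U = 0 := (mul_eq_zero.1 h7).resolve_left h8
        rw [hU] at h9
        rcases div_eq_zero_iff.1 h9 with h | h
        · exact h
        · exact absurd h (by positivity)
      have h10 : ((∑ k, tf p ν j (St j (I k)) σ : ℤ) : ℝ) = 0 := h6
      exact Int.cast_eq_zero.1 h10
    · obtain ⟨h1, h2⟩ := vanish j jO hY hdim I ha hs ht hst hα
        ⟨K, _, _, ι, x, rfl, hweil, Or.inr (by tauto)⟩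
      exact ⟨h1, h2, hodd⟩

end slopes

section main

variable {p : ℕ} [Fact p.Prime] {ν : PadicAlgCl p ≃+* ℂ} {Ω : Type} [Field Ω] [IsAlgClosed Ω]
    [CharZero Ω] {M : Type} [AddCommGroup M] [Module Ω M] [FiniteDimensional Ω M]

/-- `h = f ⊗ w`, where `f` belongs to the set `A` of classes on `Y` and `w ∈ M = H^b(V)`, `b = 2 d`, is a
(generalised) Tate class over a finite extension of the field with `p ^ a` elements. -/
def IsProd (Y : RedAV p ν) (a b : ℕ) (φ : M →ₗ[Ω] M) (r : ℕ) {κ : Type}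
    (A : Set ((TM Ω Y) [⋀^κ]→ₗ[Ω] Ω)) (h : (TM Ω Y) [⋀^κ]→ₗ[Ω] M) : Prop :=
  ∃ (d t : ℕ) (f : (TM Ω Y) [⋀^κ]→ₗ[Ω] Ω) (w : M), b = 2 * d ∧ 0 < t ∧ f ∈ A ∧
    IsGen (pw φ t) ((p : Ω) ^ (a * t * d)) r w ∧ ∀ v, h v = f v • w

/-- **Tate classes on `Y × V`, all eigenvalues of Frobenius on `H^b(V)` being separated from `Y`.** -/
theorem main_gen (Y : RedAV p ν) (a b : ℕ) (ha : 0 < a) (φ : M →ₗ[Ω] M)
    (hφ : ∀ α, End.HasEigenvalue φ α → IsSep Y a b α) (r k : ℕ)
    (A : Set ((TM Ω Y) [⋀^Fin k]→ₗ[Ω] Ω))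
    (hA : ∀ s m f, 0 < s → k = 2 * m → IsTateClass Ω Y s m f → f ∈ A)
    (g : (TM Ω Y) [⋀^Fin k]→ₗ[Ω] M) (hg : IsTate a φ r Y g) :
    g ∈ Submodule.span Ω {h | IsProd Y a b φ r A h} := by
  classical
  have hne : Nonempty (Y.X.prod (Pool.Agent.W547.KB.single (kp p))).I := ⟨Sum.inr ()⟩
  obtain ⟨L, _, _, _, _, j, hj⟩ := exists_cm (Y.X.prod (Pool.Agent.W547.KB.single (kp p)))
  have hYj : Big Y.X j := fun i ψ => hj (Sum.inl i) ψ
  let jO : L →+* Ω := ((IsAlgClosed.lift : L →ₐ[ℚ] Ω) : L →+* Ω)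
  obtain ⟨e, h1, h0⟩ := Pool.Agent.W67.TA.basis p ν Ω L j jO Y hYj
  have : Module.Finite ℚ Y.X.H1 := Module.Finite.pi
  have : Finite (Wt Y.X L) := Module.Finite.finite_basis e
  let _ : Fintype (Wt Y.X L) := Fintype.ofFinite _
  have hcard : ((Fintype.card (Equiv.Perm (Fin k)) : ℕ) : Ω) ≠ 0 :=
    Nat.cast_ne_zero.2 Fintype.card_ne_zero
  have hpΩ : (p : Ω) ≠ 0 := Nat.cast_ne_zero.2 (Fact.out : p.Prime).ne_zero
  obtain ⟨s, t, c, hs, ht, hst, hg⟩ := hg
  -- the coefficients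
  have hcoef : ∀ I : Fin k → Wt Y.X L, g (fun k => e (I k)) ≠ 0 →
      ((((∏ k, lam jO (I k)) ^ s) • φ ^ t - ((p : Ω) ^ (a * t * c)) • (1 : M →ₗ[Ω] M)) ^ r)
        (g fun k => e (I k)) = 0 ∧ b + k = 2 * c ∧
      (∀ σ, ∑ k, tf p ν j (St j (I k)) σ = 0) ∧
      ∃ α, (Odd b → ¬ IsOddSupersingular ((p : Ω) ^ a) α) ∧
        (∏ k, lam jO (I k)) ^ s * α ^ t = (p : Ω) ^ (a * t * c) := by
    intro I hI
    have hw := component jO e h1 h0 hg I
    obtain ⟨α, hα, hαq⟩ := exists_eigenvalue φ hI hw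
    obtain ⟨h2, h3, h4⟩ := vanish_gen j jO hYj I ha hs ht hst hαq (hφ α hα)
    rw [Fintype.card_fin] at h2
    exact ⟨hw, h2, h3, α, h4, hαq⟩
  have h2 := expandM jO Y e h1 h0 (Fin k) g
  have h3 : ((Fintype.card (Equiv.Perm (Fin k)) : ℕ) : Ω) • g ∈
      Submodule.span Ω {h | IsProd Y a b φ r A h} := by
    rw [h2]
    refine Submodule.sum_mem _ fun I _ => ?_
    by_cases hI : g (fun k => e (I k)) = 0
    · rw [hI]
      have h4 : tens (monoO jO I) (0 : M) = 0 := by
        ext v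
        rw [tens_apply, smul_zero]
        rfl
      rw [h4]
      exact Submodule.zero_mem _
    · obtain ⟨hw, hbc, hbal, α, hodd, hαq⟩ := hcoef I hI
      obtain ⟨n, hn, hn2⟩ := prod_lam_pow j jO hYj I hbal
      rw [Fintype.card_fin] at hn2
      rcases Nat.even_or_odd' k with ⟨m, hkm | hkm⟩
      · have h7 : IsTateClass Ω Y (2 * n) m (monoO jO I) := by
          intro v
          have e1 : k * n = m * (2 * n) := by rw [hkm]; ring
          rw [mono_F, hn2, e1]
        refine Submodule.subset_span ⟨c - m, t * (2 * n), monoO jO I,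
          g fun k => e (I k), by omega, by positivity, hA _ m _ (by omega) hkm h7, ?_, fun v => rfl⟩
        exact isGen_of jO I hst φ _ hw (by rw [hn2, hkm]) (by omega)
      · exfalso
        have hbodd : Odd b := by
          rw [Nat.odd_iff]
          omega
        refine hodd hbodd ⟨t * n, 2 * c - k, Nat.mul_pos ht hn, ?_, ?_⟩
        · exact ⟨c - m - 1, by rw [hkm]; push_cast; ring⟩
        · have h7 : ((p : Ω) ^ (a * t * (k * n))) * α ^ (2 * (t * n)) =
              (p : Ω) ^ (a * t * c * (2 * n)) := by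
            have h8 := congrArg (fun z => z ^ (2 * n)) hαq
            simp only [mul_pow, ← pow_mul] at h8
            have e1 : (∏ k, lam jO (I k)) ^ (s * (2 * n)) = (p : Ω) ^ (a * t * (k * n)) := by
              rw [mul_comm s, pow_mul, hn2, ← pow_mul, ← pow_mul]
              congr 1
              calc Y.a * (k * n * s) = Y.a * s * (k * n) := by ring
                _ = a * t * (k * n) := by rw [hst]
            rw [e1] at h8
            rw [← h8]
            congr 1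
            rw [show 2 * (t * n) = t * (2 * n) by ring]
          have h8 : α ^ (2 * (t * n)) = (p : Ω) ^ (a * t * c * (2 * n)) /
              (p : Ω) ^ (a * t * (k * n)) := by
            rw [eq_div_iff (pow_ne_zero _ hpΩ), mul_comm]
            exact h7
          have e2 : ((a : ℤ) * (((t * n : ℕ) : ℤ) * (2 * (c : ℤ) - (k : ℤ)))) =
              ((a * t * c * (2 * n) : ℕ) : ℤ) - ((a * t * (k * n) : ℕ) : ℤ) := by
            push_cast
            ring
          rw [h8, ← zpow_natCast (p : Ω) a, ← zpow_mul, e2, zpow_sub₀ hpΩ, zpow_natCast,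
            zpow_natCast]
  have h4 := Submodule.smul_mem _ (((Fintype.card (Equiv.Perm (Fin k)) : ℕ) : Ω))⁻¹ h3
  rwa [smul_smul, inv_mul_cancel₀ hcard, one_smul] at h4

end main

end

end Pool.Agent.T9h37.CT
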