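import Pool.Agent.T9h37.CT.RkK3
import Pool.Agent.T9h37.CT.Sep

/-!
# Varieties with cohomology of K3 type are separated from abelian varieties by degree or rank
-/

set_option autoImplicit false
set_option linter.unusedSectionVars false

namespace Pool.Agent.T9h37.CT

open NumberField Module Pool.Agent.W547.KB Pool.Agent.W495.TA Pool.Agent.R937.VS
  Pool.Agent.W517.K3 Pool.Agent.Y138.KC

noncomputable section

/-- Elements with a power which is a power of `p`. -/
theorem slope_of_pow {p : ℕ} [Fact p.Prime] (ν : PadicAlgCl p ≃+* ℂ) {N w s : ℕ} (hN : 0 < N)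
    (hs : 0 < s) {z : ℂ} (h : z ^ s = (p : ℂ) ^ (N * w * s)) :
    ‖z‖ ^ 2 = (p : ℝ) ^ (N * (2 * w)) ∧ 2 * slope p ν N z = ((2 * w : ℕ) : ℝ) := by
  have hp : p.Prime := Fact.out
  constructor
  · have h1 := congrArg (fun x => ‖x‖) h
    simp only [norm_pow, Complex.norm_natCast] at h1
    have h2 : ‖z‖ = (p : ℝ) ^ (N * w) := by
      refine (pow_left_inj₀ (norm_nonneg _) (by positivity) hs.ne').1 ?_
      rw [h1, pow_mul]
    rw [h2, ← pow_mul]
    congr 1
    ring
  · have h1 := congrArg (fun x => Real.log ‖ν.symm x‖) h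
    simp only [map_pow, norm_pow, Real.log_pow, map_natCast] at h1
    set lp : ℝ := Real.log ‖(p : PadicAlgCl p)‖ with hlp
    have hlp0 : lp ≠ 0 := (Real.log_neg norm_p_pos norm_p_lt).ne
    unfold Pool.Agent.R937.VS.slope
    rw [norm_pow, Real.log_pow, ← hlp]
    have hN' : (N : ℝ) ≠ 0 := by exact_mod_cast hN.ne'
    have hs' : (s : ℝ) ≠ 0 := by exact_mod_cast hs.ne'
    have h2 : Real.log ‖ν.symm z‖ = N * w * lp := by
      have h3 : (s : ℝ) * (Real.log ‖ν.symm z‖ - N * w * lp) = 0 := by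
        push_cast at h1
        linear_combination h1
      have h4 := (mul_eq_zero.1 h3).resolve_left hs'
      linarith
    rw [h2]
    push_cast
    field_simp

section

variable {p a : ℕ} [Fact p.Prime] {E : Type} [Field E] [NumberField E] {α : E}
  {Ω : Type} [Field Ω] [CharZero Ω]

/-- The degree and the rank of a root of a conjugate of `α`. -/
theorem root_data (hα : IsK3Frobenius p a α) {d : ℕ} (hd : finrank ℚ E = 2 * d) {e M : ℕ} (he : 0 < e)
    (σ : E →+* Ω) {μ : Ω} (h : μ ^ e = (p : Ω) ^ M * σ α) :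
    ∃ (K : Type) (_ : Field K) (_ : NumberField K) (ι : K →+* Ω) (x : K), ι x = μ ∧
      (∀ ψ : K →+* ℂ, ‖ψ x‖ ^ e = (p : ℝ) ^ M) ∧
      (∀ n : ℕ, 0 < n → 2 * d ∣ (minpoly ℚ (x ^ n)).natDegree) ∧
      ∀ n, RankGe p n ((p : E) ^ a * α) → RankGe p n x := by
  classical
  have hp : p.Prime := Fact.out
  have hpΩ : (p : Ω) ≠ 0 := Nat.cast_ne_zero.2 hp.ne_zero
  -- the field generated by `μ`
  have hint : IsIntegral ℚ μ := by
    have h1 : IsIntegral ℚ (μ ^ e) := by
      rw [h]
      refine IsIntegral.mul (IsIntegral.pow (by simpa using isIntegral_algebraMap (R := ℚ) (A := Ω) (x := (p : ℚ))) M) ?_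
      exact (Algebra.IsIntegral.isIntegral (R := ℚ) α).map (RingHom.toRatAlgHom σ)
    exact IsIntegral.of_pow he h1
  let K := IntermediateField.adjoin ℚ {μ}
  have hfin : FiniteDimensional ℚ K := IntermediateField.adjoin.finiteDimensional hint
  have hNF : NumberField K := ⟨⟩
  let x : K := ⟨μ, IntermediateField.mem_adjoin_simple_self ℚ μ⟩
  -- the embedding of `E`
  have hσα : σ α ∈ K := by
    have h1 : σ α = μ ^ e * ((p : Ω) ^ M)⁻¹ := by
      rw [h, mul_comm ((p : Ω) ^ M), mul_inv_cancel_right₀ (pow_ne_zero _ hpΩ)]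
    rw [h1]
    exact mul_mem (pow_mem x.2 e) (inv_mem (pow_mem (natCast_mem _ p) M))
  have hgen : IntermediateField.adjoin ℚ {α} = ⊤ := by
    have := hα.powers 1 one_pos
    rwa [pow_one] at this
  have hσE : ∀ z : E, σ z ∈ K := by
    intro z
    have hz : z ∈ IntermediateField.adjoin ℚ {α} := by rw [hgen]; trivial
    induction hz using IntermediateField.adjoin_induction with
    | mem y hy =>
      rw [Set.mem_singleton_iff] at hy
      rw [hy]
      exact hσα
    | algebraMap q =>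
      have : σ (algebraMap ℚ E q) = algebraMap ℚ Ω q := by simp
      rw [this]
      exact K.algebraMap_mem q
    | add x y _ _ hx hy => rw [map_add]; exact add_mem hx hy
    | inv x _ hx => rw [map_inv₀]; exact inv_mem hx
    | mul x y _ _ hx hy => rw [map_mul]; exact mul_mem hx hy
  let σ' : E →+* K := σ.codRestrict K.toSubfield hσE
  have hx : x ^ e = (p : K) ^ M * σ' α := by
    apply Subtype.ext
    change μ ^ e = _
    rw [h]
    push_cast
    rfl
  refine ⟨K, inferInstance, hNF, K.val, x, rfl, fun ψ => ?_, fun n hn => ?_, fun n hn => ?_⟩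
  · have h1 := congrArg (fun z => ‖ψ z‖) hx
    simp only [map_pow, map_mul, map_natCast, norm_pow, norm_mul, Complex.norm_natCast] at h1
    rw [h1, show ψ (σ' α) = (ψ.comp σ') α from rfl, hα.unitary, mul_one]
  · -- the degree
    have h1 : (x ^ n) ^ e = (p : K) ^ (M * n) * σ' (α ^ n) := by
      rw [← pow_mul, mul_comm n e, pow_mul, hx, mul_pow, ← pow_mul, map_pow]
    have h2 : IntermediateField.adjoin ℚ {(x ^ n) ^ e} ≤ IntermediateField.adjoin ℚ {x ^ n} := by
      rw [IntermediateField.adjoin_le_iff]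
      intro y hy
      rw [Set.mem_singleton_iff] at hy
      rw [hy]
      exact pow_mem (IntermediateField.mem_adjoin_simple_self ℚ _) e
    rw [← IntermediateField.adjoin.finrank (Algebra.IsIntegral.isIntegral (x ^ n))]
    refine Dvd.dvd.trans ?_ (IntermediateField.finrank_dvd_of_le_right h2)
    rw [IntermediateField.adjoin.finrank (Algebra.IsIntegral.isIntegral _), h1]
    have h3 : (p : K) ^ (M * n) * σ' (α ^ n) =
        (RingHom.toRatAlgHom σ') ((p : E) ^ (M * n) * α ^ n) := by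
      change _ = σ' ((p : E) ^ (M * n) * α ^ n)
      rw [map_mul, map_pow σ' (p : E), map_natCast]
    rw [h3, minpoly.algHom_eq _ (RingHom.toRatAlgHom σ').injective,
      ← IntermediateField.adjoin.finrank (Algebra.IsIntegral.isIntegral _)]
    have h4 : IntermediateField.adjoin ℚ {(p : E) ^ (M * n) * α ^ n} = ⊤ := by
      rw [← top_le_iff, ← hα.powers n hn, IntermediateField.adjoin_le_iff]
      intro y hy
      rw [Set.mem_singleton_iff] at hy
      rw [hy]
      have hpE : (p : E) ^ (M * n) ≠ 0 := pow_ne_zero _ (Nat.cast_ne_zero.2 hp.ne_zero)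
      have h5 : α ^ n = ((p : E) ^ (M * n))⁻¹ * ((p : E) ^ (M * n) * α ^ n) := by
        rw [inv_mul_cancel_left₀ hpE]
      have h6 : ((p : E) ^ (M * n))⁻¹ * ((p : E) ^ (M * n) * α ^ n) ∈
          IntermediateField.adjoin ℚ {(p : E) ^ (M * n) * α ^ n} :=
        mul_mem (inv_mem (pow_mem (natCast_mem _ p) _))
          (IntermediateField.mem_adjoin_simple_self ℚ _)
      rwa [← h5] at h6
    rw [h4, IntermediateField.finrank_top', hd]
  · -- the rank
    obtain ⟨v, hv, hψ⟩ := hn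
    choose ψ hψv using hv
    obtain rfl : v = fun k => ψ k ((p : E) ^ a * α) := funext fun k => (hψv k).symm
    -- extension of the embeddings
    let _ : Algebra E K := σ'.toAlgebra
    have halg : Algebra.IsAlgebraic E K := by
      have : IsScalarTower ℚ E K := IsScalarTower.rat
      exact Algebra.IsAlgebraic.tower_top (K := ℚ) E
    have hext : ∀ φ : E →+* ℂ, ∃ φ' : K →+* ℂ, φ'.comp σ' = φ := by
      intro φ
      let _ : Algebra E ℂ := φ.toAlgebra
      let φ' : K →ₐ[E] ℂ := IsAlgClosed.lift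
      exact ⟨φ', φ'.comp_algebraMap⟩
    choose ψ' hψ' using fun k => hext (ψ k)
    refine ⟨fun k => ψ' k x, fun k => ⟨ψ' k, rfl⟩, fun f m hm => ?_⟩
    have hp0 : (p : ℂ) ≠ 0 := Nat.cast_ne_zero.2 hp.ne_zero
    have h1 : ∀ k, ψ' k x ^ e = (p : ℂ) ^ M * ψ k α := by
      intro k
      rw [← map_pow, hx, map_mul, map_pow, map_natCast]
      congr 1
      exact RingHom.congr_fun (hψ' k) α
    have h2 : ∀ k, ψ k ((p : E) ^ a * α) = (p : ℂ) ^ ((a : ℤ) - M) * (ψ' k x) ^ (e : ℤ) := by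
      intro k
      rw [zpow_natCast, h1, zpow_sub₀ hp0, zpow_natCast, zpow_natCast, map_mul, map_pow,
        map_natCast]
      field_simp
    refine hψ f (((a : ℤ) - M) * (∑ k, f k) + m * e) ?_
    have h3' : ∀ s : Finset (Fin n), ∏ k ∈ s, ((p : ℂ) ^ ((a : ℤ) - M)) ^ f k =
        (p : ℂ) ^ (((a : ℤ) - M) * ∑ k ∈ s, f k) := by
      intro s
      induction s using Finset.induction_on with
      | empty => simp
      | insert b s hb ih =>
        rw [Finset.prod_insert hb, Finset.sum_insert hb, ih, mul_add, zpow_add₀ hp0]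
        congr 1
        rw [zpow_mul]
    have h3 : ∏ k, ψ k ((p : E) ^ a * α) ^ f k =
        (∏ k, ((p : ℂ) ^ ((a : ℤ) - M)) ^ f k) * (∏ k, ψ' k x ^ f k) ^ (e : ℤ) := by
      rw [← Finset.prod_zpow, ← Finset.prod_mul_distrib]
      refine Finset.prod_congr rfl fun k _ => ?_
      rw [h2, mul_zpow]
      congr 1
      rw [← zpow_mul, ← zpow_mul, mul_comm]
    rw [h3, h3', hm, zpow_add₀ hp0, zpow_mul (p : ℂ) m]

/-- **Varieties of K3 type are separated from abelian varieties by their degree or rank.** -/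
theorem k3_sep {ν : PadicAlgCl p ≃+* ℂ} {Y : RedAV p ν} {N : ℕ} (hN : 0 < N) {K : Type} [Field K]
    [Algebra K Ω] {M : ℕ → Type} [∀ b, AddCommGroup (M b)] [∀ b, Module K (M b)]
    {φ : ∀ b, M b →ₗ[K] M b} (hα : IsK3Frobenius p a α) {d : ℕ} (hd : finrank ℚ E = 2 * d) {e : ℕ}
    (h : IsK3Type p N Ω φ e α)
    (hor : (∃ ℓ : ℕ, ℓ.Prime ∧ ℓ ≠ 2 ∧ ℓ ∣ d ∧ ∀ i, fdeg Y i < 2 * ℓ) ∨
      (d ≤ 10 ∧ Odd (localDegree p α) ∧ (d, localDegree p α) ∉ exceptionalOddPairs ∧ RankLt Y d)) :
    AllSepRk Ω Y N φ := by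
  have hp : p.Prime := Fact.out
  intro b μ hμ
  obtain ⟨w, rfl, h1⟩ := h.eigenvalue b μ hμ
  rcases h1 with ⟨s, hs, h1⟩ | ⟨σ, h1⟩
  · have hint : IsIntegral ℚ μ := by
      refine IsIntegral.of_pow hs ?_
      rw [h1]
      exact IsIntegral.pow (by simpa using isIntegral_algebraMap (R := ℚ) (A := Ω) (x := (p : ℚ))) _
    let K' := IntermediateField.adjoin ℚ {μ}
    have hfin : FiniteDimensional ℚ K' := IntermediateField.adjoin.finiteDimensional hint
    have hNF : NumberField K' := ⟨⟩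
    let x : K' := ⟨μ, IntermediateField.mem_adjoin_simple_self ℚ μ⟩
    have hx : x ^ s = (p : K') ^ (N * w * s) := by
      apply Subtype.ext
      change μ ^ s = _
      rw [h1]
      push_cast
      rfl
    have hψ : ∀ ψ : K' →+* ℂ, ψ x ^ s = (p : ℂ) ^ (N * w * s) := by
      intro ψ
      rw [← map_pow, hx, map_pow, map_natCast]
    refine ⟨K', inferInstance, hNF, K'.val, x, rfl,
      fun ψ => (slope_of_pow ν hN hs (hψ ψ)).1, Or.inr (Or.inr (Or.inr ⟨fun ho => ?_,
      fun ψ => (slope_of_pow ν hN hs (hψ ψ)).2⟩))⟩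
    exact absurd ho (by simp)
  · obtain ⟨K', hF, hNF, ι, x, hx, h2, h3, h4⟩ := root_data hα hd h.pos σ h1
    refine ⟨K', hF, hNF, ι, x, hx, fun ψ => ?_, ?_⟩
    · have h5 : ‖ψ x‖ = (p : ℝ) ^ (N * w) := by
        refine (pow_left_inj₀ (norm_nonneg _) (by positivity) h.pos.ne').1 ?_
        rw [h2, pow_mul]
      rw [h5, ← pow_mul]
      congr 1
      ring
    · rcases hor with ⟨ℓ, hℓ, hℓ2, hℓd, hY⟩ | ⟨hd10, hodd, hex, hY⟩
      · exact Or.inr (Or.inl ⟨ℓ, hℓ, hℓ2, fun n hn =>
          (Dvd.dvd.mul_left hℓd 2).trans (h3 n hn), hY⟩)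
      · exact Or.inr (Or.inr (Or.inl ⟨d, h4 d (k3_rank α hα hd hd10 hodd hex), hY⟩))

end

end

end Pool.Agent.T9h37.CT
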