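import Pool.Agent.T9h37.CT.Bundle

/-!
# The crystalline Tate conjecture for `Y × V` when the relations with the eigenvalues of `V` vanish
-/

set_option autoImplicit false
set_option linter.unusedSectionVars false
set_option linter.unusedVariables false

namespace Pool.Agent.T9h37.CT

open NumberField Pool.Agent.H204R3.CM Pool.Agent.W547.KB Pool.Agent.W547.LD Pool.Agent.W495.TA Module
  Pool.Agent.W495.TB Pool.Agent.W495.TC Pool.Agent.TH117.F5 Pool.Agent.TH117.BL Pool.Agent.Y137.SF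
  Pool.Agent.R937.CS Pool.Agent.R937.VS Pool.Agent.N522.VT Pool.Agent.R299.CRY Pool.Agent.Y137.GN
open Pool.Agent.Y137.TV (tens tens_apply lam lam_ne_zero mono_F expandM lam_tau IsIndependent
  IsOddSupersingular)
open scoped TensorProduct

noncomputable section

/-- All relations between the eigenvalue `α` of `H^b(V)` and Frobenius eigenvalues of `Y` are trivial. -/
def Vanish {p : ℕ} [Fact p.Prime] {ν : PadicAlgCl p ≃+* ℂ} {Ω : Type} [Field Ω] [CharZero Ω]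
    (Y : RedAV p ν) (a b : ℕ) (α : Ω) : Prop :=
  ∀ {L : Type} [Field L] [NumberField L] [IsCMField L] [IsGalois ℚ L] (j : L →+* ℂ) (jO : L →+* Ω)
    (_ : Big Y.X j) {κ : Type} [Fintype κ] (I : κ → Wt Y.X L) {s t c : ℕ} (_ : 0 < s) (_ : 0 < t)
    (_ : Y.a * s = a * t) (_ : (∏ k, lam jO (I k)) ^ s * α ^ t = (p : Ω) ^ (a * t * c)),
    b + Fintype.card κ = 2 * c ∧ (∀ σ, ∑ k, tf p ν j (St j (I k)) σ = 0) ∧
      (Odd b → ¬ IsOddSupersingular ((p : Ω) ^ a) α)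

section one

variable {p : ℕ} [Fact p.Prime] {ν : PadicAlgCl p ≃+* ℂ} {Ω : Type} [Field Ω] [IsAlgClosed Ω]
    [CharZero Ω] {M : Type} [AddCommGroup M] [Module Ω M] [FiniteDimensional Ω M]

/-- **Tate classes on `Y × V`, for eigenvalues with vanishing relations.** -/
theorem main_van (Y : RedAV p ν) (a b : ℕ) (ha : 0 < a) (φ : M →ₗ[Ω] M)
    (hφ : ∀ α, End.HasEigenvalue φ α → Vanish Y a b α) (r k : ℕ)
    (A : Set ((TM Ω Y) [⋀^Fin k]→ₗ[Ω] Ω))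
    (hA : ∀ s m f, 0 < s → k = 2 * m → IsTateClass Ω Y s m f → f ∈ A)
    (g : (TM Ω Y) [⋀^Fin k]→ₗ[Ω] M) (hg : IsTate a φ r Y g) :
    g ∈ Submodule.span Ω {h | IsProd Y a b φ r A h} := by
  classical
  have hne : Nonempty (Y.X.prod (Pool.Agent.W547.KB.single (kp p))).I := ⟨Sum.inr ()⟩
  obtain ⟨L, _, _, _, _, j, hj⟩ := exists_cm (Y.X.prod (Pool.Agent.W547.KB.single (kp p)))
  have hYj : Big Y.X j := fun i ψ => hj (Sum.inl i) ψ
  let jO : L →+* Ω := ((IsAlgClosed.lift : L →ₐ[ℚ] Ω) : L →+* Ω)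
  obtain ⟨e, h1, h0⟩ := Pool.Agent.W67.TA.basis p ν Ω L j jO Y hYj
  have : Module.Finite ℚ Y.X.H1 := Module.Finite.pi
  have : Finite (Wt Y.X L) := Module.Finite.finite_basis e
  let _ : Fintype (Wt Y.X L) := Fintype.ofFinite _
  have hcard : ((Fintype.card (Equiv.Perm (Fin k)) : ℕ) : Ω) ≠ 0 :=
    Nat.cast_ne_zero.2 Fintype.card_ne_zero
  have hpΩ : (p : Ω) ≠ 0 := Nat.cast_ne_zero.2 (Fact.out : p.Prime).ne_zero
  obtain ⟨s, t, c, hs, ht, hst, hg⟩ := hg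
  -- the coefficients
  have hcoef : ∀ I : Fin k → Wt Y.X L, g (fun k => e (I k)) ≠ 0 →
      ((((∏ k, lam jO (I k)) ^ s) • φ ^ t - ((p : Ω) ^ (a * t * c)) • (1 : M →ₗ[Ω] M)) ^ r)
        (g fun k => e (I k)) = 0 ∧ b + k = 2 * c ∧
      (∀ σ, ∑ k, tf p ν j (St j (I k)) σ = 0) ∧
      ∃ α, (Odd b → ¬ IsOddSupersingular ((p : Ω) ^ a) α) ∧
        (∏ k, lam jO (I k)) ^ s * α ^ t = (p : Ω) ^ (a * t * c) := by
    intro I hI
    have hw := component jO e h1 h0 hg I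
    obtain ⟨α, hα, hαq⟩ := exists_eigenvalue φ hI hw
    obtain ⟨h2, h3, h4⟩ := hφ α hα j jO hYj I hs ht hst hαq
    rw [Fintype.card_fin] at h2
    exact ⟨hw, h2, h3, α, h4, hαq⟩
  have h2 := expandM jO Y e h1 h0 (Fin k) g
  have h3 : ((Fintype.card (Equiv.Perm (Fin k)) : ℕ) : Ω) • g ∈
      Submodule.span Ω {h | IsProd Y a b φ r A h} := by
    rw [h2]
    refine Submodule.sum_mem _ fun I _ => ?_
    by_cases hI : g (fun k => e (I k)) = 0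
    · rw [hI]
      have h4 : tens (monoO jO I) (0 : M) = 0 := by
        ext v
        rw [tens_apply, smul_zero]
        rfl
      rw [h4]
      exact Submodule.zero_mem _
    · obtain ⟨hw, hbc, hbal, α, hodd, hαq⟩ := hcoef I hI
      obtain ⟨n, hn, hn2⟩ := prod_lam_pow j jO hYj I hbal
      rw [Fintype.card_fin] at hn2
      rcases Nat.even_or_odd' k with ⟨m, hkm | hkm⟩
      · have h7 : IsTateClass Ω Y (2 * n) m (monoO jO I) := by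
          intro v
          have e1 : k * n = m * (2 * n) := by rw [hkm]; ring
          rw [mono_F, hn2, e1]
        refine Submodule.subset_span ⟨c - m, t * (2 * n), monoO jO I,
          g fun k => e (I k), by omega, by positivity, hA _ m _ (by omega) hkm h7, ?_, fun v => rfl⟩
        exact isGen_of jO I hst φ _ hw (by rw [hn2, hkm]) (by omega)
      · exfalso
        have hbodd : Odd b := by
          rw [Nat.odd_iff]
          omega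
        refine hodd hbodd ⟨t * n, 2 * c - k, Nat.mul_pos ht hn, ?_, ?_⟩
        · exact ⟨c - m - 1, by rw [hkm]; push_cast; ring⟩
        · have h7 : ((p : Ω) ^ (a * t * (k * n))) * α ^ (2 * (t * n)) =
              (p : Ω) ^ (a * t * c * (2 * n)) := by
            have h8 := congrArg (fun z => z ^ (2 * n)) hαq
            simp only [mul_pow, ← pow_mul] at h8
            have e1 : (∏ k, lam jO (I k)) ^ (s * (2 * n)) = (p : Ω) ^ (a * t * (k * n)) := by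
              rw [mul_comm s, pow_mul, hn2, ← pow_mul, ← pow_mul]
              congr 1
              calc Y.a * (k * n * s) = Y.a * s * (k * n) := by ring
                _ = a * t * (k * n) := by rw [hst]
            rw [e1] at h8
            rw [← h8]
            congr 1
            rw [show 2 * (t * n) = t * (2 * n) by ring]
          have h8 : α ^ (2 * (t * n)) = (p : Ω) ^ (a * t * c * (2 * n)) /
              (p : Ω) ^ (a * t * (k * n)) := by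
            rw [eq_div_iff (pow_ne_zero _ hpΩ), mul_comm]
            exact h7
          have e2 : ((a : ℤ) * (((t * n : ℕ) : ℤ) * (2 * (c : ℤ) - (k : ℤ)))) =
              ((a * t * c * (2 * n) : ℕ) : ℤ) - ((a * t * (k * n) : ℕ) : ℤ) := by
            push_cast
            ring
          rw [h8, ← zpow_natCast (p : Ω) a, ← zpow_mul, e2, zpow_sub₀ hpΩ, zpow_natCast,
            zpow_natCast]
  have h4 := Submodule.smul_mem _ (((Fintype.card (Equiv.Perm (Fin k)) : ℕ) : Ω))⁻¹ h3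
  rwa [smul_smul, inv_mul_cancel₀ hcard, one_smul] at h4


end one

section two

variable {p : ℕ} [Fact p.Prime] {ν : PadicAlgCl p ≃+* ℂ} {K₀ Ω V₀ : Type} [Field K₀] [CharZero K₀]
  [Field Ω] [IsAlgClosed Ω] [CharZero Ω] [Algebra K₀ Ω] [AddCommGroup V₀] [Module K₀ V₀]
  [FiniteDimensional K₀ V₀]

/-- One Künneth component. -/
theorem one_comp_van {N₀ : Type} [AddCommGroup N₀] [Module K₀ N₀] [FiniteDimensional K₀ N₀]
    {Y : RedAV p ν} (s : ℕ) (hs : 0 < s) (e : (Ω ⊗[K₀] V₀) ≃ₗ[Ω] TM Ω Y)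
    (F₀ : V₀ →ₗ[K₀] V₀) (he : IsCrystalline Y s F₀ e) (φ₀ : N₀ →ₗ[K₀] N₀) (b k r c : ℕ)
    (hφ : ∀ α, End.HasEigenvalue (φ₀.baseChange Ω) α → Vanish Y (Y.a * s) b α)
    (A : Set ((TM Ω Y) [⋀^Fin k]→ₗ[Ω] Ω))
    (hA : ∀ s m f, 0 < s → k = 2 * m → IsTateClass Ω Y s m f → f ∈ A)
    (f : V₀ [⋀^Fin k]→ₗ[K₀] N₀) (hf : IsGen (twist F₀ φ₀ (Fin k)) ((p : K₀) ^ (Y.a * s * c)) r f) :
    ∃ G : (TM Ω Y) [⋀^Fin k]→ₗ[Ω] (Ω ⊗[K₀] N₀), Extends e f G ∧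
      G ∈ Submodule.span Ω {h | IsProd Y (Y.a * s) b (φ₀.baseChange Ω) r A h} := by
  obtain ⟨G, hG⟩ := exists_ext e f
  refine ⟨G, hG, ?_⟩
  have hgen := ext_gen e (incl K₀ Ω N₀) he φ₀ (φ₀.baseChange Ω)
    (fun x => LinearMap.baseChange_tmul ..) ((p : K₀) ^ (Y.a * s * c)) (incl_smul _) r
    (g := f) (G := G) hG
  have h0 : ((twist F₀ φ₀ (Fin k) - ((p : K₀) ^ (Y.a * s * c)) • 1) ^ r) f = 0 := hf
  rw [h0] at hgen
  have hzero : Extends e (0 : V₀ [⋀^Fin k]→ₗ[K₀] N₀)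
      (0 : (TM Ω Y) [⋀^Fin k]→ₗ[Ω] (Ω ⊗[K₀] N₀)) := fun u =>
    (TensorProduct.tmul_zero _ _).symm
  have h1 := ext_unique e hgen hzero
  have ha : 0 < Y.a * s := Nat.mul_pos Y.pos hs
  have hT : IsTate (Y.a * s) (φ₀.baseChange Ω) r Y G := by
    refine ⟨s, 1, c, hs, one_pos, by ring, ?_⟩
    have h2 : (algebraMap K₀ Ω) ((p : K₀) ^ (Y.a * s * c)) = (p : Ω) ^ (Y.a * s * 1 * c) := by
      rw [map_pow, map_natCast, mul_one]
    rw [h2] at h1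
    exact h1
  exact main_van Y (Y.a * s) b ha (φ₀.baseChange Ω) hφ r k A hA G hT

variable {M₀ : ℕ → Type} [∀ b, AddCommGroup (M₀ b)] [∀ b, Module K₀ (M₀ b)]
  [∀ b, FiniteDimensional K₀ (M₀ b)] {Y : RedAV p ν}

/-- The crystalline Tate conjecture for `Y × V`, linear form. -/
theorem crys_lin_van (s : ℕ) (hs : 0 < s) (e : (Ω ⊗[K₀] V₀) ≃ₗ[Ω] TM Ω Y) (F₀ : V₀ →ₗ[K₀] V₀)
    (he : IsCrystalline Y s F₀ e) (φ₀ : ∀ b, M₀ b →ₗ[K₀] M₀ b)
    (hφ : ∀ b α, End.HasEigenvalue ((φ₀ b).baseChange Ω) α → Vanish Y (Y.a * s) b α)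
    (A : ∀ k, Set ((TM Ω Y) [⋀^Fin k]→ₗ[Ω] Ω)) (hA : TateAV Y A)
    (B : ∀ b, Set (Ω ⊗[K₀] M₀ b)) (r : ℕ) (hB : TateVar p (Y.a * s) r φ₀ B)
    (c : ℕ) (Z : Submodule K₀ (Coh K₀ V₀ M₀ c))
    (hZ : ContainsProducts (p := p) (Y.a * s) e F₀ φ₀ A B c Z) (f : Coh K₀ V₀ M₀ c)
    (hf : IsTateCoh p (Y.a * s) F₀ φ₀ c r f) : f ∈ Z := by
  refine hZ r f hf fun b => ?_
  obtain ⟨G, hG, h2⟩ := one_comp_van s hs e F₀ he (φ₀ b) b (2 * c - b) r c (hφ b)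
    (A (2 * c - b)) (fun s m f hs hm hf => by
      generalize 2 * (c : ℕ) - (b : ℕ) = k at f hf hm
      subst hm
      exact hA s m f hs hf) (f b) (hf b)
  refine ⟨G, hG, Submodule.span_mono ?_ h2⟩
  rintro h ⟨d, t, f', w, hb, ht, hf', hw, hv⟩
  have hw' : w ∈ B b := by
    have key : ∀ (b : ℕ) (w : Ω ⊗[K₀] M₀ b), b = 2 * d →
        IsGen (pw ((φ₀ b).baseChange Ω) t) ((p : Ω) ^ (Y.a * s * t * d)) r w → w ∈ B b := by
      intro b w hb hw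
      subst hb
      exact hB d t ht w hw
    exact key _ w hb hw
  exact ⟨by rw [hb]; exact even_two_mul d, f', hf', w, hw', hv⟩


/-- **The crystalline Tate conjecture for `Y × V`.** -/
theorem crys_main_van (s : ℕ) (hs : 0 < s) (σ : K₀ ≃+* K₀) (Ψ : V₀ → V₀) (F₀ : V₀ →ₗ[K₀] V₀)
    (hΨ : IsSemilinearFrobenius (Y.a * s) σ Ψ F₀)
    (e : (Ω ⊗[K₀] V₀) ≃ₗ[Ω] TM Ω Y) (he : IsCrystalline Y s F₀ e)
    (Φ : ∀ b, M₀ b → M₀ b) (φ₀ : ∀ b, M₀ b →ₗ[K₀] M₀ b)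
    (hΦ : ∀ b, IsCrysFrobenius (Y.a * s) σ (Φ b) (φ₀ b))
    (hφ : ∀ b α, End.HasEigenvalue ((φ₀ b).baseChange Ω) α → Vanish Y (Y.a * s) b α)
    (A : ∀ k, Set ((TM Ω Y) [⋀^Fin k]→ₗ[Ω] Ω)) (hA : KnownTate Y A)
    (B : ∀ b, Set (Ω ⊗[K₀] M₀ b)) (r : ℕ) (hr : 0 < r)
    (hB : TateVar p (Y.a * s) r φ₀ B) (c : ℕ) (Cyc : Set (Coh K₀ V₀ M₀ c))
    (hC : ∀ z ∈ Cyc, IsFixedCoh p Ψ Φ c z)
    (hZ : ContainsProducts (p := p) (Y.a * s) e F₀ φ₀ A B c (Submodule.span K₀ Cyc)) :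
    (∀ f, IsTateCoh p (Y.a * s) F₀ φ₀ c r f →
      f ∈ Submodule.span K₀ Cyc ∧ IsTateCoh p (Y.a * s) F₀ φ₀ c 1 f) ∧
    ∀ f, IsFixedCoh p Ψ Φ c f → FixedSpan σ Cyc f := by
  have h1 : ∀ f, IsTateCoh p (Y.a * s) F₀ φ₀ c r f → f ∈ Submodule.span K₀ Cyc := fun f hf =>
    crys_lin_van s hs e F₀ he φ₀ hφ A hA.tate B r hB c _ hZ f hf
  refine ⟨fun f hf => ⟨h1 f hf, tateCoh_span (fun z hz => tate_of_fixed hΨ hΦ one_pos z (hC z hz))
    (h1 f hf)⟩, fun f hf => ?_⟩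
  exact fixedSpan_coh hΨ hΦ Cyc hC f (h1 f (tate_of_fixed hΨ hΦ hr f hf)) hf


end two

section three

variable {p : ℕ} [Fact p.Prime] {ν : PadicAlgCl p ≃+* ℂ} {K Ω D : Type} [Field K] [CharZero K]
  [Field Ω] [IsAlgClosed Ω] [CharZero Ω] [Algebra K Ω]
  [AddCommGroup D] [Module K D] [FiniteDimensional K D] {M : ℕ → Type} [∀ b, AddCommGroup (M b)]
  [∀ b, Module K (M b)] [∀ b, FiniteDimensional K (M b)]

/-- **The crystalline Tate conjecture for `Y × V`.** -/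
theorem bundled_van (Y : RedAV p ν) (s : ℕ) (hs : 0 < s) (σ : K ≃+* K) (Ψ : D → D) (F₀ : D →ₗ[K] D)
    (e : (Ω ⊗[K] D) ≃ₗ[Ω] TM Ω Y) (hΨ : IsDualFrob (Y.a * s) σ Ψ F₀) (he : IsFirst Y s F₀ e)
    (Φ : ∀ b, M b → M b) (φ : ∀ b, M b →ₗ[K] M b) (hΦ : ∀ b, IsFrob (Y.a * s) σ (Φ b) (φ b))
    (hsep : ∀ b α, End.HasEigenvalue ((φ b).baseChange Ω) α → Vanish Y (Y.a * s) b α)
    (A : ∀ k, Set ((TM Ω Y) [⋀^Fin k]→ₗ[Ω] Ω)) (hA : KnownY Y A)
    (B : ∀ b, Set (Ω ⊗[K] M b)) (r : ℕ) (hr : 0 < r) (hB : TateV p (Y.a * s) φ B r) (c : ℕ)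
    (Cyc : Set (CohYV K D M c)) (hC : ∀ z ∈ Cyc, IsFixedYV p Ψ Φ z)
    (hZ : HasProducts (Y.a * s) e F₀ φ A B Cyc) :
    (∀ f : CohYV K D M c, IsTateYV p (Y.a * s) F₀ φ r f →
      f ∈ Submodule.span K Cyc ∧ IsTateYV p (Y.a * s) F₀ φ 1 f) ∧
      ∀ f : CohYV K D M c, IsFixedYV p Ψ Φ f → IsPadicComb σ Cyc f := by
  refine crys_main_van (p := p) (Y := Y) (Ω := Ω) (M₀ := M) s hs σ Ψ F₀
    ⟨hΨ.pow_sigma, hΨ.add, hΨ.smul, hΨ.pow⟩ e (isCrystalline_of he) Φ φ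
    (fun b => ⟨(hΦ b).add, (hΦ b).smul, (hΦ b).pow⟩) hsep A hA B r hr hB c Cyc hC ?_
  intro r g hg hg'
  refine hZ r g hg fun b => ?_
  obtain ⟨G, hG, h1⟩ := hg' b
  obtain ⟨n, a, f, w, h2, h3⟩ := sum_of_span _ _ _ G h1
  refine ⟨n, a, f, w, h2, fun v => ?_⟩
  rw [← hG v]
  exact h3 _


end three

end

end Pool.Agent.T9h37.CT
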